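import Pool.Agent.Lib.MP_c77682_nt.B.NonSing2
import Pool.Agent.Lib.MP_c77682_nt.Integral

section

/-!
Theorem B1, Lemma 11: a stable system of `r` quadratic forms over `F_p`, `p ≥ 2 fib (2r+3)`, has a nonsingular zero.
-/

set_option autoImplicit false

open Module

namespace QSys

theorem fib_facts (k : ℕ) : 13 * (k + 3) ^ 2 ≤ 9 * Nat.fib (2 * (k + 2) + 3) ∧
    13 * (k + 3) ≤ 3 * Nat.fib (2 * (k + 2) + 3) ∧ 13 * (k + 2) ≤ 2 * Nat.fib (2 * (k + 2) + 3) ∧
    13 ≤ Nat.fib (2 * (k + 2) + 3) := by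
  induction k with
  | zero =>
    have : Nat.fib 7 = 13 := by decide
    simp [this]
  | succ k ih =>
    obtain ⟨h1, h2, h3, h4⟩ := ih
    have h5 : 2 * Nat.fib (2 * (k + 2) + 3) ≤ Nat.fib (2 * (k + 1 + 2) + 3) := by
      have e1 : 2 * (k + 1 + 2) + 3 = (2 * (k + 2) + 3) + 2 := by ring
      have e2 := Nat.fib_add_two (n := 2 * (k + 2) + 3)
      rw [e1, e2]
      have := Nat.fib_mono (show 2 * (k + 2) + 3 ≤ 2 * (k + 2) + 3 + 1 by omega)
      omega
    refine ⟨?_, ?_, ?_, ?_⟩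
    · nlinarith
    · omega
    · omega
    · omega

theorem sum_two_le (a q : ℝ) (ha : 2 ≤ a) (hq : 0 < q) (haq : 26 * a ^ 2 ≤ 9 * q) (N : ℕ) :
    ∑ τ ∈ Finset.Icc 1 N, a ^ τ / q ^ (τ / 2) ≤ 2 * a := by
  set z := a ^ 2 / q with hz
  have hz0 : 0 ≤ z := by positivity
  have hz1 : z ≤ 9 / 26 := by
    rw [hz, div_le_div_iff₀ hq (by norm_num)]
    linarith
  have h1 : ∀ M : ℕ, ∑ τ ∈ Finset.Icc 1 (2 * M), a ^ τ / q ^ (τ / 2) =
      (a + z) * ∑ j ∈ Finset.range M, z ^ j := by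
    intro M
    induction M with
    | zero => simp
    | succ M ih =>
      have e1 : 2 * (M + 1) = 2 * M + 1 + 1 := by ring
      rw [e1, Finset.sum_Icc_succ_top (by omega), Finset.sum_Icc_succ_top (by omega), ih,
        Finset.sum_range_succ]
      have e2 : (2 * M + 1) / 2 = M := by omega
      have e3 : (2 * M + 1 + 1) / 2 = M + 1 := by omega
      rw [e2, e3, hz, div_pow]
      have e4 : (a ^ 2) ^ M = a ^ (2 * M) := by rw [← pow_mul]
      rw [e4]
      field_simp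
      ring
  have h2 : ∑ τ ∈ Finset.Icc 1 N, a ^ τ / q ^ (τ / 2) ≤
      ∑ τ ∈ Finset.Icc 1 (2 * N), a ^ τ / q ^ (τ / 2) := by
    refine Finset.sum_le_sum_of_subset_of_nonneg ?_ fun τ _ _ => by positivity
    exact Finset.Icc_subset_Icc_right (by omega)
  rw [h1] at h2
  have h3 : (∑ j ∈ Finset.range N, z ^ j) * (1 - z) ≤ 1 := by
    have := geom_sum_mul_neg z N
    rw [this]
    have : 0 ≤ z ^ N := by positivity
    linarith
  have h4 : 0 ≤ ∑ j ∈ Finset.range N, z ^ j := Finset.sum_nonneg fun j _ => by positivity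
  have h5 : ∑ j ∈ Finset.range N, z ^ j ≤ 26 / 17 := by
    nlinarith
  calc _ ≤ (a + z) * ∑ j ∈ Finset.range N, z ^ j := h2
    _ ≤ (a + z) * (26 / 17) := mul_le_mul_of_nonneg_left h5 (by linarith)
    _ ≤ _ := by linarith

theorem hyp_of (p r : ℕ) (hr : 2 ≤ r) (hp : 2 * Nat.fib (2 * r + 3) ≤ p) :
    Hyp p (49 / 40) r ∧ 26 ≤ p := by
  obtain ⟨k, rfl⟩ := Nat.exists_eq_add_of_le' hr
  obtain ⟨h1, h2, h3, h4⟩ := fib_facts k
  have hp26 : 26 ≤ p := by omega
  have hq : (26 : ℝ) ≤ (p : ℝ) := by exact_mod_cast hp26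
  have a1 : 26 * (((k + 2 : ℕ) : ℝ) + 1) ^ 2 ≤ 9 * (p : ℝ) := by
    have : 26 * (k + 2 + 1) ^ 2 ≤ 9 * p := by
      have e : k + 2 + 1 = k + 3 := by ring
      rw [e]
      omega
    exact_mod_cast this
  have a2 : 26 * (((k + 2 : ℕ) : ℝ) + 1) ≤ 3 * (p : ℝ) := by
    have : 26 * (k + 2 + 1) ≤ 3 * p := by omega
    exact_mod_cast this
  have a3 : 13 * (((k + 2 : ℕ) : ℝ)) ≤ (p : ℝ) := by
    have : 13 * (k + 2) ≤ p := by omega
    exact_mod_cast this
  have a4 : (2 : ℝ) ≤ (((k + 2 : ℕ) : ℝ)) := by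
    have : 2 ≤ k + 2 := by omega
    exact_mod_cast this
  refine ⟨⟨by omega, by omega, ?_, ?_⟩, hp26⟩
  · have b1 : (12 : ℝ) / 13 ≤ 1 - (((k + 2 : ℕ) : ℝ)) / p := by
      have : (((k + 2 : ℕ) : ℝ)) / p ≤ 1 / 13 := by
        rw [div_le_div_iff₀ (by linarith) (by norm_num)]
        linarith
      linarith
    have b2 : (24 : ℝ) / 25 ≤ 1 - 1 / ((p : ℝ) - 1) := by
      have : 1 / ((p : ℝ) - 1) ≤ 1 / 25 := by
        apply one_div_le_one_div_of_le (by norm_num)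
        linarith
      linarith
    have b3 : ((24 : ℝ) / 25) ^ 3 ≤ (1 - 1 / ((p : ℝ) - 1)) ^ 3 := pow_le_pow_left₀ (by norm_num) b2 3
    calc (1 : ℝ) ≤ 49 / 40 * ((12 / 13) * (24 / 25) ^ 3) := by norm_num
      _ ≤ _ := by
        refine mul_le_mul_of_nonneg_left ?_ (by norm_num)
        exact mul_le_mul b1 b3 (by norm_num) (by linarith)
  · intro N
    have c1 := sum_two_le (((k + 2 : ℕ) : ℝ) + 1) (p : ℝ) (by linarith) (by linarith) a1 N
    have c2 : (p : ℝ) / ((p : ℝ) - 1) ≤ 26 / 25 := by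
      rw [div_le_div_iff₀ (by linarith) (by norm_num)]
      linarith
    have c3 : 0 ≤ ∑ τ ∈ Finset.Icc 1 N, (((k + 2 : ℕ) : ℝ) + 1) ^ τ / (p : ℝ) ^ (τ / 2) :=
      Finset.sum_nonneg fun τ _ => by positivity
    calc 1 + 49 / 40 * ((p : ℝ) / ((p : ℝ) - 1)) *
        ∑ τ ∈ Finset.Icc 1 N, (((k + 2 : ℕ) : ℝ) + 1) ^ τ / (p : ℝ) ^ (τ / 2) ≤
        1 + 49 / 40 * (26 / 25) * (2 * (((k + 2 : ℕ) : ℝ) + 1)) := by
          have c4 : 49 / 40 * ((p : ℝ) / ((p : ℝ) - 1)) ≤ 49 / 40 * (26 / 25) :=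
            mul_le_mul_of_nonneg_left c2 (by norm_num)
          have c5 := mul_le_mul c4 c1 c3 (by norm_num)
          linarith
      _ < (p : ℝ) := by linarith

variable (p : ℕ) [Fact p.Prime] {X W : Type} [AddCommGroup X] [Module (ZMod p) X]
  [FiniteDimensional (ZMod p) X] [AddCommGroup W] [Module (ZMod p) W] [FiniteDimensional (ZMod p) W]

theorem nonsing_ge_two (hr : 2 ≤ finrank (ZMod p) W)
    (hp : 2 * Nat.fib (2 * finrank (ZMod p) W + 3) ≤ p) (b : X →ₗ[ZMod p] X →ₗ[ZMod p] W)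
    (hb : ∀ x y, b x y = b y x) (hst : Stb ph 0 b) :
    ∃ x, b x x = 0 ∧ Function.Surjective (b x) := by
  by_contra hcon
  push Not at hcon
  obtain ⟨hH, hp26⟩ := hyp_of p (finrank (ZMod p) W) hr hp
  have h := nonsing_ineq p (by omega) (49 / 40) b hb hst hH hcon
  set r := finrank (ZMod p) W with hrd
  have hq : (26 : ℝ) ≤ (p : ℝ) := by exact_mod_cast hp26
  have hA : 2 * (Nat.fib (2 * r + 3) : ℝ) ≤ (p : ℝ) := by exact_mod_cast hp
  have hF1 : 2 * (Nat.fib (2 * r + 1) : ℝ) ≤ (Nat.fib (2 * r + 3) : ℝ) := by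
    have : 2 * Nat.fib (2 * r + 1) ≤ Nat.fib (2 * r + 3) := by
      rw [show 2 * r + 3 = (2 * r + 1) + 2 by ring, Nat.fib_add_two]
      have := Nat.fib_mono (show 2 * r + 1 ≤ 2 * r + 1 + 1 by omega)
      omega
    exact_mod_cast this
  have hF2 : (Nat.fib (2 * r + 2) : ℝ) ≤ (Nat.fib (2 * r + 3) : ℝ) := by
    exact_mod_cast Nat.fib_mono (by omega)
  have hF10 : (0 : ℝ) ≤ (Nat.fib (2 * r + 1) : ℝ) := Nat.cast_nonneg _
  have hF20 : (0 : ℝ) ≤ (Nat.fib (2 * r + 2) : ℝ) := Nat.cast_nonneg _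
  have hF30 : (0 : ℝ) ≤ (Nat.fib (2 * r + 3) : ℝ) := Nat.cast_nonneg _
  have hK : 49 / 40 / (1 - 3 / (p : ℝ)) ≤ 139 / 100 := by
    have h1 : 3 / (p : ℝ) ≤ 3 / 26 := by
      apply div_le_div_of_nonneg_left (by norm_num) (by norm_num) hq
    rw [div_le_iff₀ (by linarith)]
    linarith
  have hK0 : 0 ≤ 49 / 40 / (1 - 3 / (p : ℝ)) := by
    have h1 : 3 / (p : ℝ) ≤ 3 / 26 := by
      apply div_le_div_of_nonneg_left (by norm_num) (by norm_num) hq
    exact div_nonneg (by norm_num) (by linarith)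
  set K := 49 / 40 / (1 - 3 / (p : ℝ)) with hKd
  set F1 := (Nat.fib (2 * r + 1) : ℝ) with hF1d
  set F2 := (Nat.fib (2 * r + 2) : ℝ) with hF2d
  set F3 := (Nat.fib (2 * r + 3) : ℝ) with hF3d
  have hp0 : (0 : ℝ) < (p : ℝ) := by linarith
  have g1 : F3 / p ≤ 1 / 2 := by
    rw [div_le_div_iff₀ hp0 (by norm_num)]
    linarith
  have g10 : 0 ≤ F3 / p := by positivity
  have g2 : F1 * (1 / (p : ℝ)) ≤ 1 / 4 := by
    rw [mul_one_div, div_le_div_iff₀ hp0 (by norm_num)]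
    linarith
  have g3 : F3 / p + F2 ≤ 1 / 2 + (p : ℝ) / 2 := by linarith
  have e1 : K * F1 * (1 / (p : ℝ)) * (K * (F3 / p) + K * F2) ≤ (139 / 100) ^ 2 * (1 / 4) * (1 / 2 + (p : ℝ) / 2) := by
    calc K * F1 * (1 / (p : ℝ)) * (K * (F3 / p) + K * F2) = (K * K) * ((F1 * (1 / (p : ℝ))) * (F3 / p + F2)) := by ring
      _ ≤ ((139 / 100) * (139 / 100)) * ((1 / 4) * (1 / 2 + (p : ℝ) / 2)) := by
          have i1 : K * K ≤ (139 / 100) * (139 / 100) := mul_le_mul hK hK hK0 (by norm_num)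
          have i2 : (F1 * (1 / (p : ℝ))) * (F3 / p + F2) ≤ (1 / 4) * (1 / 2 + (p : ℝ) / 2) :=
            mul_le_mul g2 g3 (by positivity) (by norm_num)
          exact mul_le_mul i1 i2 (by positivity) (by norm_num)
      _ = _ := by ring
  have e2 : ((p : ℝ) - 1) * (1 - 139 / 200) ≤ ((p : ℝ) - 1) * (1 - K * (F3 / p)) := by
    refine mul_le_mul_of_nonneg_left ?_ (by linarith)
    have : K * (F3 / p) ≤ 139 / 100 * (1 / 2) := mul_le_mul hK g1 g10 (by norm_num)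
    linarith
  have e3 := e2.trans (h.trans e1)
  linarith

theorem card_sum_le (b : X →ₗ[ZMod p] X →ₗ[ZMod p] W) (S : Finset ℕ) (f : ℕ → ℕ)
    (hf : Set.InjOn f S) :
    ∑ m ∈ S, (Nat.card {l : Dual (ZMod p) W // rk (TT b) l = f m} : ℝ) ≤
      (p : ℝ) ^ finrank (ZMod p) W := by
  classical
  have hfL : Finite (Dual (ZMod p) W) := Module.finite_of_finite (ZMod p)
  let _ := Fintype.ofFinite (Dual (ZMod p) W)
  have h1 : ∑ m ∈ S, (Nat.card {l : Dual (ZMod p) W // rk (TT b) l = f m}) ≤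
      Nat.card (Dual (ZMod p) W) := by
    have h2 : ∀ m, Nat.card {l : Dual (ZMod p) W // rk (TT b) l = f m} =
        (Finset.univ.filter fun l : Dual (ZMod p) W => rk (TT b) l = f m).card := by
      intro m
      rw [Nat.card_eq_fintype_card, Fintype.card_subtype]
    rw [Finset.sum_congr rfl fun m _ => h2 m, ← Finset.card_biUnion, Nat.card_eq_fintype_card]
    · exact Finset.card_le_univ _
    · intro m hm m' hm' hne
      rw [Function.onFun, Finset.disjoint_left]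
      intro l hl hl'
      apply hne
      apply hf hm hm'
      rw [← (Finset.mem_filter.1 hl).2, ← (Finset.mem_filter.1 hl').2]
  have hcp : Nat.card (ZMod p) = p := Nat.card_zmod p
  rw [Module.natCard_eq_pow_finrank (K := ZMod p) (V := Dual (ZMod p) W), hcp,
      Subspace.dual_finrank_eq] at h1
  exact_mod_cast h1

theorem nonsing_one (hp : p ≠ 2) (hr : finrank (ZMod p) W = 1) (b : X →ₗ[ZMod p] X →ₗ[ZMod p] W)
    (hb : ∀ x y, b x y = b y x) (hst : Stb ph 0 b) :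
    ∃ x, b x x = 0 ∧ Function.Surjective (b x) := by
  by_contra hcon
  push Not at hcon
  have hp2 : 2 ≤ p := (Fact.out : p.Prime).two_le
  have hp3 : 3 ≤ p := by omega
  have hq : (3 : ℝ) ≤ (p : ℝ) := by exact_mod_cast hp3
  have hrk : ∀ l : Dual (ZMod p) W, l ≠ 0 → 3 ≤ rk (TT b) l := by
    intro l hl
    have h1 := hst (rad b l) (Submodule.span (ZMod p) {l}) (by
      intro l' hl' x hx y _
      obtain ⟨c, rfl⟩ := Submodule.mem_span_singleton.1 hl'
      have h3 := (mem_rad b l x).1 hx y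
      simp [h3])
    rw [finrank_span_singleton hl] at h1
    have h2 := finrank_rad b l
    unfold ph at h1
    omega
  set n := finrank (ZMod p) X with hn
  have hc1 : Nat.card {l : Dual (ZMod p) W // rk (TT b) l = 2} = 0 := by
    have : IsEmpty {l : Dual (ZMod p) W // rk (TT b) l = 2} := by
      refine ⟨fun l => ?_⟩
      by_cases h0 : l.1 = 0
      · have h1 := l.2
        rw [h0] at h1
        have hrk0 : rk (TT b) (0 : Dual (ZMod p) W) = 0 := by
          rw [rk, map_zero, LinearMap.range_zero, finrank_bot]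
        omega
      · have := hrk l.1 h0
        have h1 := l.2
        omega
    exact Nat.card_of_isEmpty
  have hEE : EE p b ≤ 1 + 1 / (p : ℝ) := by
    rw [ee_split, card_rk_zero p b hst, Nat.cast_one]
    have h1 : ∑ m ∈ Finset.Icc 1 (finrank (ZMod p) X),
        (Nat.card {l : Dual (ZMod p) W // rk (TT b) l = 2 * m} : ℝ) / (p : ℝ) ^ m ≤
        ∑ m ∈ Finset.Icc 1 (finrank (ZMod p) X),
        (Nat.card {l : Dual (ZMod p) W // rk (TT b) l = 2 * m} : ℝ) * (1 / (p : ℝ) ^ 2) := by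
      refine Finset.sum_le_sum fun m hm => ?_
      rw [Finset.mem_Icc] at hm
      rcases Nat.lt_or_ge m 2 with h2 | h2
      · have h3 : m = 1 := by omega
        subst h3
        rw [Nat.mul_one, hc1]
        simp
      · rw [div_eq_mul_one_div]
        refine mul_le_mul_of_nonneg_left ?_ (Nat.cast_nonneg _)
        apply one_div_le_one_div_of_le (by positivity)
        exact pow_le_pow_right₀ (by linarith) h2
    rw [← Finset.sum_mul] at h1
    have h4 := card_sum_le p b (Finset.Icc 1 (finrank (ZMod p) X)) (fun m => 2 * m)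
      (fun m _ m' _ h => by simp only at h; omega)
    rw [hr, pow_one] at h4
    have h5 : (∑ m ∈ Finset.Icc 1 (finrank (ZMod p) X),
        (Nat.card {l : Dual (ZMod p) W // rk (TT b) l = 2 * m} : ℝ)) * (1 / (p : ℝ) ^ 2) ≤
        (p : ℝ) * (1 / (p : ℝ) ^ 2) := mul_le_mul_of_nonneg_right h4 (by positivity)
    have h6 : (p : ℝ) * (1 / (p : ℝ) ^ 2) = 1 / (p : ℝ) := by
      have : (p : ℝ) ≠ 0 := by linarith
      field_simp
    linarith
  have hlow := count_low p hp b hb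
  rw [hr, pow_one] at hlow
  have hs := sing_count p b hcon (fun τ => (p : ℝ) ^ n / (p : ℝ) ^ 3)
    (by
      intro l hl
      have h1 : Nat.card {x : rad b l // res b (rad b l) x x = 0} ≤ Nat.card (rad b l) := by
        have hfX : Finite (rad b l) := Module.finite_of_finite (ZMod p)
        exact Nat.card_le_card_of_injective _ Subtype.val_injective
      have hcp : Nat.card (ZMod p) = p := Nat.card_zmod p
      rw [Module.natCard_eq_pow_finrank (K := ZMod p) (V := rad b l), hcp] at h1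
      have h2 := finrank_rad b l
      have h3 := hrk l hl
      have h4 : (Nat.card {x : rad b l // res b (rad b l) x x = 0} : ℝ) ≤
          (p : ℝ) ^ finrank (ZMod p) (rad b l) := by exact_mod_cast h1
      refine h4.trans ?_
      rw [le_div_iff₀ (by positivity), ← pow_add]
      exact pow_le_pow_right₀ (by linarith) (by omega)) (fun l hl => by have := hrk l hl; omega)
  rw [← Finset.sum_mul] at hs
  have h7 := card_sum_le p b (Finset.Icc 1 (finrank (ZMod p) X)) (fun m => m)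
    (fun m _ m' _ h => h)
  rw [hr, pow_one] at h7
  set Z := (Nat.card {x : X // b x x = 0} : ℝ) with hZ
  have h8 : ((p : ℝ) - 1) * Z ≤ (p : ℝ) * ((p : ℝ) ^ n / (p : ℝ) ^ 3) :=
    hs.trans (mul_le_mul_of_nonneg_right h7 (by positivity))
  have hpn : (0 : ℝ) < (p : ℝ) ^ n := by positivity
  have h9 : (p : ℝ) ^ n * (1 - 1 / (p : ℝ)) ≤ Z * p := by
    refine le_trans (mul_le_mul_of_nonneg_left ?_ hpn.le) hlow
    linarith
  have h10 : (p : ℝ) * ((p : ℝ) ^ n / (p : ℝ) ^ 3) = (p : ℝ) ^ n / (p : ℝ) ^ 2 := by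
    have : (p : ℝ) ≠ 0 := by linarith
    field_simp
  rw [h10] at h8
  have h11 : ((p : ℝ) - 1) * ((p : ℝ) ^ n * (1 - 1 / (p : ℝ))) ≤ (p : ℝ) ^ n / (p : ℝ) := by
    calc ((p : ℝ) - 1) * ((p : ℝ) ^ n * (1 - 1 / (p : ℝ))) ≤ ((p : ℝ) - 1) * (Z * p) :=
          mul_le_mul_of_nonneg_left h9 (by linarith)
      _ = (((p : ℝ) - 1) * Z) * p := by ring
      _ ≤ ((p : ℝ) ^ n / (p : ℝ) ^ 2) * p := mul_le_mul_of_nonneg_right h8 (by linarith)
      _ = _ := by
        have : (p : ℝ) ≠ 0 := by linarith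
        field_simp
  have h12 : (p : ℝ) ^ n * (((p : ℝ) - 1) * (1 - 1 / (p : ℝ))) ≤ (p : ℝ) ^ n * (1 / (p : ℝ)) := by
    calc _ = ((p : ℝ) - 1) * ((p : ℝ) ^ n * (1 - 1 / (p : ℝ))) := by ring
      _ ≤ _ := h11
      _ = _ := by ring
  have h13 := le_of_mul_le_mul_left h12 hpn
  have h14 : ((p : ℝ) - 1) * (1 - 1 / (p : ℝ)) = ((p : ℝ) - 1) ^ 2 * (1 / (p : ℝ)) := by
    have : (p : ℝ) ≠ 0 := by linarith
    field_simp
  rw [h14] at h13
  have h15 : ((p : ℝ) - 1) ^ 2 ≤ 1 := by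
    have h16 : (0 : ℝ) < 1 / (p : ℝ) := by positivity
    have h17 : ((p : ℝ) - 1) ^ 2 * (1 / (p : ℝ)) ≤ 1 * (1 / (p : ℝ)) := by linarith
    exact le_of_mul_le_mul_right h17 h16
  nlinarith

/-- stable systems have a nonsingular zero -/
theorem nonsing (hr : 1 ≤ finrank (ZMod p) W)
    (hp : 2 * Nat.fib (2 * finrank (ZMod p) W + 3) ≤ p) (b : X →ₗ[ZMod p] X →ₗ[ZMod p] W)
    (hb : ∀ x y, b x y = b y x) (hst : Stb ph 0 b) :
    ∃ x, b x x = 0 ∧ Function.Surjective (b x) := by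
  rcases Nat.lt_or_ge 1 (finrank (ZMod p) W) with h1 | h1
  · exact nonsing_ge_two p h1 hp b hb hst
  · have h2 : finrank (ZMod p) W = 1 := by omega
    refine nonsing_one p ?_ h2 b hb hst
    rintro rfl
    rw [h2] at hp
    have : Nat.fib 5 = 5 := by decide
    simp only [Nat.mul_one, Nat.reduceAdd, this] at hp
    omega

end QSys
end

section

/-!
Theorem B1: the induction step over `ℤ_[p]` (as in `MaxTriple.lean`, with the energy
`n * v(det ψ) - 2 * r * v(det φ)`).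
-/

set_option autoImplicit false

open Module

namespace QSys

/-- from the inequality (star) of a triple of maximal energy to stability -/
theorem stb_of_star (p : ℕ) [Fact p.Prime] (hp : p ≠ 2) (n r : ℕ) (hnr : 4 * r < n)
    (gb : (Fin n → ZMod p) → (Fin r → ZMod p))
    (Bb : (Fin n → ZMod p) →ₗ[ZMod p] (Fin n → ZMod p) →ₗ[ZMod p] (Fin r → ZMod p))
    (hgB : ∀ x, Bb x x = (2 : ZMod p) • gb x)
    (hstar : ∀ (U : Submodule (ZMod p) (Fin n → ZMod p)) (Q : Submodule (ZMod p) (Fin r → ZMod p)),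
      (∀ x ∈ U, gb x ∈ Q) →
      n * r + 2 * r * finrank (ZMod p) U ≤ 2 * r * n + n * finrank (ZMod p) Q) :
    Stb ph 0 Bb := by
  intro U A hA
  set Q : Submodule (ZMod p) (Fin r → ZMod p) := A.dualCoannihilator with hQ
  have h4 : finrank (ZMod p) A + finrank (ZMod p) Q = finrank (ZMod p) (Fin r → ZMod p) :=
    Subspace.finrank_add_finrank_dualCoannihilator_eq A
  have h2 : (2 : ZMod p) ≠ 0 := by
    have h2 : ¬ p ∣ 2 := by
      intro h
      have := (Nat.prime_dvd_prime_iff_eq (Fact.out : p.Prime) Nat.prime_two).1 h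
      exact hp this
    intro h
    exact h2 ((ZMod.natCast_eq_zero_iff 2 p).1 (by exact_mod_cast h))
  have h5 := hstar U Q (by
    intro x hx
    rw [hQ, Submodule.mem_dualCoannihilator]
    intro l hl
    have h6 := hA l hl x hx x hx
    rw [hgB, map_smul, smul_eq_mul, mul_eq_zero] at h6
    exact h6.resolve_left h2)
  have hfr : finrank (ZMod p) (Fin r → ZMod p) = r := by simp
  have hfn : finrank (ZMod p) (Fin n → ZMod p) = n := by simp
  rw [hfr] at h4
  have hU : finrank (ZMod p) U ≤ n := by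
    have := Submodule.finrank_le U
    rwa [hfn] at this
  rw [hfn, Nat.zero_add]
  set a := finrank (ZMod p) A with ha
  set u := finrank (ZMod p) U with hu
  set t := finrank (ZMod p) Q with ht
  -- `n * a ≤ 2 * r * (n - u)`
  obtain ⟨d, hd⟩ := Nat.exists_eq_add_of_le hU
  have h7 : n * a ≤ 2 * r * d := by
    have e1 : n * r = n * a + n * t := by rw [← Nat.mul_add, h4]
    have e2 : 2 * r * n = 2 * r * u + 2 * r * d := by rw [← Nat.mul_add, ← hd]
    omega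
  have h8 : n - u = d := by omega
  rw [h8]
  unfold ph
  rcases Nat.eq_zero_or_pos a with h0 | h0
  · omega
  · have h9 : 2 * a < d := by
      by_contra hlt
      push Not at hlt
      have h10 : 2 * r * d ≤ 2 * r * (2 * a) := Nat.mul_le_mul_left _ hlt
      have h11 : 4 * r * a < n * a := Nat.mul_lt_mul_of_pos_right hnr h0
      nlinarith
    omega

theorem induction_step2 (p : ℕ) [Fact p.Prime] (r n : ℕ) (hr : 1 ≤ r) (hn : 4 * r < n)
    (hp : 2 * Nat.fib (2 * r + 3) ≤ p)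
    (hP : ∀ j < r, ∀ h : QuadraticMap ℤ_[p] (Fin (n * j / r + 1) → ℤ_[p]) (Fin j → ℤ_[p]),
      ∃ x, x ≠ 0 ∧ h x = 0)
    (f : QuadraticMap ℤ_[p] (Fin n → ℤ_[p]) (Fin r → ℤ_[p])) :
    ∃ x, x ≠ 0 ∧ f x = 0 := by
  by_contra hcon
  push Not at hcon
  have hf0 : ∀ x, f x = 0 → x = 0 := by
    intro x hx
    by_contra hx0
    exact hcon x hx0 hx
  have hp2 : p ≠ 2 := by
    have : Nat.fib 5 ≤ Nat.fib (2 * r + 3) := Nat.fib_mono (by omega)
    have h5 : Nat.fib 5 = 5 := by decide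
    omega
  obtain ⟨m, hm⟩ := exists_level p f hf0
  have hbdd : ∃ b : ℤ, ∀ z : ℤ, (∃ (φ : (Fin n → ℤ_[p]) →ₗ[ℤ_[p]] (Fin n → ℤ_[p]))
      (ψ : (Fin r → ℤ_[p]) →ₗ[ℤ_[p]] (Fin r → ℤ_[p]))
      (g : QuadraticMap ℤ_[p] (Fin n → ℤ_[p]) (Fin r → ℤ_[p])),
      LinearMap.det φ ≠ 0 ∧ LinearMap.det ψ ≠ 0 ∧ (∀ x, ψ (g x) = f (φ x)) ∧
      z = ((n * (LinearMap.det ψ).valuation : ℕ) : ℤ) - ((2 * r * (LinearMap.det φ).valuation : ℕ) : ℤ)) →
      z ≤ b := by
    refine ⟨((n * r * m : ℕ) : ℤ), ?_⟩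
    rintro z ⟨φ, ψ, g, hφ, hψ, h, rfl⟩
    have h1 := bound_energy2 p n r m (by omega) f hm hP φ ψ g hφ hψ h
    have h2 : ((n * (LinearMap.det ψ).valuation : ℕ) : ℤ) ≤
        ((2 * r * (LinearMap.det φ).valuation + n * r * m : ℕ) : ℤ) := by exact_mod_cast h1
    rw [Nat.cast_add] at h2
    linarith
  have hinh : ∃ z : ℤ, (∃ (φ : (Fin n → ℤ_[p]) →ₗ[ℤ_[p]] (Fin n → ℤ_[p]))
      (ψ : (Fin r → ℤ_[p]) →ₗ[ℤ_[p]] (Fin r → ℤ_[p]))
      (g : QuadraticMap ℤ_[p] (Fin n → ℤ_[p]) (Fin r → ℤ_[p])),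
      LinearMap.det φ ≠ 0 ∧ LinearMap.det ψ ≠ 0 ∧ (∀ x, ψ (g x) = f (φ x)) ∧
      z = ((n * (LinearMap.det ψ).valuation : ℕ) : ℤ) - ((2 * r * (LinearMap.det φ).valuation : ℕ) : ℤ)) := by
    refine ⟨_, LinearMap.id, LinearMap.id, f, ?_, ?_, fun x => rfl, rfl⟩
    · rw [LinearMap.det_id]; exact one_ne_zero
    · rw [LinearMap.det_id]; exact one_ne_zero
  obtain ⟨z, ⟨φ, ψ, g, hφ, hψ, h, rfl⟩, hmaxz⟩ := Int.exists_greatest_of_bdd hbdd hinh
  have hmax : ∀ (φ' : (Fin n → ℤ_[p]) →ₗ[ℤ_[p]] (Fin n → ℤ_[p]))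
      (ψ' : (Fin r → ℤ_[p]) →ₗ[ℤ_[p]] (Fin r → ℤ_[p]))
      (g' : QuadraticMap ℤ_[p] (Fin n → ℤ_[p]) (Fin r → ℤ_[p])),
      LinearMap.det φ' ≠ 0 → LinearMap.det ψ' ≠ 0 → (∀ x, ψ' (g' x) = f (φ' x)) →
      n * (LinearMap.det ψ').valuation + 2 * r * (LinearMap.det φ).valuation ≤
        n * (LinearMap.det ψ).valuation + 2 * r * (LinearMap.det φ').valuation := by
    intro φ' ψ' g' hφ' hψ' h'
    have h1 := hmaxz _ ⟨φ', ψ', g', hφ', hψ', h', rfl⟩
    have h2 : ((n * (LinearMap.det ψ').valuation : ℕ) : ℤ) + ((2 * r * (LinearMap.det φ).valuation : ℕ) : ℤ) ≤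
        ((n * (LinearMap.det ψ).valuation : ℕ) : ℤ) + ((2 * r * (LinearMap.det φ').valuation : ℕ) : ℤ) := by
      linarith
    exact_mod_cast h2
  obtain ⟨gb, Bb, hgbadd, hgb, hBb⟩ := exists_red p g
  have hfr : finrank (ZMod p) (Fin r → ZMod p) = r := by simp
  have hfn : finrank (ZMod p) (Fin n → ZMod p) = n := by simp
  have hgB : ∀ x, Bb x x = (2 : ZMod p) • gb x := by
    intro xb
    obtain ⟨x, rfl⟩ := redv_surj p xb
    rw [hBb, hgb, QuadraticMap.polar_self, two_smul, two_smul, redv_add]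
  have hsym : ∀ x y, Bb x y = Bb y x := by
    intro xb yb
    obtain ⟨x, rfl⟩ := redv_surj p xb
    obtain ⟨y, rfl⟩ := redv_surj p yb
    rw [hBb, hBb, QuadraticMap.polar_comm]
  have hstar : ∀ (U : Submodule (ZMod p) (Fin n → ZMod p)) (Q : Submodule (ZMod p) (Fin r → ZMod p)),
      (∀ x ∈ U, gb x ∈ Q) →
      n * r + 2 * r * finrank (ZMod p) U ≤ 2 * r * n + n * finrank (ZMod p) Q := by
    intro U Q hUQ
    exact star_of_max2 p n (2 * r) n r f φ ψ g hφ hψ h hmax gb hgb U Q hUQ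
  have hst := stb_of_star p hp2 n r hn gb Bb hgB hstar
  obtain ⟨xb, hxb0, hxbs⟩ := nonsing p (W := Fin r → ZMod p) (by rw [hfr]; exact hr)
    (by rw [hfr]; exact hp) Bb hsym hst
  obtain ⟨x0, rfl⟩ := redv_surj p xb
  have h2 : (2 : ZMod p) ≠ 0 := by
    have h2 : ¬ p ∣ 2 := by
      intro h
      have := (Nat.prime_dvd_prime_iff_eq (Fact.out : p.Prime) Nat.prime_two).1 h
      exact hp2 this
    intro h
    exact h2 ((ZMod.natCast_eq_zero_iff 2 p).1 (by exact_mod_cast h))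
  have hgb0 : gb (redv p x0) = 0 := by
    rw [hgB] at hxb0
    exact (smul_eq_zero.1 hxb0).resolve_left h2
  have hz : redv p (0 : Fin r → ℤ_[p]) = 0 := by
    funext i; simp [redv]
  have hzn : redv p (0 : Fin n → ℤ_[p]) = 0 := by
    funext i; simp [redv]
  have hg0 : ∀ i, (p : ℤ_[p]) ∣ g x0 i := by
    have h1 : redv p (g x0) = redv p 0 := by rw [← hgb, hgb0, hz]
    rw [redv_eq_iff] at h1
    intro i
    simpa using h1 i
  have hs : ∀ w : Fin r → ℤ_[p], ∃ y : Fin n → ℤ_[p],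
      ∀ i, (p : ℤ_[p]) ∣ QuadraticMap.polar g x0 y i - w i := by
    intro w
    obtain ⟨yb, hyb⟩ := hxbs (redv p w)
    obtain ⟨y, rfl⟩ := redv_surj p yb
    refine ⟨y, ?_⟩
    rw [hBb, redv_eq_iff] at hyb
    exact hyb
  obtain ⟨x, hx1, hx2⟩ := hensel p g x0 hg0 hs
  have hx0 : x ≠ 0 := by
    rintro rfl
    have h1 : redv p (0 : Fin n → ℤ_[p]) = redv p x0 := (redv_eq_iff p _ _).2 hx1
    rw [hzn] at h1
    rw [← h1, map_zero] at hxbs
    obtain ⟨y, hy⟩ := hxbs (fun _ => 1)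
    have h2 := congrFun hy ⟨0, hr⟩
    simp at h2
  have hφx : φ x ≠ 0 := by
    intro h1
    exact hx0 (inj_of_det p φ hφ (by rw [h1, map_zero]))
  exact hcon (φ x) hφx (by rw [← h, hx2, map_zero])

end QSys
end

section

/-!
Theorem B1: `n > 4 r` and `p ≥ 2 fib (2 r + 3)`.
-/

set_option autoImplicit false

namespace QSys

/-- a zero in the first `m` variables is a zero -/
theorem zero_of_le (p : ℕ) [Fact p.Prime] (r m n : ℕ) (hmn : m ≤ n)
    (h : ∀ f : QuadraticMap ℤ_[p] (Fin m → ℤ_[p]) (Fin r → ℤ_[p]), ∃ x, x ≠ 0 ∧ f x = 0)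
    (f : QuadraticMap ℤ_[p] (Fin n → ℤ_[p]) (Fin r → ℤ_[p])) : ∃ x, x ≠ 0 ∧ f x = 0 := by
  let E : (Fin m → ℤ_[p]) →ₗ[ℤ_[p]] (Fin n → ℤ_[p]) :=
    { toFun := fun x i => if h : (i : ℕ) < m then x ⟨i, h⟩ else 0
      map_add' := by
        intro x y
        funext i
        by_cases h : (i : ℕ) < m
        · simp [h]
        · simp [h]
      map_smul' := by
        intro a x
        funext i
        by_cases h : (i : ℕ) < m
        · simp [h]
        · simp [h] }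
  obtain ⟨x, hx, hx0⟩ := h (f.comp E)
  refine ⟨E x, ?_, hx0⟩
  intro h
  apply hx
  funext i
  have hi := congrFun h ⟨i, lt_of_lt_of_le i.2 hmn⟩
  have hE : E x ⟨i, lt_of_lt_of_le i.2 hmn⟩ = x i := by
    show (if h : (i : ℕ) < m then x ⟨i, h⟩ else 0) = x i
    rw [dif_pos i.2]
  rw [hE] at hi
  exact hi

theorem main_int2 (p : ℕ) [Fact p.Prime] : ∀ (r n : ℕ), 4 * r < n → 2 * Nat.fib (2 * r + 3) ≤ p →
    ∀ f : QuadraticMap ℤ_[p] (Fin n → ℤ_[p]) (Fin r → ℤ_[p]), ∃ x, x ≠ 0 ∧ f x = 0 := by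
  intro r
  induction r using Nat.strong_induction_on with
  | _ r ih =>
    intro n hn hp f
    rcases Nat.eq_zero_or_pos r with h0 | hr
    · subst h0
      refine ⟨fun _ => 1, ?_, ?_⟩
      · intro h
        have := congrFun h ⟨0, by omega⟩
        simp at this
      · funext i
        exact i.elim0
    · refine induction_step2 p r n hr hn hp ?_ f
      intro j hj h
      refine ih j hj _ ?_ ?_ h
      · have h1 : 4 * j ≤ n * j / r := by
          rw [Nat.le_div_iff_mul_le hr]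
          calc 4 * j * r = (4 * r) * j := by ring
            _ ≤ n * j := Nat.mul_le_mul_right _ hn.le
        omega
      · have := Nat.fib_mono (show 2 * j + 3 ≤ 2 * r + 3 by omega)
        omega

theorem main_padic2 (p : ℕ) [Fact p.Prime] (r n : ℕ) (hn : 4 * r < n)
    (hp : 2 * Nat.fib (2 * r + 3) ≤ p) (f : Fin r → QuadraticForm ℚ_[p] (Fin n → ℚ_[p])) :
    ∃ x, x ≠ 0 ∧ ∀ i, f i x = 0 := by
  obtain ⟨N, F, hF⟩ := exists_integral p r n f
  obtain ⟨x, hx, hx0⟩ := main_int2 p r n hn hp F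
  refine ⟨fun j => ((x j : ℤ_[p]) : ℚ_[p]), ?_, ?_⟩
  · intro h0
    apply hx
    funext j
    have := congrFun h0 j
    simpa using this
  · intro i
    have h1 := hF x i
    rw [hx0] at h1
    have h2 : (p : ℚ_[p]) ^ N ≠ 0 := pow_ne_zero _ (by exact_mod_cast (Fact.out : p.Prime).ne_zero)
    have h3 : (p : ℚ_[p]) ^ N * f i (fun j => ((x j : ℤ_[p]) : ℚ_[p])) = 0 := by
      rw [← h1]; simp
    exact (mul_eq_zero.mp h3).resolve_left h2

end QSys
end
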