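import Pool.Agent.Lib.MP_c77682_nt.B.NumFib

section

/-!
Theorem B1, numerical lemmas with Fibonacci numbers, second part.
-/

set_option autoImplicit false

namespace QSys

theorem NumFib2_even (N M : ℕ) :
    ∑ m ∈ Finset.Icc 1 M, ((N + m).choose (2 * m) : ℝ) ≤ (Nat.fib (2 * N + 1) : ℝ) - 1 := by
  have h1 : 1 + ∑ m ∈ Finset.Icc 1 M, (N + m).choose (2 * m) ≤ Nat.fib (2 * N + 1) := by
    refine le_trans ?_ (sum_choose_even N)
    have h2 : ∑ m ∈ insert 0 (Finset.Icc 1 M), (N + m).choose (2 * m) =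
        1 + ∑ m ∈ Finset.Icc 1 M, (N + m).choose (2 * m) := by
      rw [Finset.sum_insert (by simp)]
      simp
    rw [← h2]
    refine Finset.sum_le_sum_of_ne_zero fun m _ hne => ?_
    rw [Finset.mem_range]
    by_contra hlt
    exact hne (Nat.choose_eq_zero_of_lt (by omega))
  have h3 : ((1 + ∑ m ∈ Finset.Icc 1 M, (N + m).choose (2 * m) : ℕ) : ℝ) ≤ (Nat.fib (2 * N + 1) : ℝ) := by
    exact_mod_cast h1
  push_cast at h3
  linarith

theorem NumFib2_odd (N M : ℕ) :
    ∑ m ∈ Finset.range (M + 1), ((N + m + 1).choose (2 * m + 1) : ℝ) ≤ (Nat.fib (2 * N + 2) : ℝ) := by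
  have h1 : ∑ m ∈ Finset.range (M + 1), (N + m + 1).choose (2 * m + 1) ≤ Nat.fib (2 * N + 2) := by
    refine le_trans ?_ (sum_choose_odd N)
    refine Finset.sum_le_sum_of_ne_zero fun m _ hne => ?_
    rw [Finset.mem_range]
    by_contra hlt
    exact hne (Nat.choose_eq_zero_of_lt (by omega))
  exact_mod_cast h1

theorem NumFib2_pow {q : ℝ} (hq : 3 < q) {r s m : ℕ} (hs : s ≤ r) :
    q ^ (r - s) / q ^ m = q ^ r / q ^ (m + s) := by
  have hq0 : q ≠ 0 := by linarith
  have h1 : q ^ r = q ^ (r - s) * q ^ s := by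
    rw [← pow_add, Nat.sub_add_cancel hs]
  rw [h1, pow_add]
  field_simp

theorem NumFib2_row {q : ℝ} (hq : 3 < q) {r N0 K m : ℕ} (S : Finset ℕ)
    (hS : ∀ s ∈ S, s ≤ r ∧ N0 ≤ m + s) (hm : m + r ≤ K) (G : ℕ → ℝ) (hG : ∀ N, 0 ≤ G N) :
    ∑ s ∈ S, G (m + s) * (q ^ (r - s) / q ^ m) ≤
      ∑ N ∈ Finset.Icc N0 K, G N * (q ^ r / q ^ N) := by
  have h1 : ∑ s ∈ S, G (m + s) * (q ^ (r - s) / q ^ m) =
      ∑ N ∈ S.image (fun s => m + s), G N * (q ^ r / q ^ N) := by
    rw [Finset.sum_image (fun a _ b _ hab => Nat.add_left_cancel hab)]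
    refine Finset.sum_congr rfl fun s hs => ?_
    rw [NumFib2_pow hq (hS s hs).1]
  rw [h1]
  refine Finset.sum_le_sum_of_subset_of_nonneg ?_ fun N _ _ => ?_
  · intro N hN
    obtain ⟨s, hs, rfl⟩ := Finset.mem_image.mp hN
    obtain ⟨h2, h3⟩ := hS s hs
    exact Finset.mem_Icc.mpr ⟨h3, by omega⟩
  · have hq0 : 0 < q := by linarith
    exact mul_nonneg (hG N) (by positivity)

theorem sum_even2 (q : ℝ) (hq : 3 < q) (r N0 M : ℕ) (S : ℕ → Finset ℕ)
    (hS : ∀ m ∈ Finset.Icc 1 M, ∀ s ∈ S m, s ≤ r ∧ N0 ≤ m + s) :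
    ∑ m ∈ Finset.Icc 1 M, ∑ s ∈ S m, ((2 * m + s).choose (2 * m) : ℝ) * (q ^ (r - s) / q ^ m) ≤
      ∑ N ∈ Finset.Icc N0 (M + r), q ^ r / q ^ N * ((Nat.fib (2 * N + 1) : ℝ) - 1) := by
  have hq0 : 0 < q := by linarith
  have h1 : ∑ m ∈ Finset.Icc 1 M, ∑ s ∈ S m, ((2 * m + s).choose (2 * m) : ℝ) * (q ^ (r - s) / q ^ m) ≤
      ∑ m ∈ Finset.Icc 1 M, ∑ N ∈ Finset.Icc N0 (M + r), ((N + m).choose (2 * m) : ℝ) * (q ^ r / q ^ N) := by
    refine Finset.sum_le_sum fun m hm => ?_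
    have hm2 := (Finset.mem_Icc.mp hm).2
    have h2 := NumFib2_row hq (K := M + r) (S m) (hS m hm) (by omega)
      (fun N => ((N + m).choose (2 * m) : ℝ)) (fun N => Nat.cast_nonneg _)
    refine le_trans (le_of_eq ?_) h2
    refine Finset.sum_congr rfl fun s _ => ?_
    have e : 2 * m + s = m + s + m := by ring
    simp only [e]
  refine h1.trans ?_
  rw [Finset.sum_comm]
  refine Finset.sum_le_sum fun N _ => ?_
  rw [← Finset.sum_mul, mul_comm]
  exact mul_le_mul_of_nonneg_left (NumFib2_even N M) (by positivity)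

theorem sum_odd2 (q : ℝ) (hq : 3 < q) (r N0 M : ℕ) (S : ℕ → Finset ℕ)
    (hS : ∀ m ∈ Finset.range (M + 1), ∀ s ∈ S m, s ≤ r ∧ N0 ≤ m + s) :
    ∑ m ∈ Finset.range (M + 1), ∑ s ∈ S m,
      ((2 * m + 1 + s).choose (2 * m + 1) : ℝ) * (q ^ (r - s) / q ^ m) ≤
      ∑ N ∈ Finset.Icc N0 (M + r), q ^ r / q ^ N * (Nat.fib (2 * N + 2) : ℝ) := by
  have hq0 : 0 < q := by linarith
  have h1 : ∑ m ∈ Finset.range (M + 1), ∑ s ∈ S m,
      ((2 * m + 1 + s).choose (2 * m + 1) : ℝ) * (q ^ (r - s) / q ^ m) ≤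
      ∑ m ∈ Finset.range (M + 1), ∑ N ∈ Finset.Icc N0 (M + r),
        ((N + m + 1).choose (2 * m + 1) : ℝ) * (q ^ r / q ^ N) := by
    refine Finset.sum_le_sum fun m hm => ?_
    have hm2 := Finset.mem_range.mp hm
    have h2 := NumFib2_row hq (K := M + r) (S m) (hS m hm) (by omega)
      (fun N => ((N + m + 1).choose (2 * m + 1) : ℝ)) (fun N => Nat.cast_nonneg _)
    refine le_trans (le_of_eq ?_) h2
    refine Finset.sum_congr rfl fun s _ => ?_
    have e : 2 * m + 1 + s = m + s + m + 1 := by ring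
    simp only [e]
  refine h1.trans ?_
  rw [Finset.sum_comm]
  refine Finset.sum_le_sum fun N _ => ?_
  rw [← Finset.sum_mul, mul_comm]
  exact mul_le_mul_of_nonneg_left (NumFib2_odd N M) (by positivity)

end QSys
end

section

/-!
Theorem B1, Lemma 8: number of zeros of a system of quadratic forms over `F_p`, `p` odd; only forms of even rank
contribute.
-/

set_option autoImplicit false

open Module

namespace QSys

variable (p : ℕ) [Fact p.Prime] {X W : Type} [AddCommGroup X] [Module (ZMod p) X]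
  [FiniteDimensional (ZMod p) X] [AddCommGroup W] [Module (ZMod p) W] [FiniteDimensional (ZMod p) W]

/-- the sum over the forms of even rank `2 m` of `p^(-m)` -/
noncomputable def EE (b : X →ₗ[ZMod p] X →ₗ[ZMod p] W) : ℝ :=
  ∑ m ∈ Finset.range (finrank (ZMod p) X + 1),
    (Nat.card {l : Dual (ZMod p) W // rk (TT b) l = 2 * m} : ℝ) / (p : ℝ) ^ m

private theorem b_card_dual [Fintype (Dual (ZMod p) W)] :
    Fintype.card (Dual (ZMod p) W) = p ^ finrank (ZMod p) W := by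
  rw [Module.card_eq_pow_finrank (K := ZMod p), ZMod.card, Subspace.dual_finrank_eq]

private theorem b_orth [Fintype (Dual (ZMod p) W)] [DecidableEq W] (w : W) :
    ∑ l : Dual (ZMod p) W, (ZMod.stdAddChar (l w) : ℂ) =
      if w = 0 then (p : ℂ) ^ finrank (ZMod p) W else 0 := by
  split_ifs with h
  · subst h
    simp only [map_zero, AddChar.map_zero_eq_one, Finset.sum_const, Finset.card_univ,
      b_card_dual p, nsmul_eq_mul, mul_one]
    push_cast
    rfl
  · let ev : Dual (ZMod p) W →+ ZMod p := (Dual.eval (ZMod p) W w).toAddMonoidHom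
    let ψ : AddChar (Dual (ZMod p) W) ℂ := (ZMod.stdAddChar (N := p)).compAddMonoidHom ev
    have hψ : ψ ≠ 1 := by
      intro h1
      obtain ⟨l, hl⟩ : ∃ l : Dual (ZMod p) W, l w ≠ 0 := by
        by_contra hc
        push Not at hc
        exact h ((Module.forall_dual_apply_eq_zero_iff (ZMod p) w).1 hc)
      have h2 : ψ l = 1 := by rw [h1]; rfl
      have h3 : (ZMod.stdAddChar (l w) : ℂ) = ZMod.stdAddChar (0 : ZMod p) := by
        rw [AddChar.map_zero_eq_one]
        exact h2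
      exact hl (ZMod.injective_stdAddChar h3)
    have := AddChar.sum_eq_zero_of_ne_one hψ
    exact this

private theorem b_main [Fintype X] [Fintype (Dual (ZMod p) W)] (g : X → W) :
    (p : ℂ) ^ finrank (ZMod p) W * (Nat.card {x : X // g x = 0} : ℂ) =
      ∑ l : Dual (ZMod p) W, ∑ x : X, (ZMod.stdAddChar (l (g x)) : ℂ) := by
  classical
  rw [Finset.sum_comm]
  simp only [b_orth p]
  rw [← Finset.sum_filter, Finset.sum_const, nsmul_eq_mul, mul_comm, Nat.card_eq_fintype_card,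
    Fintype.card_subtype]

private theorem b_two (hp : p ≠ 2) : (2 : ZMod p) ≠ 0 := by
  have := (ZMod.natCast_eq_zero_iff 2 p).not
  have h2 : ¬ p ∣ 2 := by
    intro h
    have := (Nat.prime_dvd_prime_iff_eq (Fact.out : p.Prime) Nat.prime_two).1 h
    exact hp this
  intro h
  exact h2 ((ZMod.natCast_eq_zero_iff 2 p).1 (by exact_mod_cast h))

theorem range_smul_eq {Y : Type} [AddCommGroup Y] [Module (ZMod p) Y] (β : X →ₗ[ZMod p] Y)
    (c : ZMod p) (hc : c ≠ 0) : LinearMap.range (c • β) = LinearMap.range β := by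
  apply le_antisymm
  · rintro _ ⟨x, rfl⟩
    exact Submodule.smul_mem _ c ⟨x, rfl⟩
  · rintro _ ⟨x, rfl⟩
    refine ⟨c⁻¹ • x, ?_⟩
    rw [LinearMap.smul_apply, map_smul, smul_smul, mul_inv_cancel₀ hc, one_smul]

theorem rk_smul (b : X →ₗ[ZMod p] X →ₗ[ZMod p] W) (c : ZMod p) (hc : c ≠ 0)
    (l : Dual (ZMod p) W) : rk (TT b) (c • l) = rk (TT b) l := by
  rw [rk, rk, map_smul, range_smul_eq p (TT b l) c hc]

private theorem b_S_bound [Fintype X] (hp : p ≠ 2) (b : X →ₗ[ZMod p] X →ₗ[ZMod p] W)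
    (hb : ∀ x y, b x y = b y x) (l : Dual (ZMod p) W) (m : ℕ) (hm : rk (TT b) l = 2 * m) :
    ‖∑ x : X, (ZMod.stdAddChar (l (b x x)) : ℂ)‖ ≤ (p : ℝ) ^ finrank (ZMod p) X / (p : ℝ) ^ m := by
  have hp0 : (0 : ℝ) < p := by exact_mod_cast (Fact.out : p.Prime).pos
  have h1 := gauss_bound p (R := X) (fun x => l (b x x)) ((2 : ZMod p) • TT b l) (by
    intro x y
    simp only [map_add, LinearMap.add_apply, LinearMap.smul_apply, TT_apply, smul_eq_mul]
    rw [hb y x]
    ring)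
  have h2 : finrank (ZMod p) (LinearMap.range ((2 : ZMod p) • TT b l)) = 2 * m := by
    rw [range_smul_eq p _ _ (b_two p hp), ← hm, rk]
  rw [h2] at h1
  refine h1.trans (le_of_eq ?_)
  push_cast
  rw [show ((finrank (ZMod p) X : ℝ) - 2 * (m : ℝ) / 2) = (finrank (ZMod p) X : ℝ) - (m : ℝ) by ring,
    Real.rpow_sub hp0, Real.rpow_natCast, Real.rpow_natCast]

/-- the forms of odd rank do not contribute -/
private theorem b_odd [Fintype X] [Fintype (Dual (ZMod p) W)] (hp : p ≠ 2)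
    (b : X →ₗ[ZMod p] X →ₗ[ZMod p] W) (hb : ∀ x y, b x y = b y x) :
    ∑ l ∈ Finset.univ.filter (fun l : Dual (ZMod p) W => ¬ Even (rk (TT b) l)),
      ∑ x : X, (ZMod.stdAddChar (l (b x x)) : ℂ) = 0 := by
  classical
  obtain ⟨c, hc⟩ : ∃ c : ZMod p, ¬ IsSquare c := by
    have hF : ringChar (ZMod p) ≠ 2 := by rw [ZMod.ringChar_zmod_n]; exact hp
    exact FiniteField.exists_nonsquare hF
  have hc0 : c ≠ 0 := by
    rintro rfl
    exact hc (IsSquare.zero)
  set T := ∑ l ∈ Finset.univ.filter (fun l : Dual (ZMod p) W => ¬ Even (rk (TT b) l)),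
      ∑ x : X, (ZMod.stdAddChar (l (b x x)) : ℂ) with hT
  have h1 : T = ∑ l ∈ Finset.univ.filter (fun l : Dual (ZMod p) W => ¬ Even (rk (TT b) l)),
      ∑ x : X, (ZMod.stdAddChar ((c • l) (b x x)) : ℂ) := by
    rw [hT]
    symm
    refine Finset.sum_bij (fun l _ => c • l) ?_ ?_ ?_ ?_
    · intro l hl
      rw [Finset.mem_filter] at hl ⊢
      rw [rk_smul p b c hc0]
      exact ⟨Finset.mem_univ _, hl.2⟩
    · intro l _ l' _ h
      exact (smul_right_injective _ hc0) h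
    · intro l hl
      rw [Finset.mem_filter] at hl
      refine ⟨c⁻¹ • l, ?_, ?_⟩
      · rw [Finset.mem_filter, rk_smul p b _ (inv_ne_zero hc0)]
        exact ⟨Finset.mem_univ _, hl.2⟩
      · rw [smul_smul, mul_inv_cancel₀ hc0, one_smul]
    · intro l _
      rfl
  have h2 : T = -T := by
    conv_lhs => rw [h1]
    rw [hT, ← Finset.sum_neg_distrib]
    refine Finset.sum_congr rfl fun l hl => ?_
    rw [Finset.mem_filter, Nat.not_even_iff_odd] at hl
    have h3 := gauss_odd p hp (TT b l) (fun x y => by rw [TT_apply, TT_apply, hb]) hl.2 c hc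
    simpa only [TT_apply, LinearMap.smul_apply, smul_eq_mul] using h3
  have h3 : (2 : ℂ) * T = 0 := by
    linear_combination h2
  exact (mul_eq_zero.1 h3).resolve_left two_ne_zero

private theorem b_even [Fintype X] [Fintype (Dual (ZMod p) W)] (hp : p ≠ 2)
    (b : X →ₗ[ZMod p] X →ₗ[ZMod p] W) (hb : ∀ x y, b x y = b y x) :
    (p : ℂ) ^ finrank (ZMod p) W * (Nat.card {x : X // b x x = 0} : ℂ) =
      ∑ l ∈ Finset.univ.filter (fun l : Dual (ZMod p) W => Even (rk (TT b) l)),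
        ∑ x : X, (ZMod.stdAddChar (l (b x x)) : ℂ) := by
  classical
  rw [b_main p (fun x => b x x), ← Finset.sum_filter_add_sum_filter_not Finset.univ
    (fun l : Dual (ZMod p) W => Even (rk (TT b) l)), b_odd p hp b hb, add_zero]

/-- grouping by the rank -/
private theorem b_group [Fintype (Dual (ZMod p) W)] (b : X →ₗ[ZMod p] X →ₗ[ZMod p] W)
    (f : ℕ → ℝ) :
    ∑ l ∈ Finset.univ.filter (fun l : Dual (ZMod p) W => Even (rk (TT b) l)),
      f (rk (TT b) l / 2) = ∑ m ∈ Finset.range (finrank (ZMod p) X + 1),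
      (Nat.card {l : Dual (ZMod p) W // rk (TT b) l = 2 * m} : ℝ) * f m := by
  classical
  rw [← Finset.sum_fiberwise_of_maps_to
    (s := Finset.univ.filter (fun l : Dual (ZMod p) W => Even (rk (TT b) l)))
    (t := Finset.range (finrank (ZMod p) X + 1)) (g := fun l => rk (TT b) l / 2)
    (fun l _ => by
      rw [Finset.mem_range]
      have := rk_le_dim b l
      omega)]
  refine Finset.sum_congr rfl fun m _ => ?_
  rw [Finset.sum_congr rfl (g := fun _ => f m)
    (fun l hl => by rw [(Finset.mem_filter.1 hl).2]), Finset.sum_const, nsmul_eq_mul,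
    Nat.card_eq_fintype_card, Fintype.card_subtype]
  congr 3
  ext l
  simp only [Finset.mem_filter, Finset.mem_univ, true_and]
  constructor
  · rintro ⟨h1, h2⟩
    obtain ⟨k, hk⟩ := h1
    omega
  · intro h
    exact ⟨⟨m, by omega⟩, by omega⟩

theorem count_up (hp : p ≠ 2) (b : X →ₗ[ZMod p] X →ₗ[ZMod p] W) (hb : ∀ x y, b x y = b y x) :
    (Nat.card {x : X // b x x = 0} : ℝ) * (p : ℝ) ^ finrank (ZMod p) W ≤
      (p : ℝ) ^ finrank (ZMod p) X * EE p b := by
  classical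
  have hfX : Finite X := Module.finite_of_finite (ZMod p)
  have hfL : Finite (Dual (ZMod p) W) := Module.finite_of_finite (ZMod p)
  let _ := Fintype.ofFinite X
  let _ := Fintype.ofFinite (Dual (ZMod p) W)
  have h1 : (Nat.card {x : X // b x x = 0} : ℝ) * (p : ℝ) ^ finrank (ZMod p) W =
      ‖∑ l ∈ Finset.univ.filter (fun l : Dual (ZMod p) W => Even (rk (TT b) l)),
        ∑ x : X, (ZMod.stdAddChar (l (b x x)) : ℂ)‖ := by
    rw [← b_even p hp b hb, norm_mul, norm_pow, Complex.norm_natCast, Complex.norm_natCast, mul_comm]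
  rw [h1]
  calc ‖∑ l ∈ Finset.univ.filter (fun l : Dual (ZMod p) W => Even (rk (TT b) l)),
        ∑ x : X, (ZMod.stdAddChar (l (b x x)) : ℂ)‖ ≤
      ∑ l ∈ Finset.univ.filter (fun l : Dual (ZMod p) W => Even (rk (TT b) l)),
        (p : ℝ) ^ finrank (ZMod p) X / (p : ℝ) ^ (rk (TT b) l / 2) := by
        refine (norm_sum_le _ _).trans (Finset.sum_le_sum fun l hl => ?_)
        have h2 := (Finset.mem_filter.1 hl).2
        exact b_S_bound p hp b hb l _ (Nat.two_mul_div_two_of_even h2).symm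
    _ = ∑ m ∈ Finset.range (finrank (ZMod p) X + 1),
      (Nat.card {l : Dual (ZMod p) W // rk (TT b) l = 2 * m} : ℝ) *
        ((p : ℝ) ^ finrank (ZMod p) X / (p : ℝ) ^ m) :=
        b_group p b (fun m => (p : ℝ) ^ finrank (ZMod p) X / (p : ℝ) ^ m)
    _ = _ := by
        rw [EE, Finset.mul_sum]
        refine Finset.sum_congr rfl fun m _ => ?_
        ring

theorem count_low (hp : p ≠ 2) (b : X →ₗ[ZMod p] X →ₗ[ZMod p] W) (hb : ∀ x y, b x y = b y x) :
    (p : ℝ) ^ finrank (ZMod p) X * (2 - EE p b) ≤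
    (Nat.card {x : X // b x x = 0} : ℝ) * (p : ℝ) ^ finrank (ZMod p) W := by
  classical
  have hfX : Finite X := Module.finite_of_finite (ZMod p)
  have hfL : Finite (Dual (ZMod p) W) := Module.finite_of_finite (ZMod p)
  let _ := Fintype.ofFinite X
  let _ := Fintype.ofFinite (Dual (ZMod p) W)
  have hp0 : (0 : ℝ) < p := by exact_mod_cast (Fact.out : p.Prime).pos
  have h1 : (Nat.card {x : X // b x x = 0} : ℝ) * (p : ℝ) ^ finrank (ZMod p) W =
      ‖∑ l ∈ Finset.univ.filter (fun l : Dual (ZMod p) W => Even (rk (TT b) l)),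
        ∑ x : X, (ZMod.stdAddChar (l (b x x)) : ℂ)‖ := by
    rw [← b_even p hp b hb, norm_mul, norm_pow, Complex.norm_natCast, Complex.norm_natCast, mul_comm]
  have hrk0 : rk (TT b) (0 : Dual (ZMod p) W) = 0 := by
    rw [rk, map_zero, LinearMap.range_zero, finrank_bot]
  have hmem : (0 : Dual (ZMod p) W) ∈
      Finset.univ.filter (fun l : Dual (ZMod p) W => Even (rk (TT b) l)) := by
    rw [Finset.mem_filter, hrk0]
    exact ⟨Finset.mem_univ _, ⟨0, rfl⟩⟩
  have hS0 : ∑ x : X, (ZMod.stdAddChar ((0 : Dual (ZMod p) W) (b x x)) : ℂ) =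
      (((p : ℝ) ^ finrank (ZMod p) X : ℝ) : ℂ) := by
    simp only [LinearMap.zero_apply, AddChar.map_zero_eq_one, Finset.sum_const, Finset.card_univ,
      nsmul_eq_mul, mul_one]
    rw [Module.card_eq_pow_finrank (K := ZMod p) (V := X), ZMod.card]
    push_cast
    rfl
  have h2 : ‖∑ l ∈ (Finset.univ.filter (fun l : Dual (ZMod p) W => Even (rk (TT b) l))).erase 0,
        ∑ x : X, (ZMod.stdAddChar (l (b x x)) : ℂ)‖ ≤
      (p : ℝ) ^ finrank (ZMod p) X * (EE p b - 1) := by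
    have h3 : ∑ l ∈ (Finset.univ.filter (fun l : Dual (ZMod p) W => Even (rk (TT b) l))).erase 0,
        (p : ℝ) ^ finrank (ZMod p) X / (p : ℝ) ^ (rk (TT b) l / 2) =
        (p : ℝ) ^ finrank (ZMod p) X * (EE p b - 1) := by
      have h4 := b_group p b (fun m => (p : ℝ) ^ finrank (ZMod p) X / (p : ℝ) ^ m)
      rw [← Finset.add_sum_erase _ _ hmem, hrk0] at h4
      have h5 : ∑ m ∈ Finset.range (finrank (ZMod p) X + 1),
          (Nat.card {l : Dual (ZMod p) W // rk (TT b) l = 2 * m} : ℝ) *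
          ((p : ℝ) ^ finrank (ZMod p) X / (p : ℝ) ^ m) = (p : ℝ) ^ finrank (ZMod p) X * EE p b := by
        rw [EE, Finset.mul_sum]
        refine Finset.sum_congr rfl fun m _ => ?_
        ring
      rw [h5] at h4
      simp only [Nat.zero_div, pow_zero, div_one] at h4
      linarith
    rw [← h3]
    refine (norm_sum_le _ _).trans (Finset.sum_le_sum fun l hl => ?_)
    have h6 := (Finset.mem_filter.1 (Finset.mem_of_mem_erase hl)).2
    exact b_S_bound p hp b hb l _ (Nat.two_mul_div_two_of_even h6).symm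
  rw [h1, ← Finset.add_sum_erase _ _ hmem, hS0]
  have h7 := norm_sub_le ((((p : ℝ) ^ finrank (ZMod p) X : ℝ) : ℂ) +
    ∑ l ∈ (Finset.univ.filter (fun l : Dual (ZMod p) W => Even (rk (TT b) l))).erase 0,
        ∑ x : X, (ZMod.stdAddChar (l (b x x)) : ℂ))
    (∑ l ∈ (Finset.univ.filter (fun l : Dual (ZMod p) W => Even (rk (TT b) l))).erase 0,
        ∑ x : X, (ZMod.stdAddChar (l (b x x)) : ℂ))
  rw [add_sub_cancel_right, Complex.norm_real, Real.norm_of_nonneg (by positivity)] at h7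
  linarith

end QSys
end

section

/-!
Theorem B1, Lemma 5 (core): number of forms of rank `τ` whose radical has generic rank `s`.
-/

set_option autoImplicit false

open Module

namespace QSys

variable {F X W : Type} [Field F] [AddCommGroup X] [Module F X] [AddCommGroup W] [Module F W]

/-- double counting of points in random slices -/
theorem slice [Finite F] [FiniteDimensional F X] [FiniteDimensional F W]
    (b : X →ₗ[F] X →ₗ[F] W) {τ s : ℕ} (P : X × Dual F W → Prop)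
    (hP : ∀ z, P z → ∀ y, z.2 (b z.1 y) = 0) (γ : ℝ)
    (hγ : ∀ z, P z → γ * ((Nat.card X : ℝ) ^ τ * (Nat.card (Dual F W) : ℝ) ^ s *
      (Nat.card X : ℝ) ^ (τ + s)) ≤
      (Nat.card {d : (Fin τ → X) × (Fin s → Dual F W) × (Fin τ ⊕ Fin s → X) //
        (jac b d.1 d.2.1 d.2.2 z.1 z.2).det ≠ 0} : ℝ)) :
    (Nat.card F : ℝ) ^ (τ + s) * (Nat.card {z // P z} : ℝ) * γ ≤
      (Nat.card X : ℝ) * (Nat.card (Dual F W) : ℝ) * ((τ + s).choose τ : ℝ) := by
  classical
  have hfX : Finite X := Module.finite_of_finite F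
  have hfL : Finite (Dual F W) := Module.finite_of_finite F
  let _ := Fintype.ofFinite F
  let _ := Fintype.ofFinite X
  let _ := Fintype.ofFinite (Dual F W)
  let D := (Fin τ → X) × (Fin s → Dual F W) × (Fin τ ⊕ Fin s → X)
  let TU := (Fin τ → F) × (Fin s → F)
  let sh : D → TU → X × Dual F W := fun d z => (∑ i, z.1 i • d.1 i, ∑ i, z.2 i • d.2.1 i)
  let G : D → X × Dual F W → Prop := fun d z => P z ∧ (jac b d.1 d.2.1 d.2.2 z.1 z.2).det ≠ 0
  have h1 : ∀ (d : D) (z0 : X × Dual F W),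
      (Finset.univ.filter fun tu : TU => G d (z0 + sh d tu)).card ≤ (τ + s).choose τ := by
    intro d z0
    have h2 := bez b z0.1 z0.2 d.1 d.2.1 d.2.2
    rw [Nat.card_eq_fintype_card, Fintype.card_subtype] at h2
    refine le_trans (Finset.card_le_card fun tu htu => ?_) h2
    obtain ⟨h3, h4⟩ := (Finset.mem_filter.1 htu).2
    refine Finset.mem_filter.2 ⟨Finset.mem_univ _, fun j => ?_, h4⟩
    exact hP _ h3 _
  have h5 : ∀ (d : D) (tu : TU), (Finset.univ.filter fun z0 : X × Dual F W => G d (z0 + sh d tu)).card =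
      (Finset.univ.filter fun z : X × Dual F W => G d z).card := by
    intro d tu
    refine Finset.card_bij (fun z _ => z + sh d tu) ?_ ?_ ?_
    · intro z hz
      exact Finset.mem_filter.2 ⟨Finset.mem_univ _, (Finset.mem_filter.1 hz).2⟩
    · intro z _ z' _ h
      exact add_right_cancel h
    · intro z hz
      refine ⟨z - sh d tu, Finset.mem_filter.2 ⟨Finset.mem_univ _, ?_⟩, sub_add_cancel _ _⟩
      rw [sub_add_cancel]
      exact (Finset.mem_filter.1 hz).2
  have h6 : ∑ d : D, Fintype.card TU * (Finset.univ.filter fun z : X × Dual F W => G d z).card ≤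
      ∑ d : D, Fintype.card (X × Dual F W) * (τ + s).choose τ := by
    refine Finset.sum_le_sum fun d _ => ?_
    calc Fintype.card TU * (Finset.univ.filter fun z : X × Dual F W => G d z).card =
        ∑ tu : TU, (Finset.univ.filter fun z0 : X × Dual F W => G d (z0 + sh d tu)).card := by
          rw [Finset.sum_congr rfl fun tu _ => h5 d tu, Finset.sum_const, smul_eq_mul,
            Finset.card_univ]
      _ = ∑ z0 : X × Dual F W, (Finset.univ.filter fun tu : TU => G d (z0 + sh d tu)).card :=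
          Finset.sum_card_bipartiteAbove_eq_sum_card_bipartiteBelow
            (s := (Finset.univ : Finset TU)) (t := (Finset.univ : Finset (X × Dual F W)))
            (fun (tu : TU) (z0 : X × Dual F W) => G d (z0 + sh d tu))
      _ ≤ ∑ z0 : X × Dual F W, (τ + s).choose τ := Finset.sum_le_sum fun z0 _ => h1 d z0
      _ = _ := by rw [Finset.sum_const, smul_eq_mul, Finset.card_univ]
  have h7 : ∑ d : D, (Finset.univ.filter fun z : X × Dual F W => G d z).card =
      ∑ z ∈ (Finset.univ.filter fun z : X × Dual F W => P z),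
        (Finset.univ.filter fun d : D => (jac b d.1 d.2.1 d.2.2 z.1 z.2).det ≠ 0).card := by
    have h8 := Finset.sum_card_bipartiteAbove_eq_sum_card_bipartiteBelow
      (s := (Finset.univ : Finset D)) (t := (Finset.univ.filter fun z : X × Dual F W => P z))
      (fun (d : D) (z : X × Dual F W) => (jac b d.1 d.2.1 d.2.2 z.1 z.2).det ≠ 0)
    refine Eq.trans ?_ h8
    refine Finset.sum_congr rfl fun d _ => ?_
    congr 1
    ext z
    simp [G, Finset.bipartiteAbove]
  have h9 : (Fintype.card TU : ℝ) * ∑ z ∈ (Finset.univ.filter fun z : X × Dual F W => P z),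
        ((Finset.univ.filter fun d : D => (jac b d.1 d.2.1 d.2.2 z.1 z.2).det ≠ 0).card : ℝ) ≤
      (Fintype.card D : ℝ) * ((Fintype.card (X × Dual F W) : ℝ) * ((τ + s).choose τ : ℝ)) := by
    rw [← Finset.mul_sum, h7, Finset.sum_const, smul_eq_mul, Finset.card_univ] at h6
    exact_mod_cast h6
  have hD : (Fintype.card D : ℝ) = (Nat.card X : ℝ) ^ τ * (Nat.card (Dual F W) : ℝ) ^ s *
      (Nat.card X : ℝ) ^ (τ + s) := by
    simp only [D, Fintype.card_prod, Fintype.card_fun, Fintype.card_fin, Fintype.card_sum,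
      Nat.card_eq_fintype_card]
    push_cast
    ring
  have hTU : (Fintype.card TU : ℝ) = (Nat.card F : ℝ) ^ (τ + s) := by
    simp only [TU, Fintype.card_prod, Fintype.card_fun, Fintype.card_fin,
      Nat.card_eq_fintype_card]
    push_cast
    ring
  have hXL : (Fintype.card (X × Dual F W) : ℝ) = (Nat.card X : ℝ) * (Nat.card (Dual F W) : ℝ) := by
    simp only [Fintype.card_prod, Nat.card_eq_fintype_card]
    push_cast
    ring
  have hDpos : (0 : ℝ) < (Fintype.card D : ℝ) := by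
    have : 0 < Fintype.card D := Fintype.card_pos_iff.2
      ⟨(fun _ => 0, fun _ => 0, fun _ => 0)⟩
    exact_mod_cast this
  have h10 : (Nat.card {z // P z} : ℝ) * (γ * (Fintype.card D : ℝ)) ≤
      ∑ z ∈ (Finset.univ.filter fun z : X × Dual F W => P z),
        ((Finset.univ.filter fun d : D => (jac b d.1 d.2.1 d.2.2 z.1 z.2).det ≠ 0).card : ℝ) := by
    rw [Nat.card_eq_fintype_card, Fintype.card_subtype, ← nsmul_eq_mul, ← Finset.sum_const]
    refine Finset.sum_le_sum fun z hz => ?_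
    have h11 := hγ z (Finset.mem_filter.1 hz).2
    rw [Nat.card_eq_fintype_card (α := {d // _}), Fintype.card_subtype, ← hD] at h11
    exact h11
  have h12 : (Fintype.card D : ℝ) * ((Fintype.card TU : ℝ) * (Nat.card {z // P z} : ℝ) * γ) ≤
      (Fintype.card D : ℝ) * ((Fintype.card (X × Dual F W) : ℝ) * ((τ + s).choose τ : ℝ)) := by
    refine le_trans ?_ h9
    have h13 := mul_le_mul_of_nonneg_left h10 (Nat.cast_nonneg (α := ℝ) (Fintype.card TU))
    linarith
  have h14 := le_of_mul_le_mul_left h12 hDpos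
  rw [hTU, hXL] at h14
  exact h14

theorem card_pairs [Finite F] [FiniteDimensional F X] [FiniteDimensional F W]
    (b : X →ₗ[F] X →ₗ[F] W) (τ s : ℕ) :
    (Nat.card {l : Dual F W // rk (TT b) l = τ ∧ gr (res b (rad b l)) = s} : ℝ) *
      ((1 - (s : ℝ) / Nat.card F) * (Nat.card X : ℝ)) ≤
    (Nat.card F : ℝ) ^ τ * (Nat.card {z : X × Dual F W // rk (TT b) z.2 = τ ∧
      ∃ hx : z.1 ∈ rad b z.2, ra (res b (rad b z.2)) ⟨z.1, hx⟩ = s} : ℝ) := by
  classical
  have hfX : Finite X := Module.finite_of_finite F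
  have hfL : Finite (Dual F W) := Module.finite_of_finite F
  let _ := Fintype.ofFinite X
  let _ := Fintype.ofFinite (Dual F W)
  have h1 : (Nat.card {z : X × Dual F W // rk (TT b) z.2 = τ ∧
      ∃ hx : z.1 ∈ rad b z.2, ra (res b (rad b z.2)) ⟨z.1, hx⟩ = s}) =
      ∑ l : Dual F W, (Finset.univ.filter fun x : X => rk (TT b) l = τ ∧
        ∃ hx : x ∈ rad b l, ra (res b (rad b l)) ⟨x, hx⟩ = s).card := by
    rw [Nat.card_eq_fintype_card, Fintype.card_subtype, Finset.card_filter,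
      Fintype.sum_prod_type_right]
    refine Finset.sum_congr rfl fun l _ => ?_
    rw [Finset.card_filter]
  have h2 : (Nat.card {l : Dual F W // rk (TT b) l = τ ∧ gr (res b (rad b l)) = s} : ℝ) =
      ((Finset.univ.filter fun l : Dual F W => rk (TT b) l = τ ∧
        gr (res b (rad b l)) = s).card : ℝ) := by
    rw [Nat.card_eq_fintype_card, Fintype.card_subtype]
  rw [h1, h2]
  push_cast
  rw [Finset.mul_sum, ← nsmul_eq_mul, ← Finset.sum_const]
  refine le_trans (Finset.sum_le_sum fun l hl => ?_)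
    (Finset.sum_le_sum_of_subset_of_nonneg (Finset.subset_univ _) fun l _ _ => by positivity)
  obtain ⟨hl1, hl2⟩ := (Finset.mem_filter.1 hl).2
  have h3 := card_gen (res b (rad b l))
  rw [hl2] at h3
  have h4 : (Nat.card {x : rad b l // ra (res b (rad b l)) x = s} : ℝ) =
      ((Finset.univ.filter fun x : X => rk (TT b) l = τ ∧
        ∃ hx : x ∈ rad b l, ra (res b (rad b l)) ⟨x, hx⟩ = s).card : ℝ) := by
    rw [← Fintype.card_subtype, ← Nat.card_eq_fintype_card]
    congr 1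
    refine Nat.card_congr ⟨fun x => ⟨x.1.1, hl1, x.1.2, x.2⟩, fun x => ⟨⟨x.1, x.2.2.choose⟩,
      x.2.2.choose_spec⟩, fun x => rfl, fun x => rfl⟩
  rw [← h4]
  have h5 : (Nat.card X : ℝ) = (Nat.card F : ℝ) ^ τ * (Nat.card (rad b l) : ℝ) := by
    rw [Module.natCard_eq_pow_finrank (K := F) (V := X),
      Module.natCard_eq_pow_finrank (K := F) (V := rad b l), ← finrank_rad b l, hl1]
    push_cast
    rw [pow_add]
    ring
  have hq0 : (0 : ℝ) ≤ (Nat.card F : ℝ) ^ τ := by positivity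
  calc (1 - (s : ℝ) / Nat.card F) * (Nat.card X : ℝ) =
      (Nat.card F : ℝ) ^ τ * ((1 - (s : ℝ) / Nat.card F) * (Nat.card (rad b l) : ℝ)) := by
        rw [h5]; ring
    _ ≤ _ := mul_le_mul_of_nonneg_left h3 hq0

/-- the core inequality -/
theorem core [Finite F] [FiniteDimensional F X] [FiniteDimensional F W]
    (b : X →ₗ[F] X →ₗ[F] W) (hb : ∀ x y, b x y = b y x) (τ s : ℕ) (hq : 3 ≤ Nat.card F) :
    (Nat.card {l : Dual F W // rk (TT b) l = τ ∧ gr (res b (rad b l)) = s} : ℝ) *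
      ((1 - (s : ℝ) / Nat.card F) * (1 - 1 / ((Nat.card F : ℝ) - 1)) ^ 3) * (Nat.card F : ℝ) ^ s ≤
    ((τ + s).choose τ : ℝ) * (Nat.card F : ℝ) ^ finrank F W := by
  classical
  have hfX : Finite X := Module.finite_of_finite F
  have hq' : (3 : ℝ) ≤ (Nat.card F : ℝ) := by exact_mod_cast hq
  have hq0 : (0 : ℝ) < (Nat.card F : ℝ) := by linarith
  set γ : ℝ := (1 - 1 / ((Nat.card F : ℝ) - 1)) ^ 3 with hγ
  have hγ0 : 0 ≤ γ := by
    rw [hγ]
    apply pow_nonneg
    rw [sub_nonneg, div_le_one (by linarith)]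
    linarith
  have h1 := slice b (τ := τ) (s := s) (fun z => rk (TT b) z.2 = τ ∧
      ∃ hx : z.1 ∈ rad b z.2, ra (res b (rad b z.2)) ⟨z.1, hx⟩ = s)
    (fun z hz => (mem_rad b z.2 z.1).1 hz.2.choose) γ
    (fun z hz => good_card b hb z.1 z.2 hz.1 hz.2.choose hz.2.choose_spec hq)
  have h2 := card_pairs b τ s
  have hX0 : (0 : ℝ) < (Nat.card X : ℝ) := by exact_mod_cast Nat.card_pos
  have hL : (Nat.card (Dual F W) : ℝ) = (Nat.card F : ℝ) ^ finrank F W := by
    rw [Module.natCard_eq_pow_finrank (K := F) (V := Dual F W), Subspace.dual_finrank_eq]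
    push_cast
    rfl
  rw [hL] at h1
  set N : ℝ := (Nat.card {l : Dual F W // rk (TT b) l = τ ∧ gr (res b (rad b l)) = s} : ℝ) with hN
  set Pc : ℝ := (Nat.card {z : X × Dual F W // rk (TT b) z.2 = τ ∧
      ∃ hx : z.1 ∈ rad b z.2, ra (res b (rad b z.2)) ⟨z.1, hx⟩ = s} : ℝ) with hPc
  have h3 : (Nat.card X : ℝ) * (N * ((1 - (s : ℝ) / Nat.card F) * γ) * (Nat.card F : ℝ) ^ s) ≤
      (Nat.card X : ℝ) * (((τ + s).choose τ : ℝ) * (Nat.card F : ℝ) ^ finrank F W) := by
    calc (Nat.card X : ℝ) * (N * ((1 - (s : ℝ) / Nat.card F) * γ) * (Nat.card F : ℝ) ^ s) =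
        (N * ((1 - (s : ℝ) / Nat.card F) * (Nat.card X : ℝ))) * (γ * (Nat.card F : ℝ) ^ s) := by ring
      _ ≤ ((Nat.card F : ℝ) ^ τ * Pc) * (γ * (Nat.card F : ℝ) ^ s) :=
          mul_le_mul_of_nonneg_right h2 (mul_nonneg hγ0 (by positivity))
      _ = (Nat.card F : ℝ) ^ (τ + s) * Pc * γ := by rw [pow_add]; ring
      _ ≤ _ := h1
      _ = _ := by ring
  exact le_of_mul_le_mul_left h3 hX0

end QSys
end

section

/-!
Theorem B1, Lemma 6: the generic rank of a stable system, and the number of forms of given rank.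
-/

set_option autoImplicit false

open Module

namespace QSys

theorem choose_le_pow' (τ s : ℕ) : (τ + s).choose τ ≤ (s + 1) ^ τ := by
  induction τ with
  | zero => simp
  | succ τ ih =>
    have h1 : (τ + 1) * (τ + 1 + s).choose (τ + 1) = (τ + 1 + s) * (τ + s).choose τ := by
      have h2 := Nat.add_one_mul_choose_eq (τ + s) τ
      have h3 : τ + s + 1 = τ + 1 + s := by ring
      rw [h3] at h2
      linarith
    have h4 : (τ + 1 + s) ≤ (τ + 1) * (s + 1) := by nlinarith [Nat.zero_le (τ * s)]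
    have h5 : (τ + 1) * (τ + 1 + s).choose (τ + 1) ≤ (τ + 1) * (s + 1) ^ (τ + 1) := by
      rw [h1, pow_succ]
      calc (τ + 1 + s) * (τ + s).choose τ ≤ ((τ + 1) * (s + 1)) * (s + 1) ^ τ :=
            Nat.mul_le_mul h4 ih
        _ = _ := by ring
    exact Nat.le_of_mul_le_mul_left h5 (Nat.succ_pos _)

theorem sum_geom_le (q : ℝ) (hq : 1 < q) (r f : ℕ) :
    ∑ s ∈ Finset.Icc (r - f) r, q ^ (r - s) ≤ q ^ f * (q / (q - 1)) := by
  have hq0 : 0 < q := by linarith
  have h1 : ∑ s ∈ Finset.Icc (r - f) r, q ^ (r - s) ≤ ∑ k ∈ Finset.range (f + 1), q ^ k := by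
    have h2 : ∑ s ∈ Finset.Icc (r - f) r, q ^ (r - s) =
        ∑ k ∈ (Finset.Icc (r - f) r).image (fun s => r - s), q ^ k := by
      rw [Finset.sum_image]
      intro s hs s' hs' h
      simp only [Finset.coe_Icc, Set.mem_Icc] at hs hs'
      simp only at h
      omega
    rw [h2]
    refine Finset.sum_le_sum_of_subset_of_nonneg ?_ fun k _ _ => by positivity
    intro k hk
    obtain ⟨s, hs, rfl⟩ := Finset.mem_image.1 hk
    rw [Finset.mem_Icc] at hs
    rw [Finset.mem_range]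
    omega
  refine h1.trans ?_
  rw [geom_sum_eq hq.ne', ← mul_div_assoc, div_le_div_iff_of_pos_right (by linarith), pow_succ]
  linarith [pow_pos hq0 f]

variable {F W : Type} [Field F] [AddCommGroup W] [Module F W]

theorem core' {X : Type} [AddCommGroup X] [Module F X] [Finite F] [FiniteDimensional F X]
    [FiniteDimensional F W]
    (b : X →ₗ[F] X →ₗ[F] W) (hb : ∀ x y, b x y = b y x) (τ s : ℕ) (hq : 3 ≤ Nat.card F)
    (hr : finrank F W < Nat.card F) (κ : ℝ)
    (hκ : 1 ≤ κ * ((1 - (finrank F W : ℝ) / Nat.card F) * (1 - 1 / ((Nat.card F : ℝ) - 1)) ^ 3))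
    (hs : s ≤ finrank F W) :
    (Nat.card {l : Dual F W // rk (TT b) l = τ ∧ gr (res b (rad b l)) = s} : ℝ) ≤
      κ * (((τ + s).choose τ : ℝ) * (Nat.card F : ℝ) ^ (finrank F W - s)) := by
  have hq' : (3 : ℝ) ≤ (Nat.card F : ℝ) := by exact_mod_cast hq
  have hq0 : (0 : ℝ) < (Nat.card F : ℝ) := by linarith
  have h1 := core b hb τ s hq
  set N : ℝ := (Nat.card {l : Dual F W // rk (TT b) l = τ ∧ gr (res b (rad b l)) = s} : ℝ) with hN
  have hN0 : 0 ≤ N := Nat.cast_nonneg _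
  set γ : ℝ := (1 - 1 / ((Nat.card F : ℝ) - 1)) ^ 3 with hγ
  have hγ0 : 0 ≤ γ := by
    rw [hγ]
    apply pow_nonneg
    rw [sub_nonneg, div_le_one (by linarith)]
    linarith
  have hr1 : 0 < 1 - (finrank F W : ℝ) / Nat.card F := by
    rw [sub_pos, div_lt_one hq0]
    exact_mod_cast hr
  have hs1 : 1 - (finrank F W : ℝ) / Nat.card F ≤ 1 - (s : ℝ) / Nat.card F := by
    have : (s : ℝ) ≤ (finrank F W : ℝ) := by exact_mod_cast hs
    have := div_le_div_of_nonneg_right this hq0.le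
    linarith
  have hκ0 : 0 < κ := by
    by_contra h
    push Not at h
    have : κ * ((1 - (finrank F W : ℝ) / Nat.card F) * γ) ≤ 0 :=
      mul_nonpos_of_nonpos_of_nonneg h (mul_nonneg hr1.le hγ0)
    linarith
  have h2 : N * (Nat.card F : ℝ) ^ s ≤ κ * (((τ + s).choose τ : ℝ) * (Nat.card F : ℝ) ^ finrank F W) := by
    calc N * (Nat.card F : ℝ) ^ s = N * 1 * (Nat.card F : ℝ) ^ s := by ring
      _ ≤ N * (κ * ((1 - (finrank F W : ℝ) / Nat.card F) * γ)) * (Nat.card F : ℝ) ^ s := by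
          gcongr
      _ ≤ N * (κ * ((1 - (s : ℝ) / Nat.card F) * γ)) * (Nat.card F : ℝ) ^ s := by
          gcongr
      _ = κ * (N * ((1 - (s : ℝ) / Nat.card F) * γ) * (Nat.card F : ℝ) ^ s) := by ring
      _ ≤ _ := mul_le_mul_of_nonneg_left h1 hκ0.le
  have h3 : (Nat.card F : ℝ) ^ finrank F W =
      (Nat.card F : ℝ) ^ (finrank F W - s) * (Nat.card F : ℝ) ^ s := by
    rw [← pow_add]
    congr 1
    omega
  rw [h3] at h2
  have h4 : (0 : ℝ) < (Nat.card F : ℝ) ^ s := by positivity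
  refine le_of_mul_le_mul_right ?_ h4
  linarith

/-- number of forms of rank `τ` -/
theorem card_rk_le {X : Type} [AddCommGroup X] [Module F X] [Finite F] [FiniteDimensional F X]
    [FiniteDimensional F W]
    (b : X →ₗ[F] X →ₗ[F] W) (hb : ∀ x y, b x y = b y x) (τ m : ℕ) (hq : 3 ≤ Nat.card F)
    (hr : finrank F W < Nat.card F) (κ : ℝ)
    (hκ : 1 ≤ κ * ((1 - (finrank F W : ℝ) / Nat.card F) * (1 - 1 / ((Nat.card F : ℝ) - 1)) ^ 3))
    (hm : ∀ l, rk (TT b) l = τ → m ≤ gr (res b (rad b l))) :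
    (Nat.card {l : Dual F W // rk (TT b) l = τ} : ℝ) ≤
      κ * ∑ s ∈ Finset.Icc m (finrank F W),
        (((τ + s).choose τ : ℝ) * (Nat.card F : ℝ) ^ (finrank F W - s)) := by
  classical
  have hfL : Finite (Dual F W) := Module.finite_of_finite F
  let _ := Fintype.ofFinite (Dual F W)
  have h1 : (Finset.univ.filter fun l : Dual F W => rk (TT b) l = τ).card =
      ∑ s ∈ Finset.Icc m (finrank F W), ((Finset.univ.filter fun l : Dual F W => rk (TT b) l = τ).filter
        fun l => gr (res b (rad b l)) = s).card := by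
    apply Finset.card_eq_sum_card_fiberwise
    intro l hl
    rw [Finset.mem_coe, Finset.mem_filter] at hl
    rw [Finset.mem_coe, Finset.mem_Icc]
    exact ⟨hm l hl.2, gr_le _⟩
  rw [Nat.card_eq_fintype_card, Fintype.card_subtype, h1]
  push_cast
  rw [Finset.mul_sum]
  refine Finset.sum_le_sum fun s hs => ?_
  rw [Finset.mem_Icc] at hs
  have h2 := core' b hb τ s hq hr κ hκ hs.2
  rw [Nat.card_eq_fintype_card, Fintype.card_subtype] at h2
  rw [Finset.filter_filter]
  exact h2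

theorem card_zero_le {X : Type} [AddCommGroup X] [Module F X] [Finite F] [FiniteDimensional F X]
    [FiniteDimensional F W] (φ : ℕ → ℕ) (c : ℕ)
    (b : X →ₗ[F] X →ₗ[F] W) (hst : Stb φ c b) :
    (Nat.card {l : Dual F W // rk (TT b) l = 0} : ℝ) ≤ (Nat.card F : ℝ) ^ φ c := by
  have h1 : Nat.card {l : Dual F W // rk (TT b) l = 0} = Nat.card (LinearMap.ker (TT b)) := by
    refine Nat.card_congr (Equiv.subtypeEquivRight fun l => ?_)
    rw [rk, Submodule.finrank_eq_zero, LinearMap.range_eq_bot, LinearMap.mem_ker]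
  have h2 := hst ⊤ (LinearMap.ker (TT b)) (by
    intro l hl x _ y _
    have h3 := LinearMap.congr_fun (LinearMap.congr_fun (LinearMap.mem_ker.1 hl) x) y
    simpa using h3)
  rw [finrank_top, Nat.sub_self, Nat.add_zero] at h2
  rw [h1, Module.natCard_eq_pow_finrank (K := F)]
  push_cast
  have hF : 1 ≤ Nat.card F := Nat.card_pos
  exact pow_le_pow_right₀ (by exact_mod_cast hF) h2

theorem sum_rad {X : Type} [AddCommGroup X] [Module F X] [Finite F] [FiniteDimensional F X]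
    [FiniteDimensional F W] (b : X →ₗ[F] X →ₗ[F] W) (k : ℕ) (hk : gr b + k ≤ finrank F W) :
    (Nat.card F : ℝ) ^ k ≤ ∑ τ ∈ Finset.range (finrank F X + 1),
      (Nat.card {l : Dual F W // rk (TT b) l = τ} : ℝ) / (Nat.card F : ℝ) ^ τ := by
  classical
  have hfX : Finite X := Module.finite_of_finite F
  have hfL : Finite (Dual F W) := Module.finite_of_finite F
  let _ := Fintype.ofFinite X
  let _ := Fintype.ofFinite (Dual F W)
  have hF : 1 ≤ Nat.card F := Nat.card_pos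
  have hF0 : (0 : ℝ) < (Nat.card F : ℝ) := by exact_mod_cast hF
  have h1 : ∀ x : X, Nat.card F ^ k ≤
      (Finset.univ.filter fun l : Dual F W => ∀ y, l (b x y) = 0).card := by
    intro x
    have h2 : (Finset.univ.filter fun l : Dual F W => ∀ y, l (b x y) = 0).card =
        Nat.card (LinearMap.range (b x)).dualAnnihilator := by
      rw [← Fintype.card_subtype, ← Nat.card_eq_fintype_card]
      refine Nat.card_congr (Equiv.subtypeEquivRight fun l => ?_)
      rw [Submodule.mem_dualAnnihilator]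
      constructor
      · rintro h _ ⟨y, rfl⟩
        exact h y
      · intro h y
        exact h _ ⟨y, rfl⟩
    rw [h2, Module.natCard_eq_pow_finrank (K := F) (V := (LinearMap.range (b x)).dualAnnihilator)]
    apply Nat.pow_le_pow_right hF
    have h3 := Subspace.finrank_add_finrank_dualAnnihilator_eq (LinearMap.range (b x))
    have h4 := ra_le_gr b x
    rw [ra] at h4
    omega
  have h5 : ∑ x : X, (Finset.univ.filter fun l : Dual F W => ∀ y, l (b x y) = 0).card =
      ∑ l : Dual F W, (Finset.univ.filter fun x : X => ∀ y, l (b x y) = 0).card :=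
    Finset.sum_card_bipartiteAbove_eq_sum_card_bipartiteBelow
      (s := (Finset.univ : Finset X)) (t := (Finset.univ : Finset (Dual F W)))
      (fun (x : X) (l : Dual F W) => ∀ y, l (b x y) = 0)
  have h6 : ∀ l : Dual F W, ((Finset.univ.filter fun x : X => ∀ y, l (b x y) = 0).card : ℝ) =
      (Nat.card X : ℝ) / (Nat.card F : ℝ) ^ rk (TT b) l := by
    intro l
    have h7 : (Finset.univ.filter fun x : X => ∀ y, l (b x y) = 0).card = Nat.card (rad b l) := by
      rw [← Fintype.card_subtype, ← Nat.card_eq_fintype_card]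
      exact Nat.card_congr (Equiv.subtypeEquivRight fun x => (mem_rad b l x).symm)
    rw [h7, eq_div_iff (by positivity), Module.natCard_eq_pow_finrank (K := F) (V := X),
      Module.natCard_eq_pow_finrank (K := F) (V := rad b l), ← finrank_rad b l, pow_add]
    push_cast
    ring
  have h8 : (Nat.card X : ℝ) * (Nat.card F : ℝ) ^ k ≤
      ∑ l : Dual F W, (Nat.card X : ℝ) / (Nat.card F : ℝ) ^ rk (TT b) l := by
    rw [← Finset.sum_congr rfl fun l _ => h6 l]
    have h9 : Nat.card X * Nat.card F ^ k ≤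
        ∑ l : Dual F W, (Finset.univ.filter fun x : X => ∀ y, l (b x y) = 0).card := by
      rw [← h5, Nat.card_eq_fintype_card (α := X), ← Finset.card_univ, ← smul_eq_mul,
        ← Finset.sum_const]
      exact Finset.sum_le_sum fun x _ => h1 x
    exact_mod_cast h9
  have hX0 : (0 : ℝ) < (Nat.card X : ℝ) := by exact_mod_cast Nat.card_pos
  have h10 : ∑ l : Dual F W, (Nat.card X : ℝ) / (Nat.card F : ℝ) ^ rk (TT b) l =
      (Nat.card X : ℝ) * ∑ τ ∈ Finset.range (finrank F X + 1),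
      (Nat.card {l : Dual F W // rk (TT b) l = τ} : ℝ) / (Nat.card F : ℝ) ^ τ := by
    rw [← Finset.sum_fiberwise_of_maps_to (s := Finset.univ)
      (t := Finset.range (finrank F X + 1)) (g := fun l => rk (TT b) l)
      (fun l _ => Finset.mem_range.2 (Nat.lt_succ_of_le (rk_le_dim b l))), Finset.mul_sum]
    refine Finset.sum_congr rfl fun τ _ => ?_
    rw [Finset.sum_congr rfl (g := fun _ => (Nat.card X : ℝ) / (Nat.card F : ℝ) ^ τ)
      (fun l hl => by rw [(Finset.mem_filter.1 hl).2]), Finset.sum_const, nsmul_eq_mul,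
      Nat.card_eq_fintype_card (α := {l // _}), Fintype.card_subtype]
    ring
  rw [h10] at h8
  exact le_of_mul_le_mul_left h8 hX0

theorem gr_bound [Finite F] [FiniteDimensional F W] (φ : ℕ → ℕ)
    (hφ : ∀ c t, φ (c + t) ≤ φ c + (t + 1) / 2) (hq : 3 ≤ Nat.card F)
    (hr : finrank F W < Nat.card F) (κ : ℝ)
    (hκ : 1 ≤ κ * ((1 - (finrank F W : ℝ) / Nat.card F) * (1 - 1 / ((Nat.card F : ℝ) - 1)) ^ 3))
    (hnum : ∀ N : ℕ, 1 + κ * ((Nat.card F : ℝ) / ((Nat.card F : ℝ) - 1)) *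
      ∑ τ ∈ Finset.Icc 1 N, ((finrank F W : ℝ) + 1) ^ τ / (Nat.card F : ℝ) ^ (τ / 2) <
        (Nat.card F : ℝ)) :
    ∀ (N : ℕ) (X : Type) [AddCommGroup X] [Module F X] [FiniteDimensional F X]
      (b : X →ₗ[F] X →ₗ[F] W) (c : ℕ), finrank F X = N → (∀ x y, b x y = b y x) → Stb φ c b →
      finrank F W ≤ gr b + φ c := by
  classical
  intro N
  induction N using Nat.strong_induction_on with
  | _ N ih =>
    intro X _ _ _ b c hN hb hst
    by_contra hcon
    push Not at hcon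
    have hq' : (3 : ℝ) ≤ (Nat.card F : ℝ) := by exact_mod_cast hq
    have hq0 : (0 : ℝ) < (Nat.card F : ℝ) := by linarith
    set q : ℝ := (Nat.card F : ℝ) with hqd
    set r := finrank F W with hrd
    have h1 := sum_rad b (φ c + 1) (by omega)
    rw [hN] at h1
    have hκ0 : 0 < κ := by
      by_contra h
      push Not at h
      have hr1 : 0 ≤ 1 - (r : ℝ) / q := by
        rw [sub_nonneg, div_le_one hq0, hqd]
        exact_mod_cast hr.le
      have hγ0 : 0 ≤ (1 - 1 / (q - 1)) ^ 3 := by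
        apply pow_nonneg
        rw [sub_nonneg, div_le_one (by linarith)]
        linarith
      have : κ * ((1 - (r : ℝ) / q) * (1 - 1 / (q - 1)) ^ 3) ≤ 0 :=
        mul_nonpos_of_nonpos_of_nonneg h (mul_nonneg hr1 hγ0)
      linarith
    -- bound for `τ ≥ 1`
    have h2 : ∀ τ ∈ Finset.Icc 1 N, (Nat.card {l : Dual F W // rk (TT b) l = τ} : ℝ) / q ^ τ ≤
        κ * (q / (q - 1)) * q ^ φ c * (((r : ℝ) + 1) ^ τ / q ^ (τ / 2)) := by
      intro τ hτ
      rw [Finset.mem_Icc] at hτ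
      have h3 := card_rk_le b hb τ (r - φ (c + τ)) hq hr κ hκ (by
        intro l hl
        have h4 := finrank_rad b l
        rw [hl] at h4
        have h5 := ih (finrank F (rad b l)) (by omega) (rad b l) (res b (rad b l)) (c + τ) rfl
          (fun x y => hb x y) (by
            have h6 := stb_res φ c b hst (rad b l)
            have h7 : c + (finrank F X - finrank F (rad b l)) = c + τ := by omega
            rw [h7] at h6
            exact h6)
        omega)
      have h8 : ∑ s ∈ Finset.Icc (r - φ (c + τ)) r, (((τ + s).choose τ : ℝ) * q ^ (r - s)) ≤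
          ((r : ℝ) + 1) ^ τ * (q ^ φ (c + τ) * (q / (q - 1))) := by
        calc ∑ s ∈ Finset.Icc (r - φ (c + τ)) r, (((τ + s).choose τ : ℝ) * q ^ (r - s)) ≤
            ∑ s ∈ Finset.Icc (r - φ (c + τ)) r, (((r : ℝ) + 1) ^ τ * q ^ (r - s)) := by
              refine Finset.sum_le_sum fun s hs => ?_
              rw [Finset.mem_Icc] at hs
              refine mul_le_mul_of_nonneg_right ?_ (by positivity)
              have h9 : (τ + s).choose τ ≤ (r + 1) ^ τ :=
                (choose_le_pow' τ s).trans (Nat.pow_le_pow_left (by omega) _)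
              exact_mod_cast h9
          _ = ((r : ℝ) + 1) ^ τ * ∑ s ∈ Finset.Icc (r - φ (c + τ)) r, q ^ (r - s) := by
              rw [Finset.mul_sum]
          _ ≤ _ := mul_le_mul_of_nonneg_left (sum_geom_le q (by linarith) r _) (by positivity)
      have hqq : 0 < q / (q - 1) := div_pos hq0 (by linarith)
      have h10 : q ^ φ (c + τ) ≤ q ^ φ c * q ^ ((τ + 1) / 2) := by
        rw [← pow_add]
        exact pow_le_pow_right₀ (by linarith) (hφ c τ)
      have h11 : q ^ τ = q ^ ((τ + 1) / 2) * q ^ (τ / 2) := by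
        rw [← pow_add]
        congr 1
        omega
      rw [div_le_iff₀ (by positivity)]
      calc (Nat.card {l : Dual F W // rk (TT b) l = τ} : ℝ) ≤
          κ * (((r : ℝ) + 1) ^ τ * (q ^ φ (c + τ) * (q / (q - 1)))) :=
            h3.trans (mul_le_mul_of_nonneg_left h8 hκ0.le)
        _ ≤ κ * (((r : ℝ) + 1) ^ τ * ((q ^ φ c * q ^ ((τ + 1) / 2)) * (q / (q - 1)))) := by
            gcongr
        _ = κ * (q / (q - 1)) * q ^ φ c * (((r : ℝ) + 1) ^ τ / q ^ (τ / 2)) *
            (q ^ ((τ + 1) / 2) * q ^ (τ / 2)) := by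
            have : q ^ (τ / 2) ≠ 0 := by positivity
            field_simp
        _ = _ := by rw [h11]
    have h12 : (Nat.card {l : Dual F W // rk (TT b) l = 0} : ℝ) ≤ q ^ φ c := card_zero_le φ c b hst
    have h13 : ∑ τ ∈ Finset.range (N + 1), (Nat.card {l : Dual F W // rk (TT b) l = τ} : ℝ) / q ^ τ ≤
        q ^ φ c * (1 + κ * (q / (q - 1)) * ∑ τ ∈ Finset.Icc 1 N, ((r : ℝ) + 1) ^ τ / q ^ (τ / 2)) := by
      have h14 : Finset.range (N + 1) = insert 0 (Finset.Icc 1 N) := by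
        ext x
        simp only [Finset.mem_range, Finset.mem_insert, Finset.mem_Icc]
        omega
      rw [h14, Finset.sum_insert (by simp), pow_zero, div_one]
      calc (Nat.card {l : Dual F W // rk (TT b) l = 0} : ℝ) +
          ∑ τ ∈ Finset.Icc 1 N, (Nat.card {l : Dual F W // rk (TT b) l = τ} : ℝ) / q ^ τ ≤
          q ^ φ c + ∑ τ ∈ Finset.Icc 1 N,
            κ * (q / (q - 1)) * q ^ φ c * (((r : ℝ) + 1) ^ τ / q ^ (τ / 2)) :=
            add_le_add h12 (Finset.sum_le_sum h2)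
        _ = _ := by
            rw [← Finset.mul_sum]
            ring
    have h15 : q ^ φ c * (1 + κ * (q / (q - 1)) * ∑ τ ∈ Finset.Icc 1 N,
        ((r : ℝ) + 1) ^ τ / q ^ (τ / 2)) < q ^ φ c * q :=
      mul_lt_mul_of_pos_left (hnum N) (by positivity)
    rw [pow_succ] at h1
    linarith

end QSys
end

section

/-!
Theorem B1, Lemma 9: estimates of the sums over the forms.
-/

set_option autoImplicit false

open Module

namespace QSys

/-- the stability function of Theorem B1 -/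
def ph (d : ℕ) : ℕ := (d - 1) / 2

theorem ph_add (c t : ℕ) : ph (c + t) ≤ ph c + (t + 1) / 2 := by
  unfold ph
  omega

variable (p : ℕ) [Fact p.Prime] {X W : Type} [AddCommGroup X] [Module (ZMod p) X]
  [FiniteDimensional (ZMod p) X] [AddCommGroup W] [Module (ZMod p) W] [FiniteDimensional (ZMod p) W]

/-- numerical hypotheses -/
def Hyp (κ : ℝ) (r : ℕ) : Prop :=
  3 < p ∧ r < p ∧
  1 ≤ κ * ((1 - (r : ℝ) / p) * (1 - 1 / ((p : ℝ) - 1)) ^ 3) ∧
  (∀ N : ℕ, 1 + κ * ((p : ℝ) / ((p : ℝ) - 1)) *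
      ∑ τ ∈ Finset.Icc 1 N, ((r : ℝ) + 1) ^ τ / (p : ℝ) ^ (τ / 2) < (p : ℝ))

theorem one_le_kap (κ : ℝ) (r : ℕ) (h : Hyp p κ r) : 1 ≤ κ := by
  obtain ⟨h3, hr, hκ, _⟩ := h
  have hp3 : (3 : ℝ) < (p : ℝ) := by exact_mod_cast h3
  have hr1 : 0 ≤ 1 - (r : ℝ) / p := by
    rw [sub_nonneg, div_le_one (by linarith)]
    exact_mod_cast hr.le
  have hr2 : 1 - (r : ℝ) / p ≤ 1 := by
    have : 0 ≤ (r : ℝ) / p := by positivity
    linarith
  have hg0 : 0 ≤ 1 - 1 / ((p : ℝ) - 1) := by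
    rw [sub_nonneg, div_le_one (by linarith)]
    linarith
  have hg1 : 1 - 1 / ((p : ℝ) - 1) ≤ 1 := by
    have : 0 ≤ 1 / ((p : ℝ) - 1) := div_nonneg zero_le_one (by linarith)
    linarith
  have h5 : (1 - 1 / ((p : ℝ) - 1)) ^ 3 ≤ 1 := pow_le_one₀ hg0 hg1
  have h6 : (1 - (r : ℝ) / p) * (1 - 1 / ((p : ℝ) - 1)) ^ 3 ≤ 1 := by
    calc _ ≤ 1 * 1 := mul_le_mul hr2 h5 (pow_nonneg hg0 _) zero_le_one
      _ = 1 := one_mul _
  have h7 : 0 ≤ (1 - (r : ℝ) / p) * (1 - 1 / ((p : ℝ) - 1)) ^ 3 := mul_nonneg hr1 (pow_nonneg hg0 _)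
  by_contra hlt
  push Not at hlt
  rcases le_or_gt κ 0 with hk | hk
  · have : κ * ((1 - (r : ℝ) / p) * (1 - 1 / ((p : ℝ) - 1)) ^ 3) ≤ 0 :=
      mul_nonpos_of_nonpos_of_nonneg hk h7
    linarith
  · have : κ * ((1 - (r : ℝ) / p) * (1 - 1 / ((p : ℝ) - 1)) ^ 3) ≤ κ * 1 :=
      mul_le_mul_of_nonneg_left h6 hk.le
    linarith

/-- number of forms of rank `τ ≥ 1` -/
theorem card_tau (κ : ℝ) (b : X →ₗ[ZMod p] X →ₗ[ZMod p] W) (hb : ∀ x y, b x y = b y x)
    (c : ℕ) (hst : Stb ph c b) (h : Hyp p κ (finrank (ZMod p) W)) (τ : ℕ) :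
    (Nat.card {l : Dual (ZMod p) W // rk (TT b) l = τ} : ℝ) ≤
      κ * ∑ s ∈ Finset.Icc (finrank (ZMod p) W - ph (c + τ)) (finrank (ZMod p) W),
        (((τ + s).choose τ : ℝ) * (p : ℝ) ^ (finrank (ZMod p) W - s)) := by
  obtain ⟨h3, hr, hκ, hnum⟩ := h
  have hcp : Nat.card (ZMod p) = p := Nat.card_zmod p
  have h1 := card_rk_le b hb τ (finrank (ZMod p) W - ph (c + τ)) (by rw [hcp]; omega)
    (by rw [hcp]; exact hr) κ (by rw [hcp]; exact hκ) (by
      intro l hl
      have h2 := gr_bound (F := ZMod p) (W := W) ph ph_add (by rw [hcp]; omega)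
        (by rw [hcp]; exact hr) κ (by rw [hcp]; exact hκ) (by rw [hcp]; exact hnum)
        (finrank (ZMod p) (rad b l)) (rad b l) (res b (rad b l)) (c + τ) rfl
        (fun x y => hb x y) (by
          have h4 := stb_res ph c b hst (rad b l)
          have h5 := finrank_rad b l
          have h6 : c + (finrank (ZMod p) X - finrank (ZMod p) (rad b l)) = c + τ := by omega
          rw [h6] at h4
          exact h4)
      omega)
  rw [hcp] at h1
  exact h1

theorem card_zero (b : X →ₗ[ZMod p] X →ₗ[ZMod p] W) (c : ℕ) (hst : Stb ph c b) :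
    (Nat.card {l : Dual (ZMod p) W // rk (TT b) l = 0} : ℝ) ≤
      (p : ℝ) ^ finrank (ZMod p) W / (p : ℝ) ^ (finrank (ZMod p) W - ph c) := by
  have hcp : Nat.card (ZMod p) = p := Nat.card_zmod p
  have hp0 : (0 : ℝ) < p := by exact_mod_cast (Fact.out : p.Prime).pos
  rcases le_total (ph c) (finrank (ZMod p) W) with hle | hle
  · have h1 := card_zero_le ph c b hst
    rw [hcp] at h1
    refine h1.trans (le_of_eq ?_)
    rw [eq_div_iff (by positivity), ← pow_add]
    congr 1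
    omega
  · have h2 : finrank (ZMod p) W - ph c = 0 := by omega
    rw [h2, pow_zero, div_one]
    have hfL : Finite (Dual (ZMod p) W) := Module.finite_of_finite (ZMod p)
    have h3 : Nat.card {l : Dual (ZMod p) W // rk (TT b) l = 0} ≤ Nat.card (Dual (ZMod p) W) :=
      Nat.card_le_card_of_injective _ Subtype.val_injective
    rw [Module.natCard_eq_pow_finrank (K := ZMod p) (V := Dual (ZMod p) W), hcp,
      Subspace.dual_finrank_eq] at h3
    exact_mod_cast h3

theorem ee_split (b : X →ₗ[ZMod p] X →ₗ[ZMod p] W) :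
    EE p b = (Nat.card {l : Dual (ZMod p) W // rk (TT b) l = 0} : ℝ) +
      ∑ m ∈ Finset.Icc 1 (finrank (ZMod p) X),
        (Nat.card {l : Dual (ZMod p) W // rk (TT b) l = 2 * m} : ℝ) / (p : ℝ) ^ m := by
  rw [EE]
  have h14 : Finset.range (finrank (ZMod p) X + 1) = insert 0 (Finset.Icc 1 (finrank (ZMod p) X)) := by
    ext x
    simp only [Finset.mem_range, Finset.mem_insert, Finset.mem_Icc]
    omega
  rw [h14, Finset.sum_insert (by simp)]
  simp

theorem ee_terms (κ : ℝ) (b : X →ₗ[ZMod p] X →ₗ[ZMod p] W) (hb : ∀ x y, b x y = b y x)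
    (c : ℕ) (hst : Stb ph c b) (h : Hyp p κ (finrank (ZMod p) W)) (N0 : ℕ)
    (hN0 : ∀ m, 1 ≤ m → ∀ s, finrank (ZMod p) W - ph (c + 2 * m) ≤ s → N0 ≤ m + s) :
    ∑ m ∈ Finset.Icc 1 (finrank (ZMod p) X),
        (Nat.card {l : Dual (ZMod p) W // rk (TT b) l = 2 * m} : ℝ) / (p : ℝ) ^ m ≤
      κ * ∑ N ∈ Finset.Icc N0 (finrank (ZMod p) X + finrank (ZMod p) W),
        (p : ℝ) ^ finrank (ZMod p) W / (p : ℝ) ^ N * ((Nat.fib (2 * N + 1) : ℝ) - 1) := by
  have hκ1 := one_le_kap p κ _ h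
  have h3 : (3 : ℝ) < (p : ℝ) := by exact_mod_cast h.1
  have h1 := sum_even2 (p : ℝ) h3 (finrank (ZMod p) W) N0 (finrank (ZMod p) X)
    (fun m => Finset.Icc (finrank (ZMod p) W - ph (c + 2 * m)) (finrank (ZMod p) W)) (by
      intro m hm s hs
      rw [Finset.mem_Icc] at hm hs
      exact ⟨hs.2, hN0 m hm.1 s hs.1⟩)
  refine le_trans ?_ (mul_le_mul_of_nonneg_left h1 (by linarith))
  rw [Finset.mul_sum]
  refine Finset.sum_le_sum fun m _ => ?_
  have h2 := card_tau p κ b hb c hst h (2 * m)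
  rw [div_le_iff₀ (by positivity)]
  refine h2.trans (le_of_eq ?_)
  rw [mul_assoc, Finset.sum_mul]
  congr 1
  refine Finset.sum_congr rfl fun s _ => ?_
  have : (p : ℝ) ^ m ≠ 0 := by positivity
  field_simp

/-- `EE` on a proper subspace -/
theorem ee_pos (κ : ℝ) (b : X →ₗ[ZMod p] X →ₗ[ZMod p] W) (hb : ∀ x y, b x y = b y x)
    (c : ℕ) (hc : 1 ≤ c) (hst : Stb ph c b) (h : Hyp p κ (finrank (ZMod p) W)) :
    EE p b ≤ κ / (1 - 3 / (p : ℝ)) * (p : ℝ) ^ ph c *
      (Nat.fib (2 * finrank (ZMod p) W + 1) : ℝ) := by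
  have hκ1 := one_le_kap p κ _ h
  have h3 : (3 : ℝ) < (p : ℝ) := by exact_mod_cast h.1
  set r := finrank (ZMod p) W with hr
  set N0 := r - ph c with hN0
  have h1 := ee_terms p κ b hb c hst h N0 (by
    intro m hm s hs
    have : ph (c + 2 * m) = ph c + m := by unfold ph; omega
    omega)
  have h2 := card_zero p b c hst
  rw [← hr, ← hN0] at h2
  have h4 : ∑ N ∈ Finset.Icc N0 (finrank (ZMod p) X + r),
        (p : ℝ) ^ r / (p : ℝ) ^ N * ((Nat.fib (2 * N + 1) : ℝ) - 1) =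
      ∑ N ∈ Finset.Icc N0 (finrank (ZMod p) X + r),
        (p : ℝ) ^ r / (p : ℝ) ^ N * (Nat.fib (2 * N + 1) : ℝ) -
      ∑ N ∈ Finset.Icc N0 (finrank (ZMod p) X + r), (p : ℝ) ^ r / (p : ℝ) ^ N := by
    rw [← Finset.sum_sub_distrib]
    refine Finset.sum_congr rfl fun N _ => ?_
    ring
  have h5 : (p : ℝ) ^ r / (p : ℝ) ^ N0 ≤
      ∑ N ∈ Finset.Icc N0 (finrank (ZMod p) X + r), (p : ℝ) ^ r / (p : ℝ) ^ N :=
    Finset.single_le_sum (f := fun N => (p : ℝ) ^ r / (p : ℝ) ^ N) (fun N _ => by positivity)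
      (Finset.mem_Icc.2 ⟨le_rfl, by omega⟩)
  have h6 := sum_fib1 (p : ℝ) h3 r N0 (finrank (ZMod p) X + r)
  have hden : 0 < 1 - 3 / (p : ℝ) := by
    rw [sub_pos, div_lt_one (by linarith)]
    exact h3
  have h7 : EE p b ≤ κ * ((p : ℝ) ^ r / (p : ℝ) ^ N0 * (Nat.fib (2 * N0 + 1) : ℝ) / (1 - 3 / (p : ℝ))) := by
    rw [ee_split]
    rw [h4] at h1
    have h8 : κ * (∑ N ∈ Finset.Icc N0 (finrank (ZMod p) X + r),
        (p : ℝ) ^ r / (p : ℝ) ^ N * (Nat.fib (2 * N + 1) : ℝ)) ≤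
        κ * ((p : ℝ) ^ r / (p : ℝ) ^ N0 * (Nat.fib (2 * N0 + 1) : ℝ) / (1 - 3 / (p : ℝ))) :=
      mul_le_mul_of_nonneg_left h6 (by linarith)
    have h9 : (p : ℝ) ^ r / (p : ℝ) ^ N0 ≤ κ * ∑ N ∈ Finset.Icc N0 (finrank (ZMod p) X + r),
        (p : ℝ) ^ r / (p : ℝ) ^ N := by
      calc (p : ℝ) ^ r / (p : ℝ) ^ N0 ≤
          ∑ N ∈ Finset.Icc N0 (finrank (ZMod p) X + r), (p : ℝ) ^ r / (p : ℝ) ^ N := h5
        _ ≤ _ := le_mul_of_one_le_left (Finset.sum_nonneg fun N _ => by positivity) hκ1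
    rw [mul_sub] at h1
    linarith
  refine h7.trans ?_
  have h10 : (p : ℝ) ^ r / (p : ℝ) ^ N0 ≤ (p : ℝ) ^ ph c := by
    rw [div_le_iff₀ (by positivity), ← pow_add]
    exact pow_le_pow_right₀ (by linarith) (by omega)
  have h11 : (Nat.fib (2 * N0 + 1) : ℝ) ≤ (Nat.fib (2 * r + 1) : ℝ) := by
    exact_mod_cast Nat.fib_mono (by omega)
  calc κ * ((p : ℝ) ^ r / (p : ℝ) ^ N0 * (Nat.fib (2 * N0 + 1) : ℝ) / (1 - 3 / (p : ℝ))) =
      κ / (1 - 3 / (p : ℝ)) * (((p : ℝ) ^ r / (p : ℝ) ^ N0) * (Nat.fib (2 * N0 + 1) : ℝ)) := by ring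
    _ ≤ κ / (1 - 3 / (p : ℝ)) * ((p : ℝ) ^ ph c * (Nat.fib (2 * r + 1) : ℝ)) := by
        refine mul_le_mul_of_nonneg_left ?_ (div_nonneg (by linarith) hden.le)
        exact mul_le_mul h10 h11 (Nat.cast_nonneg _) (by positivity)
    _ = _ := by ring

/-- `EE` on the whole space -/
theorem ee_zero (κ : ℝ) (b : X →ₗ[ZMod p] X →ₗ[ZMod p] W) (hb : ∀ x y, b x y = b y x)
    (hst : Stb ph 0 b) (h : Hyp p κ (finrank (ZMod p) W)) :
    EE p b ≤ (Nat.card {l : Dual (ZMod p) W // rk (TT b) l = 0} : ℝ) +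
      κ / (1 - 3 / (p : ℝ)) * ((Nat.fib (2 * finrank (ZMod p) W + 3) : ℝ) / p) := by
  have hκ1 := one_le_kap p κ _ h
  have h3 : (3 : ℝ) < (p : ℝ) := by exact_mod_cast h.1
  set r := finrank (ZMod p) W with hr
  have h1 := ee_terms p κ b hb 0 hst h (r + 1) (by
    intro m hm s hs
    have : ph (0 + 2 * m) = m - 1 := by unfold ph; omega
    omega)
  have h6 := sum_fib1 (p : ℝ) h3 r (r + 1) (finrank (ZMod p) X + r)
  rw [ee_split]
  have h4 : ∑ N ∈ Finset.Icc (r + 1) (finrank (ZMod p) X + r),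
        (p : ℝ) ^ r / (p : ℝ) ^ N * ((Nat.fib (2 * N + 1) : ℝ) - 1) ≤
      ∑ N ∈ Finset.Icc (r + 1) (finrank (ZMod p) X + r),
        (p : ℝ) ^ r / (p : ℝ) ^ N * (Nat.fib (2 * N + 1) : ℝ) := by
    refine Finset.sum_le_sum fun N _ => ?_
    refine mul_le_mul_of_nonneg_left (by linarith) (by positivity)
  have h5 : (p : ℝ) ^ r / (p : ℝ) ^ (r + 1) = 1 / (p : ℝ) := by
    rw [pow_succ]
    have : (p : ℝ) ≠ 0 := by linarith
    field_simp
  have h7 : 2 * (r + 1) + 1 = 2 * r + 3 := by ring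
  rw [h5, h7] at h6
  have h8 : κ * ∑ N ∈ Finset.Icc (r + 1) (finrank (ZMod p) X + r),
        (p : ℝ) ^ r / (p : ℝ) ^ N * ((Nat.fib (2 * N + 1) : ℝ) - 1) ≤
      κ * (1 / (p : ℝ) * (Nat.fib (2 * r + 3) : ℝ) / (1 - 3 / (p : ℝ))) :=
    mul_le_mul_of_nonneg_left (h4.trans h6) (by linarith)
  have h9 : κ * (1 / (p : ℝ) * (Nat.fib (2 * r + 3) : ℝ) / (1 - 3 / (p : ℝ))) =
      κ / (1 - 3 / (p : ℝ)) * ((Nat.fib (2 * r + 3) : ℝ) / p) := by ring
  linarith

/-- the forms of odd rank -/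
theorem oo_zero (κ : ℝ) (b : X →ₗ[ZMod p] X →ₗ[ZMod p] W) (hb : ∀ x y, b x y = b y x)
    (hst : Stb ph 0 b) (h : Hyp p κ (finrank (ZMod p) W)) :
    ∑ m ∈ Finset.range (finrank (ZMod p) X + 1),
        (Nat.card {l : Dual (ZMod p) W // rk (TT b) l = 2 * m + 1} : ℝ) / (p : ℝ) ^ m ≤
      κ / (1 - 3 / (p : ℝ)) * (Nat.fib (2 * finrank (ZMod p) W + 2) : ℝ) := by
  have hκ1 := one_le_kap p κ _ h
  have h3 : (3 : ℝ) < (p : ℝ) := by exact_mod_cast h.1
  set r := finrank (ZMod p) W with hr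
  have h1 := sum_odd2 (p : ℝ) h3 r r (finrank (ZMod p) X)
    (fun m => Finset.Icc (r - ph (0 + (2 * m + 1))) r) (by
      intro m hm s hs
      rw [Finset.mem_Icc] at hs
      have : ph (0 + (2 * m + 1)) = m := by unfold ph; omega
      exact ⟨hs.2, by omega⟩)
  have h6 := sum_fib2 (p : ℝ) h3 r r (finrank (ZMod p) X + r)
  have h5 : (p : ℝ) ^ r / (p : ℝ) ^ r = 1 := div_self (by positivity)
  rw [h5, one_mul] at h6
  have h8 := mul_le_mul_of_nonneg_left (h1.trans h6) (show (0 : ℝ) ≤ κ by linarith)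
  have h9 : κ * ((Nat.fib (2 * r + 2) : ℝ) / (1 - 3 / (p : ℝ))) =
      κ / (1 - 3 / (p : ℝ)) * (Nat.fib (2 * r + 2) : ℝ) := by ring
  rw [h9] at h8
  refine le_trans ?_ h8
  rw [Finset.mul_sum]
  refine Finset.sum_le_sum fun m _ => ?_
  have h2 := card_tau p κ b hb 0 hst h (2 * m + 1)
  rw [div_le_iff₀ (by positivity)]
  refine h2.trans (le_of_eq ?_)
  rw [mul_assoc, Finset.sum_mul]
  congr 1
  refine Finset.sum_congr rfl fun s _ => ?_
  have : (p : ℝ) ^ m ≠ 0 := by positivity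
  rw [mul_assoc, div_mul_cancel₀ _ this]

end QSys
end

section

/-!
Theorem B1, Lemma 10: existence of a nonsingular zero over `F_p`.
-/

set_option autoImplicit false

open Module

namespace QSys

variable (p : ℕ) [Fact p.Prime] {X W : Type} [AddCommGroup X] [Module (ZMod p) X]
  [FiniteDimensional (ZMod p) X] [AddCommGroup W] [Module (ZMod p) W] [FiniteDimensional (ZMod p) W]

theorem rk_zero_iff (b : X →ₗ[ZMod p] X →ₗ[ZMod p] W) (hst : Stb ph 0 b) (l : Dual (ZMod p) W)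
    (hl : rk (TT b) l = 0) : l = 0 := by
  have h1 := hst ⊤ (Submodule.span (ZMod p) {l}) (by
    intro l' hl' x _ y _
    obtain ⟨c, rfl⟩ := Submodule.mem_span_singleton.1 hl'
    have h2 : TT b l = 0 := by
      rw [rk, Submodule.finrank_eq_zero, LinearMap.range_eq_bot] at hl
      exact hl
    have h3 := LinearMap.congr_fun (LinearMap.congr_fun h2 x) y
    simp only [TT_apply, LinearMap.zero_apply] at h3
    simp [h3])
  rw [finrank_top, Nat.sub_self, Nat.add_zero] at h1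
  have h4 : finrank (ZMod p) (Submodule.span (ZMod p) {l}) = 0 := by
    have : ph 0 = 0 := rfl
    omega
  rw [Submodule.finrank_eq_zero, Submodule.span_singleton_eq_bot] at h4
  exact h4

theorem card_rk_zero (b : X →ₗ[ZMod p] X →ₗ[ZMod p] W) (hst : Stb ph 0 b) :
    Nat.card {l : Dual (ZMod p) W // rk (TT b) l = 0} = 1 := by
  have hrk0 : rk (TT b) (0 : Dual (ZMod p) W) = 0 := by
    rw [rk, map_zero, LinearMap.range_zero, finrank_bot]
  rw [Nat.card_eq_one_iff_unique]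
  exact ⟨⟨fun a b' => Subtype.ext ((rk_zero_iff p b hst _ a.2).trans
    (rk_zero_iff p b hst _ b'.2).symm)⟩, ⟨⟨0, hrk0⟩⟩⟩

/-- singular zeros lie in the radicals; every one is counted at least `p - 1` times -/
theorem sing_count (b : X →ₗ[ZMod p] X →ₗ[ZMod p] W)
    (hsing : ∀ x, b x x = 0 → ¬ Function.Surjective (b x)) (M : ℕ → ℝ)
    (hM : ∀ l : Dual (ZMod p) W, l ≠ 0 →
      (Nat.card {x : rad b l // res b (rad b l) x x = 0} : ℝ) ≤ M (rk (TT b) l))
    (hrk : ∀ l : Dual (ZMod p) W, l ≠ 0 → 1 ≤ rk (TT b) l) :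
    ((p : ℝ) - 1) * (Nat.card {x : X // b x x = 0} : ℝ) ≤
      ∑ τ ∈ Finset.Icc 1 (finrank (ZMod p) X),
        (Nat.card {l : Dual (ZMod p) W // rk (TT b) l = τ} : ℝ) * M τ := by
  classical
  have hfX : Finite X := Module.finite_of_finite (ZMod p)
  have hfL : Finite (Dual (ZMod p) W) := Module.finite_of_finite (ZMod p)
  let _ := Fintype.ofFinite X
  let _ := Fintype.ofFinite (Dual (ZMod p) W)
  have hp1 : 1 ≤ p := (Fact.out : p.Prime).one_lt.le
  set Z : Finset X := Finset.univ.filter fun x => b x x = 0 with hZ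
  set NZ : Finset (Dual (ZMod p) W) := Finset.univ.filter fun l => l ≠ 0 with hNZ
  have h1 : ∀ x ∈ Z, p - 1 ≤ (NZ.filter fun l => x ∈ rad b l).card := by
    intro x hx
    have hx0 := (Finset.mem_filter.1 hx).2
    have hns := hsing x hx0
    have hlt : LinearMap.range (b x) < ⊤ := by
      rw [lt_top_iff_ne_top]
      intro h
      exact hns (LinearMap.range_eq_top.1 h)
    obtain ⟨l, hl0, hl⟩ := Submodule.exists_le_ker_of_lt_top _ hlt
    have hinj : Function.Injective (fun a : (ZMod p)ˣ => (a : ZMod p) • l) := by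
      intro a a' haa
      exact Units.ext (smul_left_injective (ZMod p) hl0 haa)
    have h2 : (Finset.univ.image (fun a : (ZMod p)ˣ => (a : ZMod p) • l)).card = p - 1 := by
      rw [Finset.card_image_of_injective _ hinj, Finset.card_univ, ZMod.card_units_eq_totient,
        Nat.totient_prime (Fact.out : p.Prime)]
    rw [← h2]
    refine Finset.card_le_card fun d hd => ?_
    obtain ⟨a, _, rfl⟩ := Finset.mem_image.1 hd
    rw [Finset.mem_filter, hNZ, Finset.mem_filter]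
    refine ⟨⟨Finset.mem_univ _, ?_⟩, ?_⟩
    · exact smul_ne_zero a.ne_zero hl0
    · rw [mem_rad]
      intro y
      have h3 : l (b x y) = 0 := LinearMap.mem_ker.1 (hl ⟨y, rfl⟩)
      rw [LinearMap.smul_apply, h3, smul_zero]
  have h4 : (p - 1) * Z.card ≤ ∑ l ∈ NZ, (Z.filter fun x => x ∈ rad b l).card := by
    have h5 := Finset.sum_card_bipartiteAbove_eq_sum_card_bipartiteBelow
      (s := Z) (t := NZ) (fun (x : X) (l : Dual (ZMod p) W) => x ∈ rad b l)
    calc (p - 1) * Z.card = ∑ x ∈ Z, (p - 1) := by rw [Finset.sum_const, smul_eq_mul, mul_comm]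
      _ ≤ ∑ x ∈ Z, (NZ.filter fun l => x ∈ rad b l).card := Finset.sum_le_sum h1
      _ = _ := h5
  have h6 : ∀ l ∈ NZ, ((Z.filter fun x => x ∈ rad b l).card : ℝ) ≤ M (rk (TT b) l) := by
    intro l hl
    refine le_trans (le_of_eq ?_) (hM l (Finset.mem_filter.1 hl).2)
    have h7 : (Z.filter fun x => x ∈ rad b l).card =
        Nat.card {x : rad b l // res b (rad b l) x x = 0} := by
      rw [hZ, Finset.filter_filter, ← Fintype.card_subtype, ← Nat.card_eq_fintype_card]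
      exact Nat.card_congr ⟨fun x => ⟨⟨x.1, x.2.2⟩, x.2.1⟩, fun x => ⟨x.1.1, x.2, x.1.2⟩,
        fun x => rfl, fun x => rfl⟩
    rw [h7]
  have hZc : (Nat.card {x : X // b x x = 0} : ℝ) = (Z.card : ℝ) := by
    rw [Nat.card_eq_fintype_card, Fintype.card_subtype]
  have h8 : ((p : ℝ) - 1) * (Z.card : ℝ) ≤ ∑ l ∈ NZ, M (rk (TT b) l) := by
    have h9 : (((p - 1 : ℕ) : ℝ)) = (p : ℝ) - 1 := by
      rw [Nat.cast_sub hp1]
      simp
    rw [← h9]
    calc (((p - 1 : ℕ) : ℝ)) * (Z.card : ℝ) ≤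
        ∑ l ∈ NZ, ((Z.filter fun x => x ∈ rad b l).card : ℝ) := by exact_mod_cast h4
      _ ≤ _ := Finset.sum_le_sum h6
  rw [hZc]
  refine h8.trans (le_of_eq ?_)
  rw [← Finset.sum_fiberwise_of_maps_to (s := NZ)
    (t := Finset.Icc 1 (finrank (ZMod p) X)) (g := fun l => rk (TT b) l)
    (fun l hl => Finset.mem_Icc.2 ⟨hrk l (Finset.mem_filter.1 hl).2, rk_le_dim b l⟩)]
  refine Finset.sum_congr rfl fun τ hτ => ?_
  rw [Finset.mem_Icc] at hτ
  rw [Finset.sum_congr rfl (g := fun _ => M τ)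
    (fun l hl => by rw [(Finset.mem_filter.1 hl).2]), Finset.sum_const, nsmul_eq_mul,
    Nat.card_eq_fintype_card, Fintype.card_subtype]
  congr 3
  ext l
  simp only [hNZ, Finset.mem_filter, Finset.mem_univ, true_and]
  constructor
  · rintro ⟨_, h⟩
    exact h
  · intro h
    refine ⟨?_, h⟩
    rintro rfl
    have hrk0 : rk (TT b) (0 : Dual (ZMod p) W) = 0 := by
      rw [rk, map_zero, LinearMap.range_zero, finrank_bot]
    omega

/-- splitting a sum over `τ` according to the parity -/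
theorem sum_parity (n : ℕ) (N : ℕ → ℝ) (hN : ∀ τ, 0 ≤ N τ) (q : ℝ) (hq : 0 < q) :
    ∑ τ ∈ Finset.Icc 1 n, N τ * (q ^ ph τ / q ^ τ) ≤
      (1 / q) * (∑ m ∈ Finset.Icc 1 n, N (2 * m) / q ^ m +
        ∑ m ∈ Finset.range (n + 1), N (2 * m + 1) / q ^ m) := by
  classical
  have h1 : ∀ τ, 1 ≤ τ → q ^ ph τ / q ^ τ = (1 / q) * (1 / q ^ (τ / 2)) := by
    intro τ hτ
    have h2 : τ = ph τ + (τ / 2 + 1) := by unfold ph; omega
    rw [div_eq_iff (by positivity)]
    conv_rhs => rw [h2]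
    rw [pow_add, pow_succ]
    have e1 : q ^ ((ph τ + (τ / 2 + 1)) / 2) = q ^ (τ / 2) := by rw [← h2]
    rw [e1]
    field_simp
  rw [mul_add, Finset.mul_sum, Finset.mul_sum]
  have h3 : ∑ τ ∈ Finset.Icc 1 n, N τ * (q ^ ph τ / q ^ τ) =
      ∑ τ ∈ (Finset.Icc 1 n).filter (fun τ => Even τ), N τ * (q ^ ph τ / q ^ τ) +
      ∑ τ ∈ (Finset.Icc 1 n).filter (fun τ => ¬ Even τ), N τ * (q ^ ph τ / q ^ τ) :=
    (Finset.sum_filter_add_sum_filter_not _ _ _).symm
  rw [h3]
  refine add_le_add ?_ ?_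
  · have h4 : ∑ τ ∈ (Finset.Icc 1 n).filter (fun τ => Even τ), N τ * (q ^ ph τ / q ^ τ) =
        ∑ m ∈ ((Finset.Icc 1 n).filter (fun τ => Even τ)).image (fun τ => τ / 2),
          (1 / q) * (N (2 * m) / q ^ m) := by
      rw [Finset.sum_image]
      · refine Finset.sum_congr rfl fun τ hτ => ?_
        rw [Finset.mem_filter, Finset.mem_Icc] at hτ
        rw [h1 τ hτ.1.1, Nat.two_mul_div_two_of_even hτ.2]
        ring
      · intro τ hτ τ' hτ' h
        rw [Finset.mem_coe, Finset.mem_filter] at hτ hτ'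
        obtain ⟨a, ha⟩ := hτ.2
        obtain ⟨a', ha'⟩ := hτ'.2
        simp only at h
        omega
    rw [h4]
    refine Finset.sum_le_sum_of_subset_of_nonneg ?_ fun m _ _ => ?_
    · intro m hm
      obtain ⟨τ, hτ, rfl⟩ := Finset.mem_image.1 hm
      rw [Finset.mem_filter, Finset.mem_Icc] at hτ
      obtain ⟨a, ha⟩ := hτ.2
      rw [Finset.mem_Icc]
      omega
    · have := hN (2 * m)
      positivity
  · have h4 : ∑ τ ∈ (Finset.Icc 1 n).filter (fun τ => ¬ Even τ), N τ * (q ^ ph τ / q ^ τ) =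
        ∑ m ∈ ((Finset.Icc 1 n).filter (fun τ => ¬ Even τ)).image (fun τ => τ / 2),
          (1 / q) * (N (2 * m + 1) / q ^ m) := by
      rw [Finset.sum_image]
      · refine Finset.sum_congr rfl fun τ hτ => ?_
        rw [Finset.mem_filter, Finset.mem_Icc, Nat.not_even_iff_odd] at hτ
        rw [h1 τ hτ.1.1, Nat.two_mul_div_two_add_one_of_odd hτ.2]
        ring
      · intro τ hτ τ' hτ' h
        rw [Finset.mem_coe, Finset.mem_filter, Nat.not_even_iff_odd] at hτ hτ'
        obtain ⟨a, ha⟩ := hτ.2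
        obtain ⟨a', ha'⟩ := hτ'.2
        simp only at h
        omega
    rw [h4]
    refine Finset.sum_le_sum_of_subset_of_nonneg ?_ fun m _ _ => ?_
    · intro m hm
      obtain ⟨τ, hτ, rfl⟩ := Finset.mem_image.1 hm
      rw [Finset.mem_filter, Finset.mem_Icc] at hτ
      rw [Finset.mem_range]
      omega
    · have := hN (2 * m + 1)
      positivity

/-- the main inequality: without a nonsingular zero we get a numerical bound -/
theorem nonsing_ineq (hp : p ≠ 2) (κ : ℝ) (b : X →ₗ[ZMod p] X →ₗ[ZMod p] W)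
    (hb : ∀ x y, b x y = b y x) (hst : Stb ph 0 b) (h : Hyp p κ (finrank (ZMod p) W))
    (hsing : ∀ x, b x x = 0 → ¬ Function.Surjective (b x)) :
    ((p : ℝ) - 1) * (1 - κ / (1 - 3 / (p : ℝ)) * ((Nat.fib (2 * finrank (ZMod p) W + 3) : ℝ) / p)) ≤
      κ / (1 - 3 / (p : ℝ)) * (Nat.fib (2 * finrank (ZMod p) W + 1) : ℝ) * (1 / (p : ℝ)) *
      (κ / (1 - 3 / (p : ℝ)) * ((Nat.fib (2 * finrank (ZMod p) W + 3) : ℝ) / p) +
        κ / (1 - 3 / (p : ℝ)) * (Nat.fib (2 * finrank (ZMod p) W + 2) : ℝ)) := by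
  have hκ1 := one_le_kap p κ _ h
  have h3 : (3 : ℝ) < (p : ℝ) := by exact_mod_cast h.1
  have hden : 0 < 1 - 3 / (p : ℝ) := by
    rw [sub_pos, div_lt_one (by linarith)]
    exact h3
  have hk2 : 0 ≤ κ / (1 - 3 / (p : ℝ)) := div_nonneg (by linarith) hden.le
  set K := κ / (1 - 3 / (p : ℝ)) with hK
  set r := finrank (ZMod p) W with hr
  set n := finrank (ZMod p) X with hn
  have hlow := count_low p hp b hb
  have hz := ee_zero p κ b hb hst h
  rw [card_rk_zero p b hst, Nat.cast_one] at hz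
  have hoo := oo_zero p κ b hb hst h
  rw [← hr, ← hK] at hz hoo
  have hrk : ∀ l : Dual (ZMod p) W, l ≠ 0 → 1 ≤ rk (TT b) l := by
    intro l hl
    by_contra hlt
    exact hl (rk_zero_iff p b hst l (by omega))
  have hs := sing_count p b hsing
    (fun τ => (p : ℝ) ^ n / (p : ℝ) ^ r * (K * (Nat.fib (2 * r + 1) : ℝ)) * ((p : ℝ) ^ ph τ / (p : ℝ) ^ τ))
    (by
      intro l hl
      have h4 := count_up p hp (res b (rad b l)) (fun x y => hb x y)
      have h5 := finrank_rad b l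
      have h6 := stb_res ph 0 b hst (rad b l)
      have h7 : 0 + (finrank (ZMod p) X - finrank (ZMod p) (rad b l)) = rk (TT b) l := by omega
      rw [h7] at h6
      have h8 := ee_pos p κ (res b (rad b l)) (fun x y => hb x y) (rk (TT b) l) (hrk l hl) h6 h
      rw [← hr, ← hK] at h8
      have h9 : (p : ℝ) ^ n = (p : ℝ) ^ finrank (ZMod p) (rad b l) * (p : ℝ) ^ rk (TT b) l := by
        rw [← pow_add, h5]
      have h10 : (Nat.card {x : rad b l // res b (rad b l) x x = 0} : ℝ) * (p : ℝ) ^ r ≤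
          (p : ℝ) ^ finrank (ZMod p) (rad b l) * (K * (p : ℝ) ^ ph (rk (TT b) l) *
            (Nat.fib (2 * r + 1) : ℝ)) :=
        h4.trans (mul_le_mul_of_nonneg_left h8 (by positivity))
      have hpr : (0 : ℝ) < (p : ℝ) ^ r := by positivity
      refine le_of_mul_le_mul_right (h10.trans (le_of_eq ?_)) hpr
      rw [h9]
      have e1 : (p : ℝ) ^ r ≠ 0 := by positivity
      have e2 : (p : ℝ) ^ rk (TT b) l ≠ 0 := by positivity
      field_simp) hrk
  have h11 : ∑ τ ∈ Finset.Icc 1 n, (Nat.card {l : Dual (ZMod p) W // rk (TT b) l = τ} : ℝ) *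
      ((p : ℝ) ^ n / (p : ℝ) ^ r * (K * (Nat.fib (2 * r + 1) : ℝ)) * ((p : ℝ) ^ ph τ / (p : ℝ) ^ τ)) =
      (p : ℝ) ^ n / (p : ℝ) ^ r * (K * (Nat.fib (2 * r + 1) : ℝ)) *
      ∑ τ ∈ Finset.Icc 1 n, (Nat.card {l : Dual (ZMod p) W // rk (TT b) l = τ} : ℝ) *
        ((p : ℝ) ^ ph τ / (p : ℝ) ^ τ) := by
    rw [Finset.mul_sum]
    refine Finset.sum_congr rfl fun τ _ => ?_
    ring
  rw [h11] at hs
  have h12 := sum_parity n (fun τ => (Nat.card {l : Dual (ZMod p) W // rk (TT b) l = τ} : ℝ))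
    (fun τ => Nat.cast_nonneg _) (p : ℝ) (by linarith)
  have h13 : ∑ m ∈ Finset.Icc 1 n, (Nat.card {l : Dual (ZMod p) W // rk (TT b) l = 2 * m} : ℝ) /
      (p : ℝ) ^ m ≤ K * ((Nat.fib (2 * r + 3) : ℝ) / p) := by
    have h14 := ee_split p b
    rw [card_rk_zero p b hst, Nat.cast_one] at h14
    linarith
  have h15 : ∑ τ ∈ Finset.Icc 1 n, (Nat.card {l : Dual (ZMod p) W // rk (TT b) l = τ} : ℝ) *
        ((p : ℝ) ^ ph τ / (p : ℝ) ^ τ) ≤
      (1 / (p : ℝ)) * (K * ((Nat.fib (2 * r + 3) : ℝ) / p) + K * (Nat.fib (2 * r + 2) : ℝ)) :=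
    h12.trans (mul_le_mul_of_nonneg_left (add_le_add h13 hoo) (by positivity))
  have hZlow : (p : ℝ) ^ n / (p : ℝ) ^ r * (1 - K * ((Nat.fib (2 * r + 3) : ℝ) / p)) ≤
      (Nat.card {x : X // b x x = 0} : ℝ) := by
    have hpr : (0 : ℝ) < (p : ℝ) ^ r := by positivity
    rw [div_mul_eq_mul_div, div_le_iff₀ hpr]
    refine le_trans (mul_le_mul_of_nonneg_left ?_ (by positivity)) hlow
    linarith
  have hpn : (0 : ℝ) < (p : ℝ) ^ n / (p : ℝ) ^ r := by positivity
  refine le_of_mul_le_mul_left ?_ hpn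
  calc (p : ℝ) ^ n / (p : ℝ) ^ r * (((p : ℝ) - 1) * (1 - K * ((Nat.fib (2 * r + 3) : ℝ) / p))) =
      ((p : ℝ) - 1) * ((p : ℝ) ^ n / (p : ℝ) ^ r * (1 - K * ((Nat.fib (2 * r + 3) : ℝ) / p))) := by ring
    _ ≤ ((p : ℝ) - 1) * (Nat.card {x : X // b x x = 0} : ℝ) :=
        mul_le_mul_of_nonneg_left hZlow (by linarith)
    _ ≤ (p : ℝ) ^ n / (p : ℝ) ^ r * (K * (Nat.fib (2 * r + 1) : ℝ)) *
      ∑ τ ∈ Finset.Icc 1 n, (Nat.card {l : Dual (ZMod p) W // rk (TT b) l = τ} : ℝ) *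
        ((p : ℝ) ^ ph τ / (p : ℝ) ^ τ) := hs
    _ ≤ (p : ℝ) ^ n / (p : ℝ) ^ r * (K * (Nat.fib (2 * r + 1) : ℝ)) *
      ((1 / (p : ℝ)) * (K * ((Nat.fib (2 * r + 3) : ℝ) / p) + K * (Nat.fib (2 * r + 2) : ℝ))) :=
        mul_le_mul_of_nonneg_left h15 (by positivity)
    _ = _ := by ring

end QSys
end
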