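import Mathlib
import Pool.Agent.Lib.MP_c77682_nt.B.NonSing2
import Pool.Agent.Lib.MP_c77682_nt.B.Main2

section

/-!
Theorem B2, numerical estimates. `n = 4 r + s`, `(s + 5)^(2 n) ≤ q^s`.

`binom (r + τ) τ * y^τ ≤ (1 + y)^(r + τ) ≤ exp (y (r + τ))` with `y = 8 / (s + 8)`.
-/

set_option autoImplicit false

namespace QSys

theorem choose_exp (r τ : ℕ) (y : ℝ) (hy : 0 < y) :
    ((τ + r).choose τ : ℝ) ≤ (1 / y) ^ τ * Real.exp (y * (r + τ)) := by
  have h1 : ((τ + r).choose τ : ℝ) * y ^ τ ≤ (y + 1) ^ (τ + r) := by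
    rw [add_pow]
    have h2 := Finset.single_le_sum (f := fun m => y ^ m * 1 ^ (τ + r - m) * ((τ + r).choose m : ℝ))
      (s := Finset.range (τ + r + 1)) (fun m _ => by positivity)
      (Finset.mem_range.2 (show τ < τ + r + 1 by omega))
    simp only [one_pow, mul_one] at h2 ⊢
    linarith
  have h3 : (y + 1) ^ (τ + r) ≤ Real.exp (y * (r + τ)) := by
    have h4 : (y + 1) ^ (τ + r) ≤ (Real.exp y) ^ (τ + r) :=
      pow_le_pow_left₀ (by linarith) (Real.add_one_le_exp y) _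
    rw [← Real.exp_nat_mul] at h4
    refine h4.trans (le_of_eq ?_)
    congr 1
    push_cast
    ring
  have h5 : (0 : ℝ) < y ^ τ := by positivity
  rw [one_div, inv_pow, ← div_eq_inv_mul, le_div_iff₀ h5]
  exact h1.trans h3

theorem exp_one_lt : Real.exp 1 < 272 / 100 := by
  have := Real.exp_one_lt_d9
  linarith

/-- the ratio `e (s + 8) / (8 (s + 5))` -/
theorem ratio_le (s : ℕ) (hs : 1 ≤ s) :
    (((s : ℝ) + 8) / 8 * Real.exp 1) ^ 2 ≤ 27 / 100 * ((s : ℝ) + 5) ^ 2 := by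
  have h1 : (1 : ℝ) ≤ (s : ℝ) := by exact_mod_cast hs
  have h2 := exp_one_lt
  have h3 : 0 < Real.exp 1 := Real.exp_pos 1
  have h4 : ((s : ℝ) + 8) / 8 * Real.exp 1 ≤ 51 / 100 * ((s : ℝ) + 5) - 0 := by
    have : ((s : ℝ) + 8) / 8 * Real.exp 1 ≤ ((s : ℝ) + 8) / 8 * (272 / 100) :=
      mul_le_mul_of_nonneg_left h2.le (by linarith)
    nlinarith
  have h5 : 0 ≤ ((s : ℝ) + 8) / 8 * Real.exp 1 := by positivity
  nlinarith

/-- Lemma (V): from a bound of `A^s` to a bound of `A / q^J` -/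
theorem lemV (q A : ℝ) (hq : 0 < q) (hA : 0 ≤ A) (n s J w : ℕ) (hs : 1 ≤ s)
    (hqs : ((s : ℝ) + 5) ^ (2 * n) ≤ q ^ s)
    (hAs : A ^ s ≤ (((s : ℝ) + 8) / 8 * Real.exp 1) ^ (2 * (J * n))) (hw : s * w ≤ J * n) :
    A / q ^ J ≤ (27 / 100) ^ w := by
  have h1 : (1 : ℝ) ≤ (s : ℝ) := by exact_mod_cast hs
  have hr := ratio_le s hs
  have hs5 : (0 : ℝ) < (s : ℝ) + 5 := by linarith
  have h2 : (A / q ^ J) ^ s ≤ ((27 / 100 : ℝ) ^ w) ^ s := by
    rw [div_pow, div_le_iff₀ (by positivity)]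
    calc A ^ s ≤ (((s : ℝ) + 8) / 8 * Real.exp 1) ^ (2 * (J * n)) := hAs
      _ = ((((s : ℝ) + 8) / 8 * Real.exp 1) ^ 2) ^ (J * n) := by rw [← pow_mul]
      _ ≤ (27 / 100 * ((s : ℝ) + 5) ^ 2) ^ (J * n) := pow_le_pow_left₀ (by positivity) hr _
      _ = (27 / 100) ^ (J * n) * (((s : ℝ) + 5) ^ (2 * n)) ^ J := by
          rw [mul_pow, ← pow_mul, ← pow_mul]
          congr 2
          ring
      _ ≤ (27 / 100) ^ (s * w) * (q ^ s) ^ J := by
          refine mul_le_mul ?_ (pow_le_pow_left₀ (by positivity) hqs _) (by positivity) (by positivity)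
          exact pow_le_pow_of_le_one (by norm_num) (by norm_num) hw
      _ = ((27 / 100 : ℝ) ^ w) ^ s * (q ^ J) ^ s := by
          rw [← pow_mul, ← pow_mul, ← pow_mul]
          congr 2
          · ring
          · ring
  exact le_of_pow_le_pow_left₀ (by omega) (by positivity) h2

/-- Lemma (U) -/
theorem lemU (A : ℝ) (hA : 0 ≤ A) (n s J T R : ℕ) (hs : 1 ≤ s)
    (hAe : A ≤ (1 / (8 / ((s : ℝ) + 8))) ^ T * Real.exp (8 / ((s : ℝ) + 8) * (R + T)))
    (hT : T * s ≤ 2 * (J * n)) (hR : 8 * (s * (R + T)) ≤ 2 * (J * n) * (s + 8)) :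
    A ^ s ≤ (((s : ℝ) + 8) / 8 * Real.exp 1) ^ (2 * (J * n)) := by
  have h1 : (1 : ℝ) ≤ (s : ℝ) := by exact_mod_cast hs
  have hy : 1 / (8 / ((s : ℝ) + 8)) = ((s : ℝ) + 8) / 8 := by
    rw [one_div_div]
  rw [hy] at hAe
  have hb : (1 : ℝ) ≤ ((s : ℝ) + 8) / 8 := by
    rw [le_div_iff₀ (by norm_num)]
    linarith
  calc A ^ s ≤ ((((s : ℝ) + 8) / 8) ^ T * Real.exp (8 / ((s : ℝ) + 8) * (R + T))) ^ s :=
        pow_le_pow_left₀ hA hAe _
    _ = (((s : ℝ) + 8) / 8) ^ (T * s) * Real.exp (s * (8 / ((s : ℝ) + 8) * (R + T))) := by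
        rw [mul_pow, ← pow_mul, ← Real.exp_nat_mul]
    _ ≤ (((s : ℝ) + 8) / 8) ^ (2 * (J * n)) * Real.exp ((2 * (J * n) : ℕ)) := by
        refine mul_le_mul (pow_le_pow_right₀ hb hT) (Real.exp_le_exp.2 ?_) (Real.exp_pos _).le
          (by positivity)
        have h2 : (s : ℝ) * (8 / ((s : ℝ) + 8) * (R + T)) = 8 * (s * (R + T)) / ((s : ℝ) + 8) := by
          ring
        rw [h2, div_le_iff₀ (by linarith)]
        exact_mod_cast hR
    _ = (((s : ℝ) + 8) / 8 * Real.exp 1) ^ (2 * (J * n)) := by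
        rw [mul_pow, Real.exp_one_pow]

/-- the function `d ↦ floor (2 r d / n)` -/
def fi (r s d : ℕ) : ℕ := 2 * r * d / (4 * r + s)

theorem fi_mul_le (r s d : ℕ) : (4 * r + s) * fi r s d ≤ 2 * r * d := Nat.mul_div_le _ _

theorem fi_add (r s c t : ℕ) : fi r s (c + t) ≤ fi r s c + (t + 1) / 2 := by
  unfold fi
  rcases Nat.eq_zero_or_pos (4 * r + s) with h0 | h0
  · rw [h0]
    simp
  · have h1 : 2 * r * c / (4 * r + s) + (t + 1) / 2 =
        (2 * r * c + (4 * r + s) * ((t + 1) / 2)) / (4 * r + s) := by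
      rw [Nat.add_mul_div_left _ _ h0]
    rw [h1]
    apply Nat.div_le_div_right
    have h2 : 2 * r * t ≤ (4 * r + s) * ((t + 1) / 2) := by
      have h3 : t ≤ 2 * ((t + 1) / 2) := by omega
      calc 2 * r * t ≤ 2 * r * (2 * ((t + 1) / 2)) := Nat.mul_le_mul_left _ h3
        _ = 4 * r * ((t + 1) / 2) := by ring
        _ ≤ _ := Nat.mul_le_mul_right _ (by omega)
    rw [Nat.mul_add]
    omega

theorem fi_zero (r s : ℕ) : fi r s 0 = 0 := by simp [fi]

/-- (G1) -/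
theorem G1 (q : ℝ) (hq : 0 < q) (r s : ℕ) (hs : 1 ≤ s)
    (hqs : ((s : ℝ) + 5) ^ (2 * (4 * r + s)) ≤ q ^ s) (m : ℕ) (hm : 1 ≤ m) :
    ((2 * m + r).choose (2 * m) : ℝ) * (q ^ fi r s (2 * m) / q ^ m) ≤ (27 / 100) ^ m := by
  have h1 := fi_mul_le r s (2 * m)
  set φ := fi r s (2 * m) with hφ
  have h2 : φ ≤ m := by
    by_contra hlt
    push Not at hlt
    have h3 : (4 * r + s) * (m + 1) ≤ (4 * r + s) * φ := Nat.mul_le_mul_left _ hlt
    nlinarith
  obtain ⟨j, hj⟩ := Nat.exists_eq_add_of_le h2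
  have h4 : s * m ≤ j * (4 * r + s) := by
    have : (4 * r + s) * m = (4 * r + s) * φ + (4 * r + s) * j := by rw [hj]; ring
    nlinarith
  have hj1 : 1 ≤ j := by
    by_contra h0
    have : j = 0 := by omega
    rw [this, Nat.zero_mul] at h4
    have : 1 ≤ s * m := Nat.mul_pos hs hm
    omega
  have h5 : ((2 * m + r).choose (2 * m) : ℝ) * (q ^ φ / q ^ m) =
      ((2 * m + r).choose (2 * m) : ℝ) / q ^ j := by
    rw [hj, pow_add]
    have : q ^ φ ≠ 0 := by positivity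
    field_simp
  rw [h5]
  refine lemV q _ hq (Nat.cast_nonneg _) (4 * r + s) s j m hs hqs ?_ h4
  refine lemU _ (Nat.cast_nonneg _) (4 * r + s) s j (2 * m) r hs ?_ ?_ ?_
  · have := choose_exp r (2 * m) (8 / ((s : ℝ) + 8)) (by positivity)
    exact this
  · nlinarith
  · -- `8 s (r + 2m) ≤ 2 j n (s + 8)`
    have e1 : 8 * (s * r) ≤ 2 * (j * (4 * r + s)) * s := by
      calc 8 * (s * r) ≤ 2 * (1 * (4 * r + s)) * s := by nlinarith
        _ ≤ 2 * (j * (4 * r + s)) * s := by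
            apply Nat.mul_le_mul_right
            apply Nat.mul_le_mul_left
            exact Nat.mul_le_mul_right _ hj1
    nlinarith

/-- (G2) -/
theorem G2 (q : ℝ) (hq : 0 < q) (r s : ℕ) (hs : 1 ≤ s)
    (hqs : ((s : ℝ) + 5) ^ (2 * (4 * r + s)) ≤ q ^ s) (τ : ℕ) (hτ : 1 ≤ τ) :
    ((τ + r).choose τ : ℝ) * (q ^ fi r s τ / q ^ τ) * q ^ fi r s τ ≤ q * (27 / 100) ^ (τ + 1) := by
  have h1 := fi_mul_le r s τ
  set φ := fi r s τ with hφ
  have h2 : 2 * φ ≤ τ := by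
    by_contra hlt
    push Not at hlt
    have h3 : (4 * r + s) * (τ + 1) ≤ (4 * r + s) * (2 * φ) := Nat.mul_le_mul_left _ hlt
    nlinarith
  obtain ⟨j, hj⟩ := Nat.exists_eq_add_of_le h2
  have h4 : s * τ ≤ j * (4 * r + s) := by
    have : (4 * r + s) * τ = (4 * r + s) * (2 * φ) + (4 * r + s) * j := by
      conv_lhs => rw [hj]
      ring
    nlinarith
  have hj1 : 1 ≤ j := by
    by_contra h0
    have : j = 0 := by omega
    rw [this, Nat.zero_mul] at h4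
    have : 1 ≤ s * τ := Nat.mul_pos hs hτ
    omega
  have h5 : ((τ + r).choose τ : ℝ) * (q ^ φ / q ^ τ) * q ^ φ =
      q * (((τ + r).choose τ : ℝ) / q ^ (j + 1)) := by
    have e1 : q ^ τ = q ^ φ * q ^ φ * q ^ j := by
      conv_lhs => rw [hj]
      rw [pow_add, two_mul, pow_add]
    rw [e1, pow_succ]
    have : q ^ φ ≠ 0 := by positivity
    field_simp
  rw [h5]
  refine mul_le_mul_of_nonneg_left ?_ hq.le
  refine lemV q _ hq (Nat.cast_nonneg _) (4 * r + s) s (j + 1) (τ + 1) hs hqs ?_ (by nlinarith)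
  refine lemU _ (Nat.cast_nonneg _) (4 * r + s) s (j + 1) τ r hs ?_ ?_ ?_
  · exact choose_exp r τ (8 / ((s : ℝ) + 8)) (by positivity)
  · nlinarith
  · have e1 : 8 * (s * r) ≤ 2 * (j * (4 * r + s)) * s := by
      calc 8 * (s * r) ≤ 2 * (1 * (4 * r + s)) * s := by nlinarith
        _ ≤ 2 * (j * (4 * r + s)) * s := by
            apply Nat.mul_le_mul_right
            apply Nat.mul_le_mul_left
            exact Nat.mul_le_mul_right _ hj1
    nlinarith [Nat.zero_le ((4 * r + s) * s), Nat.zero_le (j * (4 * r + s))]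

/-- (G3) -/
theorem G3 (q : ℝ) (hq : 0 < q) (r s : ℕ) (hs : 1 ≤ s)
    (hqs : ((s : ℝ) + 5) ^ (2 * (4 * r + s)) ≤ q ^ s) (τ m : ℕ) (hτ : 1 ≤ τ) (hm : 1 ≤ m) :
    ((τ + r).choose τ : ℝ) * (q ^ fi r s τ / q ^ τ) *
      (((2 * m + r).choose (2 * m) : ℝ) * (q ^ fi r s (τ + 2 * m) / q ^ m)) ≤
      q * (27 / 100) ^ (τ + m + 1) := by
  have h1 := fi_mul_le r s τ
  have h1' := fi_mul_le r s (τ + 2 * m)
  set φ := fi r s τ with hφ
  set φ' := fi r s (τ + 2 * m) with hφ'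
  have h2 : φ + φ' ≤ τ + m := by
    by_contra hlt
    push Not at hlt
    have h3 : (4 * r + s) * (τ + m + 1) ≤ (4 * r + s) * (φ + φ') := Nat.mul_le_mul_left _ hlt
    nlinarith
  obtain ⟨j, hj⟩ := Nat.exists_eq_add_of_le h2
  have h4 : s * (τ + m) ≤ j * (4 * r + s) := by
    have : (4 * r + s) * (τ + m) = (4 * r + s) * (φ + φ') + (4 * r + s) * j := by
      conv_lhs => rw [hj]
      ring
    nlinarith
  have hj1 : 1 ≤ j := by
    by_contra h0
    have : j = 0 := by omega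
    rw [this, Nat.zero_mul] at h4
    have : 1 ≤ s * (τ + m) := Nat.mul_pos hs (by omega)
    omega
  have h5 : ((τ + r).choose τ : ℝ) * (q ^ φ / q ^ τ) *
      (((2 * m + r).choose (2 * m) : ℝ) * (q ^ φ' / q ^ m)) =
      q * ((((τ + r).choose τ : ℝ) * ((2 * m + r).choose (2 * m) : ℝ)) / q ^ (j + 1)) := by
    have e1 : q ^ τ * q ^ m = q ^ φ * q ^ φ' * q ^ j := by
      rw [← pow_add, hj, pow_add, pow_add]
    rw [pow_succ]
    have e2 : q ^ φ ≠ 0 := by positivity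
    have e3 : q ^ φ' ≠ 0 := by positivity
    have e4 : q ^ τ ≠ 0 := by positivity
    have e5 : q ^ m ≠ 0 := by positivity
    have e6 : q ^ j ≠ 0 := by positivity
    have e7 : ((τ + r).choose τ : ℝ) * (q ^ φ / q ^ τ) *
      (((2 * m + r).choose (2 * m) : ℝ) * (q ^ φ' / q ^ m)) =
      (((τ + r).choose τ : ℝ) * ((2 * m + r).choose (2 * m) : ℝ)) * (q ^ φ * q ^ φ') / (q ^ τ * q ^ m) := by
      field_simp
    rw [e7, e1]
    field_simp
  rw [h5]
  refine mul_le_mul_of_nonneg_left ?_ hq.le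
  refine lemV q _ hq (by positivity) (4 * r + s) s (j + 1) (τ + m + 1) hs hqs ?_ (by nlinarith)
  refine lemU _ (by positivity) (4 * r + s) s (j + 1) (τ + 2 * m) (2 * r) hs ?_ ?_ ?_
  · have c1 := choose_exp r τ (8 / ((s : ℝ) + 8)) (by positivity)
    have c2 := choose_exp r (2 * m) (8 / ((s : ℝ) + 8)) (by positivity)
    refine (mul_le_mul c1 c2 (Nat.cast_nonneg _) (by positivity)).trans (le_of_eq ?_)
    rw [pow_add (1 / (8 / ((s : ℝ) + 8))) τ (2 * m), mul_mul_mul_comm, ← Real.exp_add]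
    congr 2
    push_cast
    ring
  · nlinarith
  · -- `8 s (2 r + τ + 2 m) ≤ 2 (j + 1) n (s + 8)`
    have e1 : 8 * (s * (2 * r)) ≤ 4 * (4 * r + s) * s := by nlinarith
    have e2 : 4 * (4 * r + s) * s ≤ 2 * ((j + 1) * (4 * r + s)) * s := by
      have : 2 ≤ j + 1 := by omega
      calc 4 * (4 * r + s) * s = 2 * (2 * (4 * r + s)) * s := by ring
        _ ≤ _ := by
            apply Nat.mul_le_mul_right
            apply Nat.mul_le_mul_left
            exact Nat.mul_le_mul_right _ this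
    have e3 : 8 * (s * (τ + 2 * m)) ≤ 2 * ((j + 1) * (4 * r + s)) * 8 := by
      nlinarith [Nat.zero_le ((4 * r + s) * s), Nat.zero_le (s * τ)]
    have e4 : 8 * (s * (2 * r + (τ + 2 * m))) = 8 * (s * (2 * r)) + 8 * (s * (τ + 2 * m)) := by ring
    have e5 : 2 * ((j + 1) * (4 * r + s)) * (s + 8) =
      2 * ((j + 1) * (4 * r + s)) * s + 2 * ((j + 1) * (4 * r + s)) * 8 := by ring
    rw [e4, e5]
    omega

end QSys
end

section

/-!
Theorem B2: estimates for a general stability function `φ` and the main inequality.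
-/

set_option autoImplicit false

open Module

namespace QSys

variable (p : ℕ) [Fact p.Prime] {X W : Type} [AddCommGroup X] [Module (ZMod p) X]
  [FiniteDimensional (ZMod p) X] [AddCommGroup W] [Module (ZMod p) W] [FiniteDimensional (ZMod p) W]

/-- number of forms of rank `τ` -/
theorem card_tau3 (φ : ℕ → ℕ) (hφ : ∀ c t, φ (c + t) ≤ φ c + (t + 1) / 2) (κ : ℝ)
    (b : X →ₗ[ZMod p] X →ₗ[ZMod p] W) (hb : ∀ x y, b x y = b y x)
    (c : ℕ) (hst : Stb φ c b) (h : Hyp p κ (finrank (ZMod p) W)) (τ : ℕ) :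
    (Nat.card {l : Dual (ZMod p) W // rk (TT b) l = τ} : ℝ) ≤
      κ * ((p : ℝ) / ((p : ℝ) - 1)) *
        (((τ + finrank (ZMod p) W).choose τ : ℝ) * (p : ℝ) ^ φ (c + τ)) := by
  have hκ1 := one_le_kap p κ _ h
  obtain ⟨h3, hr, hκ, hnum⟩ := h
  have hcp : Nat.card (ZMod p) = p := Nat.card_zmod p
  have hp3 : (3 : ℝ) < (p : ℝ) := by exact_mod_cast h3
  have h1 := card_rk_le b hb τ (finrank (ZMod p) W - φ (c + τ)) (by rw [hcp]; omega)
    (by rw [hcp]; exact hr) κ (by rw [hcp]; exact hκ) (by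
      intro l hl
      have h2 := gr_bound (F := ZMod p) (W := W) φ hφ (by rw [hcp]; omega)
        (by rw [hcp]; exact hr) κ (by rw [hcp]; exact hκ) (by rw [hcp]; exact hnum)
        (finrank (ZMod p) (rad b l)) (rad b l) (res b (rad b l)) (c + τ) rfl
        (fun x y => hb x y) (by
          have h4 := stb_res φ c b hst (rad b l)
          have h5 := finrank_rad b l
          have h6 : c + (finrank (ZMod p) X - finrank (ZMod p) (rad b l)) = c + τ := by omega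
          rw [h6] at h4
          exact h4)
      omega)
  rw [hcp] at h1
  refine h1.trans ?_
  rw [mul_assoc κ]
  refine mul_le_mul_of_nonneg_left ?_ (by linarith)
  set r := finrank (ZMod p) W with hr'
  calc ∑ s ∈ Finset.Icc (r - φ (c + τ)) r, (((τ + s).choose τ : ℝ) * (p : ℝ) ^ (r - s)) ≤
      ∑ s ∈ Finset.Icc (r - φ (c + τ)) r, (((τ + r).choose τ : ℝ) * (p : ℝ) ^ (r - s)) := by
        refine Finset.sum_le_sum fun s hs => ?_
        rw [Finset.mem_Icc] at hs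
        refine mul_le_mul_of_nonneg_right ?_ (by positivity)
        exact_mod_cast Nat.choose_le_choose τ (by omega)
    _ = ((τ + r).choose τ : ℝ) * ∑ s ∈ Finset.Icc (r - φ (c + τ)) r, (p : ℝ) ^ (r - s) := by
        rw [Finset.mul_sum]
    _ ≤ ((τ + r).choose τ : ℝ) * ((p : ℝ) ^ φ (c + τ) * ((p : ℝ) / ((p : ℝ) - 1))) :=
        mul_le_mul_of_nonneg_left (sum_geom_le (p : ℝ) (by linarith) r _) (Nat.cast_nonneg _)
    _ = _ := by ring

/-- upper bound of `EE` -/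
theorem ee3 (φ : ℕ → ℕ) (hφ : ∀ c t, φ (c + t) ≤ φ c + (t + 1) / 2) (κ : ℝ)
    (b : X →ₗ[ZMod p] X →ₗ[ZMod p] W) (hb : ∀ x y, b x y = b y x)
    (c : ℕ) (hst : Stb φ c b) (h : Hyp p κ (finrank (ZMod p) W)) (n : ℕ)
    (hn : finrank (ZMod p) X ≤ n) :
    EE p b ≤ (p : ℝ) ^ φ c + κ * ((p : ℝ) / ((p : ℝ) - 1)) * ∑ m ∈ Finset.Icc 1 n,
      (((2 * m + finrank (ZMod p) W).choose (2 * m) : ℝ) * ((p : ℝ) ^ φ (c + 2 * m) / (p : ℝ) ^ m)) := by
  have hκ1 := one_le_kap p κ _ h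
  have hp3 : (3 : ℝ) < (p : ℝ) := by exact_mod_cast h.1
  have hcp : Nat.card (ZMod p) = p := Nat.card_zmod p
  have hk0 : 0 ≤ κ * ((p : ℝ) / ((p : ℝ) - 1)) :=
    mul_nonneg (by linarith) (div_nonneg (by linarith) (by linarith))
  rw [ee_split]
  refine add_le_add ?_ ?_
  · have := card_zero_le φ c b hst
    rwa [hcp] at this
  · rw [Finset.mul_sum]
    refine (Finset.sum_le_sum fun m hm => ?_).trans
      (Finset.sum_le_sum_of_subset_of_nonneg (Finset.Icc_subset_Icc_right hn) fun m _ _ => ?_)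
    · have h1 := card_tau3 p φ hφ κ b hb c hst h (2 * m)
      rw [div_le_iff₀ (by positivity)]
      refine h1.trans (le_of_eq ?_)
      have : (p : ℝ) ^ m ≠ 0 := by positivity
      rw [mul_assoc (κ * ((p : ℝ) / ((p : ℝ) - 1))), mul_assoc (((2 * m + finrank (ZMod p) W).choose (2 * m) : ℕ) : ℝ),
        div_mul_cancel₀ _ this]
    · positivity

/-- the main inequality for a general `φ`: no nonsingular zero implies a numerical bound -/
theorem nonsing_ineq3 (hp : p ≠ 2) (φ : ℕ → ℕ) (hφ : ∀ c t, φ (c + t) ≤ φ c + (t + 1) / 2)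
    (hφ0 : ∀ d, φ d ≤ ph d) (κ : ℝ) (b : X →ₗ[ZMod p] X →ₗ[ZMod p] W)
    (hb : ∀ x y, b x y = b y x) (hst : Stb φ 0 b) (h : Hyp p κ (finrank (ZMod p) W))
    (hsing : ∀ x, b x x = 0 → ¬ Function.Surjective (b x)) :
    ((p : ℝ) - 1) * (1 - κ * ((p : ℝ) / ((p : ℝ) - 1)) * ∑ m ∈ Finset.Icc 1 (finrank (ZMod p) X),
      (((2 * m + finrank (ZMod p) W).choose (2 * m) : ℝ) * ((p : ℝ) ^ φ (2 * m) / (p : ℝ) ^ m))) ≤
    ∑ τ ∈ Finset.Icc 1 (finrank (ZMod p) X), κ * ((p : ℝ) / ((p : ℝ) - 1)) *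
        (((τ + finrank (ZMod p) W).choose τ : ℝ) * ((p : ℝ) ^ φ τ / (p : ℝ) ^ τ)) *
        ((p : ℝ) ^ φ τ + κ * ((p : ℝ) / ((p : ℝ) - 1)) * ∑ m ∈ Finset.Icc 1 (finrank (ZMod p) X),
      (((2 * m + finrank (ZMod p) W).choose (2 * m) : ℝ) *
        ((p : ℝ) ^ φ (τ + 2 * m) / (p : ℝ) ^ m))) := by
  have hκ1 := one_le_kap p κ _ h
  have hp3 : (3 : ℝ) < (p : ℝ) := by exact_mod_cast h.1
  have hk0 : 0 ≤ κ * ((p : ℝ) / ((p : ℝ) - 1)) :=
    mul_nonneg (by linarith) (div_nonneg (by linarith) (by linarith))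
  have hst' : Stb ph 0 b := by
    intro U A hA
    exact (hst U A hA).trans (hφ0 _)
  have hφ00 : φ 0 = 0 := by
    have := hφ0 0
    have h0 : ph 0 = 0 := rfl
    omega
  have hrk : ∀ l : Dual (ZMod p) W, l ≠ 0 → 1 ≤ rk (TT b) l := by
    intro l hl
    by_contra hlt
    exact hl (rk_zero_iff p b hst' l (by omega))
  have hlow := count_low p hp b hb
  have hz := ee3 p φ hφ κ b hb 0 hst h (finrank (ZMod p) X) le_rfl
  rw [hφ00, pow_zero] at hz
  simp only [Nat.zero_add] at hz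
  set K := κ * ((p : ℝ) / ((p : ℝ) - 1)) with hK
  set r := finrank (ZMod p) W with hr
  set n := finrank (ZMod p) X with hn
  have hs := sing_count p b hsing
    (fun τ => (p : ℝ) ^ n / (p : ℝ) ^ r * (((p : ℝ) ^ φ τ + K * ∑ m ∈ Finset.Icc 1 n,
      (((2 * m + r).choose (2 * m) : ℝ) * ((p : ℝ) ^ φ (τ + 2 * m) / (p : ℝ) ^ m))) / (p : ℝ) ^ τ))
    (by
      intro l hl
      have h4 := count_up p hp (res b (rad b l)) (fun x y => hb x y)
      have h5 := finrank_rad b l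
      have h6 := stb_res φ 0 b hst (rad b l)
      have h7 : 0 + (finrank (ZMod p) X - finrank (ZMod p) (rad b l)) = rk (TT b) l := by omega
      rw [h7] at h6
      have h8 := ee3 p φ hφ κ (res b (rad b l)) (fun x y => hb x y) (rk (TT b) l) h6 h n (by omega)
      rw [← hr, ← hK] at h8
      have h9 : (p : ℝ) ^ n = (p : ℝ) ^ finrank (ZMod p) (rad b l) * (p : ℝ) ^ rk (TT b) l := by
        rw [← pow_add, h5]
      have h10 := h4.trans (mul_le_mul_of_nonneg_left h8 (by positivity))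
      have hpr : (0 : ℝ) < (p : ℝ) ^ r := by positivity
      refine le_of_mul_le_mul_right (h10.trans (le_of_eq ?_)) hpr
      rw [h9]
      have e1 : (p : ℝ) ^ r ≠ 0 := by positivity
      have e2 : (p : ℝ) ^ rk (TT b) l ≠ 0 := by positivity
      field_simp
      rw [hr]) hrk
  have hZlow : (p : ℝ) ^ n / (p : ℝ) ^ r * (1 - K * ∑ m ∈ Finset.Icc 1 n,
      (((2 * m + r).choose (2 * m) : ℝ) * ((p : ℝ) ^ φ (2 * m) / (p : ℝ) ^ m))) ≤
      (Nat.card {x : X // b x x = 0} : ℝ) := by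
    have hpr : (0 : ℝ) < (p : ℝ) ^ r := by positivity
    rw [div_mul_eq_mul_div, div_le_iff₀ hpr]
    refine le_trans (mul_le_mul_of_nonneg_left ?_ (by positivity)) hlow
    linarith
  have hpn : (0 : ℝ) < (p : ℝ) ^ n / (p : ℝ) ^ r := by positivity
  refine le_of_mul_le_mul_left ?_ hpn
  calc (p : ℝ) ^ n / (p : ℝ) ^ r * (((p : ℝ) - 1) * (1 - K * ∑ m ∈ Finset.Icc 1 n,
      (((2 * m + r).choose (2 * m) : ℝ) * ((p : ℝ) ^ φ (2 * m) / (p : ℝ) ^ m)))) =
      ((p : ℝ) - 1) * ((p : ℝ) ^ n / (p : ℝ) ^ r * (1 - K * ∑ m ∈ Finset.Icc 1 n,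
      (((2 * m + r).choose (2 * m) : ℝ) * ((p : ℝ) ^ φ (2 * m) / (p : ℝ) ^ m)))) := by ring
    _ ≤ ((p : ℝ) - 1) * (Nat.card {x : X // b x x = 0} : ℝ) :=
        mul_le_mul_of_nonneg_left hZlow (by linarith)
    _ ≤ _ := hs
    _ ≤ _ := by
        rw [Finset.mul_sum]
        refine Finset.sum_le_sum fun τ _ => ?_
        have h11 := card_tau3 p φ hφ κ b hb 0 hst h τ
        rw [← hr, ← hK, Nat.zero_add] at h11
        refine (mul_le_mul_of_nonneg_right h11 ?_).trans (le_of_eq ?_)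
        · positivity
        · have e2 : (p : ℝ) ^ τ ≠ 0 := by positivity
          field_simp

end QSys
end

section

/-!
Theorem B2: a stable system of `r ≥ 2` quadratic forms over `F_p` with stability function
`d ↦ floor (2 r d / (4 r + s))` and `(s + 5) ^ (2 (4 r + s)) ≤ p ^ s` has a nonsingular zero.
-/

set_option autoImplicit false

open Module

namespace QSys

theorem fi_le_ph (r s : ℕ) (hs : 1 ≤ s) (d : ℕ) : fi r s d ≤ ph d := by
  have h1 := fi_mul_le r s d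
  set f := fi r s d with hf
  unfold ph
  rcases Nat.eq_zero_or_pos f with h0 | h0
  · omega
  · have h2 : 2 * f < d := by
      by_contra hlt
      push Not at hlt
      have h3 : 2 * r * d ≤ 2 * r * (2 * f) := Nat.mul_le_mul_left _ hlt
      have h4 : 1 ≤ s * f := Nat.mul_pos hs h0
      nlinarith
    omega

/-- the condition implies `4 (r + 1) ^ 2 ≤ q` -/
theorem cond_sq (q r s : ℕ) (hr : 1 ≤ r) (hs : 1 ≤ s)
    (h : (s + 5) ^ (2 * (4 * r + s)) ≤ q ^ s) : 4 * (r + 1) ^ 2 ≤ q := by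
  have hs1 : (1 : ℝ) ≤ (s : ℝ) := by exact_mod_cast hs
  have hr1 : (1 : ℝ) ≤ (r : ℝ) := by exact_mod_cast hr
  set B : ℝ := (s : ℝ) + 5 with hB
  have hB0 : 0 < B := by linarith
  set y : ℝ := 2 * ((r : ℝ) + 1) / B with hy
  have hy0 : 0 ≤ y := by positivity
  have h1 : y ^ s ≤ B ^ (4 * r) := by
    calc y ^ s ≤ (Real.exp y) ^ s :=
          pow_le_pow_left₀ hy0 (by linarith [Real.add_one_le_exp y]) s
      _ = Real.exp (s * y) := by rw [← Real.exp_nat_mul]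
      _ ≤ Real.exp ((4 * r : ℕ)) := by
          apply Real.exp_le_exp.2
          have e1 : (s : ℝ) * y = (2 * ((r : ℝ) + 1)) * s / B := by rw [hy]; ring
          rw [e1, div_le_iff₀ hB0]
          push_cast
          nlinarith
      _ = (Real.exp 1) ^ (4 * r) := by rw [Real.exp_one_pow]
      _ ≤ B ^ (4 * r) := by
          refine pow_le_pow_left₀ (Real.exp_pos 1).le ?_ _
          have := exp_one_lt
          linarith
  have h2 : (2 * ((r : ℝ) + 1)) ^ s ≤ B ^ (4 * r + s) := by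
    have e1 : 2 * ((r : ℝ) + 1) = y * B := by
      rw [hy, div_mul_cancel₀ _ hB0.ne']
    rw [e1, mul_pow, pow_add]
    exact mul_le_mul_of_nonneg_right h1 (by positivity)
  have h3 : (2 * (r + 1)) ^ s ≤ (s + 5) ^ (4 * r + s) := by
    rw [hB] at h2
    exact_mod_cast h2
  have h4 : (4 * (r + 1) ^ 2) ^ s ≤ q ^ s := by
    calc (4 * (r + 1) ^ 2) ^ s = ((2 * (r + 1)) ^ s) ^ 2 := by
          rw [← pow_mul, mul_comm s 2, pow_mul]
          congr 1
          ring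
      _ ≤ ((s + 5) ^ (4 * r + s)) ^ 2 := Nat.pow_le_pow_left h3 2
      _ = (s + 5) ^ (2 * (4 * r + s)) := by rw [← pow_mul, mul_comm]
      _ ≤ q ^ s := h
  exact (Nat.pow_le_pow_iff_left (by omega)).1 h4

theorem hyp_real (p r : ℕ) (hr : 2 ≤ r) (hp : 4 * (r + 1) ^ 2 ≤ p) :
    Hyp p (49 / 40) r ∧ 26 ≤ p := by
  have h9 : 9 ≤ (r + 1) ^ 2 := by nlinarith
  have hp26 : 26 ≤ p := by omega
  have hq : (26 : ℝ) ≤ (p : ℝ) := by exact_mod_cast hp26
  have a1 : 26 * (((r : ℕ) : ℝ) + 1) ^ 2 ≤ 9 * (p : ℝ) := by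
    have : 26 * (r + 1) ^ 2 ≤ 9 * p := by nlinarith
    exact_mod_cast this
  have a2 : 26 * (((r : ℕ) : ℝ) + 1) ≤ 3 * (p : ℝ) := by
    have : 26 * (r + 1) ≤ 3 * p := by nlinarith
    exact_mod_cast this
  have a3 : 13 * (((r : ℕ) : ℝ)) ≤ (p : ℝ) := by
    have : 13 * r ≤ p := by nlinarith
    exact_mod_cast this
  have a4 : (2 : ℝ) ≤ (((r : ℕ) : ℝ)) := by exact_mod_cast hr
  refine ⟨⟨by omega, by nlinarith, ?_, ?_⟩, hp26⟩
  · have b1 : (12 : ℝ) / 13 ≤ 1 - (((r : ℕ) : ℝ)) / p := by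
      have : (((r : ℕ) : ℝ)) / p ≤ 1 / 13 := by
        rw [div_le_div_iff₀ (by linarith) (by norm_num)]
        linarith
      linarith
    have b2 : (24 : ℝ) / 25 ≤ 1 - 1 / ((p : ℝ) - 1) := by
      have : 1 / ((p : ℝ) - 1) ≤ 1 / 25 := by
        apply one_div_le_one_div_of_le (by norm_num)
        linarith
      linarith
    have b3 : ((24 : ℝ) / 25) ^ 3 ≤ (1 - 1 / ((p : ℝ) - 1)) ^ 3 := pow_le_pow_left₀ (by norm_num) b2 3
    calc (1 : ℝ) ≤ 49 / 40 * ((12 / 13) * (24 / 25) ^ 3) := by norm_num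
      _ ≤ _ := by
        refine mul_le_mul_of_nonneg_left ?_ (by norm_num)
        exact mul_le_mul b1 b3 (by norm_num) (by linarith)
  · intro N
    have c1 := sum_two_le (((r : ℕ) : ℝ) + 1) (p : ℝ) (by linarith) (by linarith) a1 N
    have c2 : (p : ℝ) / ((p : ℝ) - 1) ≤ 26 / 25 := by
      rw [div_le_div_iff₀ (by linarith) (by norm_num)]
      linarith
    have c3 : 0 ≤ ∑ τ ∈ Finset.Icc 1 N, (((r : ℕ) : ℝ) + 1) ^ τ / (p : ℝ) ^ (τ / 2) :=
      Finset.sum_nonneg fun τ _ => by positivity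
    calc 1 + 49 / 40 * ((p : ℝ) / ((p : ℝ) - 1)) *
        ∑ τ ∈ Finset.Icc 1 N, (((r : ℕ) : ℝ) + 1) ^ τ / (p : ℝ) ^ (τ / 2) ≤
        1 + 49 / 40 * (26 / 25) * (2 * (((r : ℕ) : ℝ) + 1)) := by
          have c4 : 49 / 40 * ((p : ℝ) / ((p : ℝ) - 1)) ≤ 49 / 40 * (26 / 25) :=
            mul_le_mul_of_nonneg_left c2 (by norm_num)
          have c5 := mul_le_mul c4 c1 c3 (by norm_num)
          linarith
      _ < (p : ℝ) := by linarith

theorem geom27 (n : ℕ) : ∑ m ∈ Finset.Icc 1 n, (27 / 100 : ℝ) ^ m ≤ 27 / 73 := by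
  have h : ∀ n : ℕ, ∑ m ∈ Finset.Icc 1 n, (27 / 100 : ℝ) ^ m = 27 / 73 - 27 / 73 * (27 / 100) ^ n := by
    intro n
    induction n with
    | zero => simp
    | succ n ih =>
      rw [Finset.sum_Icc_succ_top (by omega), ih, pow_succ]
      ring
  rw [h]
  have : (0 : ℝ) ≤ 27 / 73 * (27 / 100) ^ n := by positivity
  linarith

variable (p : ℕ) [Fact p.Prime] {X W : Type} [AddCommGroup X] [Module (ZMod p) X]
  [FiniteDimensional (ZMod p) X] [AddCommGroup W] [Module (ZMod p) W] [FiniteDimensional (ZMod p) W]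

theorem nonsing3 (s : ℕ) (hs : 1 ≤ s) (hr : 2 ≤ finrank (ZMod p) W)
    (hp : (s + 5) ^ (2 * (4 * finrank (ZMod p) W + s)) ≤ p ^ s)
    (b : X →ₗ[ZMod p] X →ₗ[ZMod p] W)
    (hb : ∀ x y, b x y = b y x) (hst : Stb (fi (finrank (ZMod p) W) s) 0 b) :
    ∃ x, b x x = 0 ∧ Function.Surjective (b x) := by
  by_contra hcon
  push Not at hcon
  obtain ⟨hH, hp26⟩ := hyp_real p (finrank (ZMod p) W) hr (cond_sq p _ s (by omega) hs hp)
  have h := nonsing_ineq3 p (by omega) (fi (finrank (ZMod p) W) s) (fi_add _ s)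
    (fi_le_ph _ s hs) (49 / 40) b hb hst hH hcon
  set r := finrank (ZMod p) W with hrd
  set n := finrank (ZMod p) X with hnd
  have hq : (26 : ℝ) ≤ (p : ℝ) := by exact_mod_cast hp26
  have hp0 : (0 : ℝ) < (p : ℝ) := by linarith
  have hqs : ((s : ℝ) + 5) ^ (2 * (4 * r + s)) ≤ (p : ℝ) ^ s := by exact_mod_cast hp
  have hK : 49 / 40 * ((p : ℝ) / ((p : ℝ) - 1)) ≤ 637 / 500 := by
    have c2 : (p : ℝ) / ((p : ℝ) - 1) ≤ 26 / 25 := by
      rw [div_le_div_iff₀ (by linarith) (by norm_num)]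
      linarith
    linarith
  have hK0 : 0 ≤ 49 / 40 * ((p : ℝ) / ((p : ℝ) - 1)) :=
    mul_nonneg (by norm_num) (div_nonneg (by linarith) (by linarith))
  set K := 49 / 40 * ((p : ℝ) / ((p : ℝ) - 1)) with hKd
  -- left-hand side
  have hL : ∑ m ∈ Finset.Icc 1 n,
      (((2 * m + r).choose (2 * m) : ℝ) * ((p : ℝ) ^ fi r s (2 * m) / (p : ℝ) ^ m)) ≤ 27 / 73 := by
    refine le_trans (Finset.sum_le_sum fun m hm => ?_) (geom27 n)
    exact G1 (p : ℝ) hp0 r s hs hqs m (Finset.mem_Icc.1 hm).1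
  have hL0 : 0 ≤ ∑ m ∈ Finset.Icc 1 n,
      (((2 * m + r).choose (2 * m) : ℝ) * ((p : ℝ) ^ fi r s (2 * m) / (p : ℝ) ^ m)) :=
    Finset.sum_nonneg fun m _ => by positivity
  have e1 : ((p : ℝ) - 1) * (1 - 637 / 500 * (27 / 73)) ≤ ((p : ℝ) - 1) * (1 - K * ∑ m ∈ Finset.Icc 1 n,
      (((2 * m + r).choose (2 * m) : ℝ) * ((p : ℝ) ^ fi r s (2 * m) / (p : ℝ) ^ m))) := by
    refine mul_le_mul_of_nonneg_left ?_ (by linarith)
    have := mul_le_mul hK hL hL0 (by norm_num)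
    linarith
  -- right-hand side
  have e2 : ∑ τ ∈ Finset.Icc 1 n, K *
        (((τ + r).choose τ : ℝ) * ((p : ℝ) ^ fi r s τ / (p : ℝ) ^ τ)) *
        ((p : ℝ) ^ fi r s τ + K * ∑ m ∈ Finset.Icc 1 n,
      (((2 * m + r).choose (2 * m) : ℝ) *
        ((p : ℝ) ^ fi r s (τ + 2 * m) / (p : ℝ) ^ m))) ≤
      (p : ℝ) * (27 / 100) * (637 / 500 * (27 / 73) + (637 / 500 * (27 / 73)) ^ 2) := by
    have f1 : ∀ τ ∈ Finset.Icc 1 n, K *
        (((τ + r).choose τ : ℝ) * ((p : ℝ) ^ fi r s τ / (p : ℝ) ^ τ)) *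
        ((p : ℝ) ^ fi r s τ + K * ∑ m ∈ Finset.Icc 1 n,
      (((2 * m + r).choose (2 * m) : ℝ) *
        ((p : ℝ) ^ fi r s (τ + 2 * m) / (p : ℝ) ^ m))) ≤
        (p : ℝ) * (27 / 100) * (637 / 500 + (637 / 500) ^ 2 * (27 / 73)) * (27 / 100) ^ τ := by
      intro τ hτ
      have hτ1 := (Finset.mem_Icc.1 hτ).1
      have g2 := G2 (p : ℝ) hp0 r s hs hqs τ hτ1
      have g3 : ∑ m ∈ Finset.Icc 1 n, (((τ + r).choose τ : ℝ) * ((p : ℝ) ^ fi r s τ / (p : ℝ) ^ τ) *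
          (((2 * m + r).choose (2 * m) : ℝ) * ((p : ℝ) ^ fi r s (τ + 2 * m) / (p : ℝ) ^ m))) ≤
          (p : ℝ) * (27 / 100) ^ (τ + 1) * (27 / 73) := by
        calc _ ≤ ∑ m ∈ Finset.Icc 1 n, (p : ℝ) * (27 / 100) ^ (τ + m + 1) :=
              Finset.sum_le_sum fun m hm => G3 (p : ℝ) hp0 r s hs hqs τ m hτ1 (Finset.mem_Icc.1 hm).1
          _ = (p : ℝ) * (27 / 100) ^ (τ + 1) * ∑ m ∈ Finset.Icc 1 n, (27 / 100) ^ m := by
              rw [Finset.mul_sum]
              refine Finset.sum_congr rfl fun m _ => ?_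
              rw [show τ + m + 1 = (τ + 1) + m by ring, pow_add _ (τ + 1) m]
              ring
          _ ≤ _ := mul_le_mul_of_nonneg_left (geom27 n) (by positivity)
      have g4 : 0 ≤ ((τ + r).choose τ : ℝ) * ((p : ℝ) ^ fi r s τ / (p : ℝ) ^ τ) * (p : ℝ) ^ fi r s τ := by
        positivity
      have g5 : 0 ≤ ∑ m ∈ Finset.Icc 1 n, (((τ + r).choose τ : ℝ) * ((p : ℝ) ^ fi r s τ / (p : ℝ) ^ τ) *
          (((2 * m + r).choose (2 * m) : ℝ) * ((p : ℝ) ^ fi r s (τ + 2 * m) / (p : ℝ) ^ m))) :=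
        Finset.sum_nonneg fun m _ => by positivity
      have g6 : K * (((τ + r).choose τ : ℝ) * ((p : ℝ) ^ fi r s τ / (p : ℝ) ^ τ)) *
        ((p : ℝ) ^ fi r s τ + K * ∑ m ∈ Finset.Icc 1 n,
      (((2 * m + r).choose (2 * m) : ℝ) *
        ((p : ℝ) ^ fi r s (τ + 2 * m) / (p : ℝ) ^ m))) =
        K * (((τ + r).choose τ : ℝ) * ((p : ℝ) ^ fi r s τ / (p : ℝ) ^ τ) * (p : ℝ) ^ fi r s τ) +
        K ^ 2 * ∑ m ∈ Finset.Icc 1 n, (((τ + r).choose τ : ℝ) * ((p : ℝ) ^ fi r s τ / (p : ℝ) ^ τ) *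
          (((2 * m + r).choose (2 * m) : ℝ) * ((p : ℝ) ^ fi r s (τ + 2 * m) / (p : ℝ) ^ m))) := by
        rw [← Finset.mul_sum]
        ring
      rw [g6]
      have g7 := mul_le_mul hK g2 g4 (by norm_num)
      have g8 := mul_le_mul (pow_le_pow_left₀ hK0 hK 2) g3 g5 (by norm_num)
      refine (add_le_add g7 g8).trans (le_of_eq ?_)
      rw [pow_succ (27 / 100 : ℝ) τ]
      ring
    refine (Finset.sum_le_sum f1).trans ?_
    rw [← Finset.mul_sum]
    refine (mul_le_mul_of_nonneg_left (geom27 n) (by positivity)).trans (le_of_eq ?_)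
    ring
  have e3 := e1.trans (h.trans e2)
  norm_num at e3
  linarith

end QSys
end

section

/-!
The induction step over `ℤ_[p]` of `Step2.lean` for an arbitrary criterion `hns` for nonsingular zeros.
-/

set_option autoImplicit false

open Module

namespace QSys

theorem induction_stepG (p : ℕ) [Fact p.Prime] (r n : ℕ) (hr : 1 ≤ r) (hn : 0 < n) (hp2 : p ≠ 2)
    (hns : ∀ (gb : (Fin n → ZMod p) → (Fin r → ZMod p))
      (Bb : (Fin n → ZMod p) →ₗ[ZMod p] (Fin n → ZMod p) →ₗ[ZMod p] (Fin r → ZMod p)),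
      (∀ x, Bb x x = (2 : ZMod p) • gb x) → (∀ x y, Bb x y = Bb y x) →
      (∀ (U : Submodule (ZMod p) (Fin n → ZMod p)) (Q : Submodule (ZMod p) (Fin r → ZMod p)),
        (∀ x ∈ U, gb x ∈ Q) →
        n * r + 2 * r * finrank (ZMod p) U ≤ 2 * r * n + n * finrank (ZMod p) Q) →
      ∃ x, Bb x x = 0 ∧ Function.Surjective (Bb x))
    (hP : ∀ j < r, ∀ h : QuadraticMap ℤ_[p] (Fin (n * j / r + 1) → ℤ_[p]) (Fin j → ℤ_[p]),
      ∃ x, x ≠ 0 ∧ h x = 0)
    (f : QuadraticMap ℤ_[p] (Fin n → ℤ_[p]) (Fin r → ℤ_[p])) :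
    ∃ x, x ≠ 0 ∧ f x = 0 := by
  by_contra hcon
  push Not at hcon
  have hf0 : ∀ x, f x = 0 → x = 0 := by
    intro x hx
    by_contra hx0
    exact hcon x hx0 hx
  obtain ⟨m, hm⟩ := exists_level p f hf0
  have hbdd : ∃ b : ℤ, ∀ z : ℤ, (∃ (φ : (Fin n → ℤ_[p]) →ₗ[ℤ_[p]] (Fin n → ℤ_[p]))
      (ψ : (Fin r → ℤ_[p]) →ₗ[ℤ_[p]] (Fin r → ℤ_[p]))
      (g : QuadraticMap ℤ_[p] (Fin n → ℤ_[p]) (Fin r → ℤ_[p])),
      LinearMap.det φ ≠ 0 ∧ LinearMap.det ψ ≠ 0 ∧ (∀ x, ψ (g x) = f (φ x)) ∧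
      z = ((n * (LinearMap.det ψ).valuation : ℕ) : ℤ) - ((2 * r * (LinearMap.det φ).valuation : ℕ) : ℤ)) →
      z ≤ b := by
    refine ⟨((n * r * m : ℕ) : ℤ), ?_⟩
    rintro z ⟨φ, ψ, g, hφ, hψ, h, rfl⟩
    have h1 := bound_energy2 p n r m (by omega) f hm hP φ ψ g hφ hψ h
    have h2 : ((n * (LinearMap.det ψ).valuation : ℕ) : ℤ) ≤
        ((2 * r * (LinearMap.det φ).valuation + n * r * m : ℕ) : ℤ) := by exact_mod_cast h1
    rw [Nat.cast_add] at h2
    linarith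
  have hinh : ∃ z : ℤ, (∃ (φ : (Fin n → ℤ_[p]) →ₗ[ℤ_[p]] (Fin n → ℤ_[p]))
      (ψ : (Fin r → ℤ_[p]) →ₗ[ℤ_[p]] (Fin r → ℤ_[p]))
      (g : QuadraticMap ℤ_[p] (Fin n → ℤ_[p]) (Fin r → ℤ_[p])),
      LinearMap.det φ ≠ 0 ∧ LinearMap.det ψ ≠ 0 ∧ (∀ x, ψ (g x) = f (φ x)) ∧
      z = ((n * (LinearMap.det ψ).valuation : ℕ) : ℤ) - ((2 * r * (LinearMap.det φ).valuation : ℕ) : ℤ)) := by
    refine ⟨_, LinearMap.id, LinearMap.id, f, ?_, ?_, fun x => rfl, rfl⟩
    · rw [LinearMap.det_id]; exact one_ne_zero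
    · rw [LinearMap.det_id]; exact one_ne_zero
  obtain ⟨z, ⟨φ, ψ, g, hφ, hψ, h, rfl⟩, hmaxz⟩ := Int.exists_greatest_of_bdd hbdd hinh
  have hmax : ∀ (φ' : (Fin n → ℤ_[p]) →ₗ[ℤ_[p]] (Fin n → ℤ_[p]))
      (ψ' : (Fin r → ℤ_[p]) →ₗ[ℤ_[p]] (Fin r → ℤ_[p]))
      (g' : QuadraticMap ℤ_[p] (Fin n → ℤ_[p]) (Fin r → ℤ_[p])),
      LinearMap.det φ' ≠ 0 → LinearMap.det ψ' ≠ 0 → (∀ x, ψ' (g' x) = f (φ' x)) →
      n * (LinearMap.det ψ').valuation + 2 * r * (LinearMap.det φ).valuation ≤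
        n * (LinearMap.det ψ).valuation + 2 * r * (LinearMap.det φ').valuation := by
    intro φ' ψ' g' hφ' hψ' h'
    have h1 := hmaxz _ ⟨φ', ψ', g', hφ', hψ', h', rfl⟩
    have h2 : ((n * (LinearMap.det ψ').valuation : ℕ) : ℤ) + ((2 * r * (LinearMap.det φ).valuation : ℕ) : ℤ) ≤
        ((n * (LinearMap.det ψ).valuation : ℕ) : ℤ) + ((2 * r * (LinearMap.det φ').valuation : ℕ) : ℤ) := by
      linarith
    exact_mod_cast h2
  obtain ⟨gb, Bb, hgbadd, hgb, hBb⟩ := exists_red p g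
  have hgB : ∀ x, Bb x x = (2 : ZMod p) • gb x := by
    intro xb
    obtain ⟨x, rfl⟩ := redv_surj p xb
    rw [hBb, hgb, QuadraticMap.polar_self, two_smul, two_smul, redv_add]
  have hsym : ∀ x y, Bb x y = Bb y x := by
    intro xb yb
    obtain ⟨x, rfl⟩ := redv_surj p xb
    obtain ⟨y, rfl⟩ := redv_surj p yb
    rw [hBb, hBb, QuadraticMap.polar_comm]
  have hstar : ∀ (U : Submodule (ZMod p) (Fin n → ZMod p)) (Q : Submodule (ZMod p) (Fin r → ZMod p)),
      (∀ x ∈ U, gb x ∈ Q) →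
      n * r + 2 * r * finrank (ZMod p) U ≤ 2 * r * n + n * finrank (ZMod p) Q := by
    intro U Q hUQ
    exact star_of_max2 p n (2 * r) n r f φ ψ g hφ hψ h hmax gb hgb U Q hUQ
  obtain ⟨xb, hxb0, hxbs⟩ := hns gb Bb hgB hsym hstar
  obtain ⟨x0, rfl⟩ := redv_surj p xb
  have h2 : (2 : ZMod p) ≠ 0 := by
    have h2 : ¬ p ∣ 2 := by
      intro h
      have := (Nat.prime_dvd_prime_iff_eq (Fact.out : p.Prime) Nat.prime_two).1 h
      exact hp2 this
    intro h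
    exact h2 ((ZMod.natCast_eq_zero_iff 2 p).1 (by exact_mod_cast h))
  have hgb0 : gb (redv p x0) = 0 := by
    rw [hgB] at hxb0
    exact (smul_eq_zero.1 hxb0).resolve_left h2
  have hz : redv p (0 : Fin r → ℤ_[p]) = 0 := by
    funext i; simp [redv]
  have hzn : redv p (0 : Fin n → ℤ_[p]) = 0 := by
    funext i; simp [redv]
  have hg0 : ∀ i, (p : ℤ_[p]) ∣ g x0 i := by
    have h1 : redv p (g x0) = redv p 0 := by rw [← hgb, hgb0, hz]
    rw [redv_eq_iff] at h1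
    intro i
    simpa using h1 i
  have hs : ∀ w : Fin r → ℤ_[p], ∃ y : Fin n → ℤ_[p],
      ∀ i, (p : ℤ_[p]) ∣ QuadraticMap.polar g x0 y i - w i := by
    intro w
    obtain ⟨yb, hyb⟩ := hxbs (redv p w)
    obtain ⟨y, rfl⟩ := redv_surj p yb
    refine ⟨y, ?_⟩
    rw [hBb, redv_eq_iff] at hyb
    exact hyb
  obtain ⟨x, hx1, hx2⟩ := hensel p g x0 hg0 hs
  have hx0 : x ≠ 0 := by
    rintro rfl
    have h1 : redv p (0 : Fin n → ℤ_[p]) = redv p x0 := (redv_eq_iff p _ _).2 hx1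
    rw [hzn] at h1
    rw [← h1, map_zero] at hxbs
    obtain ⟨y, hy⟩ := hxbs (fun _ => 1)
    have h2 := congrFun hy ⟨0, hr⟩
    simp at h2
  have hφx : φ x ≠ 0 := by
    intro h1
    exact hx0 (inj_of_det p φ hφ (by rw [h1, map_zero]))
  exact hcon (φ x) hφx (by rw [← h, hx2, map_zero])

end QSys
end

section

/-!
Theorem B2: `n ≥ 4 r + s` and `(s + 5) ^ (2 (4 r + s)) ≤ p ^ s`.
-/

set_option autoImplicit false

open Module

namespace QSys

/-- from the inequality (star) of a triple of maximal energy to stability, with the exact function -/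
theorem stb_of_star3 (p : ℕ) [Fact p.Prime] (hp : p ≠ 2) (n r s : ℕ) (hs : 1 ≤ s)
    (hn : n = 4 * r + s)
    (gb : (Fin n → ZMod p) → (Fin r → ZMod p))
    (Bb : (Fin n → ZMod p) →ₗ[ZMod p] (Fin n → ZMod p) →ₗ[ZMod p] (Fin r → ZMod p))
    (hgB : ∀ x, Bb x x = (2 : ZMod p) • gb x)
    (hstar : ∀ (U : Submodule (ZMod p) (Fin n → ZMod p)) (Q : Submodule (ZMod p) (Fin r → ZMod p)),
      (∀ x ∈ U, gb x ∈ Q) →
      n * r + 2 * r * finrank (ZMod p) U ≤ 2 * r * n + n * finrank (ZMod p) Q) :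
    Stb (fi r s) 0 Bb := by
  intro U A hA
  set Q : Submodule (ZMod p) (Fin r → ZMod p) := A.dualCoannihilator with hQ
  have h4 : finrank (ZMod p) A + finrank (ZMod p) Q = finrank (ZMod p) (Fin r → ZMod p) :=
    Subspace.finrank_add_finrank_dualCoannihilator_eq A
  have h2 : (2 : ZMod p) ≠ 0 := by
    have h2 : ¬ p ∣ 2 := by
      intro h
      have := (Nat.prime_dvd_prime_iff_eq (Fact.out : p.Prime) Nat.prime_two).1 h
      exact hp this
    intro h
    exact h2 ((ZMod.natCast_eq_zero_iff 2 p).1 (by exact_mod_cast h))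
  have h5 := hstar U Q (by
    intro x hx
    rw [hQ, Submodule.mem_dualCoannihilator]
    intro l hl
    have h6 := hA l hl x hx x hx
    rw [hgB, map_smul, smul_eq_mul, mul_eq_zero] at h6
    exact h6.resolve_left h2)
  have hfr : finrank (ZMod p) (Fin r → ZMod p) = r := by simp
  have hfn : finrank (ZMod p) (Fin n → ZMod p) = n := by simp
  rw [hfr] at h4
  have hU : finrank (ZMod p) U ≤ n := by
    have := Submodule.finrank_le U
    rwa [hfn] at this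
  rw [hfn, Nat.zero_add]
  set a := finrank (ZMod p) A with ha
  set u := finrank (ZMod p) U with hu
  set t := finrank (ZMod p) Q with ht
  obtain ⟨d, hd⟩ := Nat.exists_eq_add_of_le hU
  have h7 : n * a ≤ 2 * r * d := by
    have e1 : n * r = n * a + n * t := by rw [← Nat.mul_add, h4]
    have e2 : 2 * r * n = 2 * r * u + 2 * r * d := by rw [← Nat.mul_add, ← hd]
    omega
  have h8 : n - u = d := by omega
  rw [h8, fi, ← hn, Nat.le_div_iff_mul_le (by omega)]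
  calc a * n = n * a := mul_comm _ _
    _ ≤ _ := h7

/-- the condition passes to fewer forms -/
theorem cond_le (q r s j t : ℕ) (ht : 1 ≤ t) (hs : 1 ≤ s) (hts : t ≤ s) (hj : s * j ≤ r * t)
    (h : (s + 5) ^ (2 * (4 * r + s)) ≤ q ^ s) : (t + 5) ^ (2 * (4 * j + t)) ≤ q ^ t := by
  have h1 : ((t + 5) ^ (2 * (4 * j + t))) ^ s ≤ (q ^ t) ^ s := by
    calc ((t + 5) ^ (2 * (4 * j + t))) ^ s ≤ ((s + 5) ^ (2 * (4 * j + t))) ^ s :=
          Nat.pow_le_pow_left (Nat.pow_le_pow_left (by omega) _) _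
      _ = (s + 5) ^ (2 * (4 * j + t) * s) := by rw [← pow_mul]
      _ ≤ (s + 5) ^ (2 * (4 * r + s) * t) := by
          apply Nat.pow_le_pow_right (by omega)
          nlinarith
      _ = ((s + 5) ^ (2 * (4 * r + s))) ^ t := by rw [← pow_mul]
      _ ≤ (q ^ s) ^ t := Nat.pow_le_pow_left h _
      _ = (q ^ t) ^ s := by rw [← pow_mul, ← pow_mul, mul_comm]
  exact (Nat.pow_le_pow_iff_left (by omega)).1 h1

theorem main_int3 (p : ℕ) [Fact p.Prime] : ∀ (r s : ℕ), 1 ≤ s →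
    (s + 5) ^ (2 * (4 * r + s)) ≤ p ^ s →
    ∀ f : QuadraticMap ℤ_[p] (Fin (4 * r + s) → ℤ_[p]) (Fin r → ℤ_[p]), ∃ x, x ≠ 0 ∧ f x = 0 := by
  intro r
  induction r using Nat.strong_induction_on with
  | _ r ih =>
    intro s hs hp f
    rcases Nat.lt_or_ge r 2 with hr | hr
    · refine main_int2 p r (4 * r + s) (by omega) ?_ f
      rcases Nat.eq_zero_or_pos r with h0 | h1
      · subst h0
        have e : Nat.fib (2 * 0 + 3) = 2 := by decide
        rw [e]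
        have h2 : (5 ^ 2) ^ s ≤ p ^ s := by
          calc (5 ^ 2) ^ s ≤ ((s + 5) ^ 2) ^ s :=
                Nat.pow_le_pow_left (Nat.pow_le_pow_left (by omega) 2) s
            _ = (s + 5) ^ (2 * (4 * 0 + s)) := by rw [← pow_mul, Nat.mul_zero, Nat.zero_add]
            _ ≤ p ^ s := hp
        have h3 : 5 ^ 2 ≤ p := (Nat.pow_le_pow_iff_left (by omega)).1 h2
        omega
      · have h2 := cond_sq p r s h1 hs hp
        have h3 : r = 1 := by omega
        subst h3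
        have e : Nat.fib (2 * 1 + 3) = 5 := by decide
        rw [e]
        omega
    · have h4 := cond_sq p r s (by omega) hs hp
      have hp36 : 36 ≤ p := by nlinarith
      refine induction_stepG p r (4 * r + s) (by omega) (by omega) (by omega) ?_ ?_ f
      · intro gb Bb hgB hsym hstar
        have hfr : finrank (ZMod p) (Fin r → ZMod p) = r := by simp
        have hst := stb_of_star3 p (by omega) (4 * r + s) r s hs rfl gb Bb hgB hstar
        exact nonsing3 p s hs (by rw [hfr]; exact hr) (by rw [hfr]; exact hp) Bb hsym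
          (by rw [hfr]; exact hst)
      · intro j hj h
        have e1 : (4 * r + s) * j / r = 4 * j + s * j / r := by
          have : (4 * r + s) * j = s * j + r * (4 * j) := by ring
          rw [this, Nat.add_mul_div_left _ _ (by omega)]
          omega
        have e2 : s * j < r * (s * j / r + 1) := by
          have h5 := Nat.div_add_mod (s * j) r
          have h6 := Nat.mod_lt (s * j) (show 0 < r by omega)
          rw [Nat.mul_add]
          omega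
        have e3 : s * j / r < s := by
          rw [Nat.div_lt_iff_lt_mul (by omega)]
          exact Nat.mul_lt_mul_of_pos_left hj hs
        refine zero_of_le p j (4 * j + (s * j / r + 1)) _ (by omega) ?_ h
        refine ih j hj (s * j / r + 1) (Nat.succ_pos _) ?_
        exact cond_le p r s j (s * j / r + 1) (Nat.succ_pos _) hs e3 e2.le hp

theorem main_padic3 (p : ℕ) [Fact p.Prime] (r s n : ℕ) (hs : 1 ≤ s) (hn : 4 * r + s ≤ n)
    (hp : (s + 5) ^ (8 * r + 2 * s) ≤ p ^ s) (f : Fin r → QuadraticForm ℚ_[p] (Fin n → ℚ_[p])) :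
    ∃ x, x ≠ 0 ∧ ∀ i, f i x = 0 := by
  obtain ⟨N, F, hF⟩ := exists_integral p r n f
  have hp' : (s + 5) ^ (2 * (4 * r + s)) ≤ p ^ s := by
    rwa [show 2 * (4 * r + s) = 8 * r + 2 * s by ring]
  obtain ⟨x, hx, hx0⟩ := zero_of_le p r (4 * r + s) n hn (main_int3 p r s hs hp') F
  refine ⟨fun j => ((x j : ℤ_[p]) : ℚ_[p]), ?_, ?_⟩
  · intro h0
    apply hx
    funext j
    have := congrFun h0 j
    simpa using this
  · intro i
    have h1 := hF x i
    rw [hx0] at h1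
    have h2 : (p : ℚ_[p]) ^ N ≠ 0 := pow_ne_zero _ (by exact_mod_cast (Fact.out : p.Prime).ne_zero)
    have h3 : (p : ℚ_[p]) ^ N * f i (fun j => ((x j : ℤ_[p]) : ℚ_[p])) = 0 := by
      rw [← h1]; simp
    exact (mul_eq_zero.mp h3).resolve_left h2

end QSys
end
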