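import Mathlib

section

/-!
# Linear families of linear maps: rank, stability, number of elements of low rank

`T : L →ₗ V →ₗ Y` is a linear family of linear maps `V → Y`, indexed by `L`.
-/

set_option autoImplicit false

open Module

namespace QSys

variable {F L V Y : Type} [Field F] [AddCommGroup L] [Module F L] [AddCommGroup V] [Module F V]
  [AddCommGroup Y] [Module F Y]

/-- Rank of the map `T l`. -/
noncomputable def rk (T : L →ₗ[F] V →ₗ[F] Y) (l : L) : ℕ := finrank F (LinearMap.range (T l))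

/-- `(k, c)`-stability: if `T a x ∈ J` for all `a ∈ A`, `x ∈ H`, then
`k * dim A ≤ codim H + dim J + c`. -/
def Stable (T : L →ₗ[F] V →ₗ[F] Y) (k c : ℕ) : Prop :=
  ∀ (A : Submodule F L) (H : Submodule F V) (J : Submodule F Y),
    (∀ l ∈ A, ∀ x ∈ H, T l x ∈ J) →
    k * finrank F A + finrank F H ≤ finrank F V + finrank F J + c

/-- Number of `l` with `rk T l ≤ ρ`. -/
noncomputable def lowCard (T : L →ₗ[F] V →ₗ[F] Y) (ρ : ℕ) : ℕ := Nat.card {l : L // rk T l ≤ ρ}

/-- Restriction of the maps `T l` to the subspace `H` of `V`. -/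
noncomputable def restr (T : L →ₗ[F] V →ₗ[F] Y) (H : Submodule F V) : L →ₗ[F] H →ₗ[F] Y :=
  T.compl₂ H.subtype

/-- The maps `T l` modulo the subspace `J` of `Y`. -/
noncomputable def quot (T : L →ₗ[F] V →ₗ[F] Y) (J : Submodule F Y) : L →ₗ[F] V →ₗ[F] (Y ⧸ J) :=
  T.compr₂ J.mkQ

@[simp] theorem restr_apply (T : L →ₗ[F] V →ₗ[F] Y) (H : Submodule F V) (l : L) (x : H) :
    restr T H l x = T l x := rfl

@[simp] theorem quot_apply (T : L →ₗ[F] V →ₗ[F] Y) (J : Submodule F Y) (l : L) (x : V) :
    quot T J l x = Submodule.Quotient.mk (T l x) := rfl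

/-- The family `l ↦ (x ↦ (y ↦ l (B x y)))` attached to a bilinear map `B : V → V → W`,
indexed by the dual space of `W`. -/
noncomputable def TT {W : Type} [AddCommGroup W] [Module F W] (B : V →ₗ[F] V →ₗ[F] W) :
    Dual F W →ₗ[F] V →ₗ[F] Dual F V where
  toFun l := B.compr₂ l
  map_add' l m := by ext x y; simp
  map_smul' c l := by ext x y; simp

@[simp] theorem TT_apply {W : Type} [AddCommGroup W] [Module F W] (B : V →ₗ[F] V →ₗ[F] W)
    (l : Dual F W) (x y : V) : TT B l x y = l (B x y) := rfl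

end QSys
end

section

/-!
Theorem B1, basic definitions. `b : X → X → W` is a bilinear map (a system of bilinear forms `l ∘ b`,
`l` in the dual of `W`).
-/

set_option autoImplicit false

open Module

namespace QSys

variable {F X W : Type} [Field F] [AddCommGroup X] [Module F X] [AddCommGroup W] [Module F W]

/-- rank of `b` at `x` -/
noncomputable def ra (b : X →ₗ[F] X →ₗ[F] W) (x : X) : ℕ := finrank F (LinearMap.range (b x))

/-- generic (largest) rank -/
noncomputable def gr (b : X →ₗ[F] X →ₗ[F] W) : ℕ := sSup (Set.range (ra b))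

/-- radical of `l ∘ b` -/
noncomputable def rad (b : X →ₗ[F] X →ₗ[F] W) (l : Dual F W) : Submodule F X := LinearMap.ker (TT b l)

/-- restriction of `b` to a subspace -/
noncomputable def res (b : X →ₗ[F] X →ₗ[F] W) (U : Submodule F X) : U →ₗ[F] U →ₗ[F] W :=
  b.domRestrict₁₂ U U

/-- stability: a space of forms vanishing on a subspace of codimension `d` has dimension at most
`φ (c + d)`. -/
def Stb (φ : ℕ → ℕ) (c : ℕ) (b : X →ₗ[F] X →ₗ[F] W) : Prop :=
  ∀ (U : Submodule F X) (A : Submodule F (Dual F W)), (∀ l ∈ A, ∀ x ∈ U, ∀ y ∈ U, l (b x y) = 0) →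
    finrank F A ≤ φ (c + (finrank F X - finrank F U))

@[simp] theorem res_apply (b : X →ₗ[F] X →ₗ[F] W) (U : Submodule F X) (x y : U) :
    res b U x y = b x y := rfl

theorem mem_rad (b : X →ₗ[F] X →ₗ[F] W) (l : Dual F W) (x : X) :
    x ∈ rad b l ↔ ∀ y, l (b x y) = 0 := by
  rw [rad, LinearMap.mem_ker]
  constructor
  · intro h y
    have := LinearMap.congr_fun h y
    simpa using this
  · intro h
    ext y
    simpa using h y

theorem finrank_rad [FiniteDimensional F X] (b : X →ₗ[F] X →ₗ[F] W) (l : Dual F W) :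
    finrank F (rad b l) + rk (TT b) l = finrank F X := by
  have h := LinearMap.finrank_range_add_finrank_ker (TT b l)
  rw [rad, rk]
  omega

theorem ra_le [FiniteDimensional F W] (b : X →ₗ[F] X →ₗ[F] W) (x : X) : ra b x ≤ finrank F W :=
  Submodule.finrank_le _

theorem bddAbove_ra [FiniteDimensional F W] (b : X →ₗ[F] X →ₗ[F] W) :
    BddAbove (Set.range (ra b)) :=
  ⟨finrank F W, by rintro _ ⟨x, rfl⟩; exact ra_le b x⟩

theorem ra_le_gr [FiniteDimensional F W] (b : X →ₗ[F] X →ₗ[F] W) (x : X) : ra b x ≤ gr b :=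
  le_csSup (bddAbove_ra b) ⟨x, rfl⟩

theorem exists_ra_eq [FiniteDimensional F W] (b : X →ₗ[F] X →ₗ[F] W) : ∃ x, ra b x = gr b :=
  Nat.sSup_mem (Set.range_nonempty _) (bddAbove_ra b)

theorem gr_le [FiniteDimensional F W] (b : X →ₗ[F] X →ₗ[F] W) : gr b ≤ finrank F W := by
  obtain ⟨x, hx⟩ := exists_ra_eq b
  rw [← hx]
  exact ra_le b x

theorem rk_le_dim [FiniteDimensional F X] (b : X →ₗ[F] X →ₗ[F] W) (l : Dual F W) :
    rk (TT b) l ≤ finrank F X := by
  have := finrank_rad b l
  omega

/-- stability passes to subspaces -/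
theorem stb_res [FiniteDimensional F X] (φ : ℕ → ℕ) (c : ℕ) (b : X →ₗ[F] X →ₗ[F] W)
    (h : Stb φ c b) (U : Submodule F X) :
    Stb φ (c + (finrank F X - finrank F U)) (res b U) := by
  intro U' A hA
  have h1 := h (U'.map U.subtype) A (by
    intro l hl x hx y hy
    obtain ⟨x', hx', rfl⟩ := hx
    obtain ⟨y', hy', rfl⟩ := hy
    exact hA l hl x' hx' y' hy')
  have h2 : finrank F (U'.map U.subtype) = finrank F U' :=
    LinearEquiv.finrank_eq (Submodule.equivMapOfInjective U.subtype U.injective_subtype U').symm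
  rw [h2] at h1
  have h3 : finrank F U' ≤ finrank F U := Submodule.finrank_le U'
  have h4 : finrank F U ≤ finrank F X := Submodule.finrank_le U
  have h5 : c + (finrank F X - finrank F U) + (finrank F U - finrank F U') =
      c + (finrank F X - finrank F U') := by omega
  rw [h5]
  exact h1

end QSys
end

section

section

/-!
QF-5. Quadratic exponential sums.

PROOF. `e = ZMod.stdAddChar : AddChar (ZMod p) ℂ`, `‖e z‖ = 1`, `e` is primitive. With
`S = ∑ x, e (h x)`, `|S|² = ∑ x, ∑ z, e (h z) conj(e (h x)) = ∑ y, ∑ x, e (h (x + y) - h x)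
 = ∑ y, e (h y) ∑ x, e (b x y)` (substitute `z = x + y`). For fixed `y` the inner sum is a sum of an
additive character over the finite group `R`: it is `|R|` if `b x y = 0` for all `x`, and `0`
otherwise (`AddChar.sum_eq_zero_of_ne_one`, or: `x ↦ b x y` linear onto `ZMod p`). So
`|S|² ≤ |R| * #{y | ∀ x, b x y = 0}`. The set is a subspace `K` (kernel of `b.flip`), and
`finrank (ker b.flip) = finrank R - finrank (range b.flip) = finrank R - finrank (range b)`
(the rank of a bilinear form equals the rank of its transpose; in fact `b` is symmetric here because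
`h (x + y) = h (y + x)`, so `b = b.flip`). Hence `|S|² ≤ p^(2 finrank R - finrank (range b))`.
-/

set_option autoImplicit false

open Module

namespace QSys

theorem gauss_inner (p : ℕ) [Fact p.Prime] {R : Type} [AddCommGroup R] [Module (ZMod p) R]
    [Fintype R] (b : R →ₗ[ZMod p] R →ₗ[ZMod p] ZMod p) (y : R) (hy : b.flip y ≠ 0) :
    ∑ x : R, (ZMod.stdAddChar (b x y) : ℂ) = 0 := by
  classical
  set ψ : AddChar R ℂ :=
    (ZMod.stdAddChar (N := p)).compAddMonoidHom (b.flip y).toAddMonoidHom with hψ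
  have h1 : ∀ x : R, (ZMod.stdAddChar (b x y) : ℂ) = ψ x := by
    intro x
    rfl
  simp_rw [h1]
  apply AddChar.sum_eq_zero_of_ne_one
  intro h
  apply hy
  ext x
  have h2 : ψ x = 1 := by rw [h]; rfl
  have h3 : (ZMod.stdAddChar (b x y) : ℂ) = 1 := by rw [h1 x, h2]
  have h4 : (ZMod.stdAddChar (b x y) : ℂ) = ZMod.stdAddChar (0 : ZMod p) := by
    rw [h3, AddChar.map_zero_eq_one]
  have h5 := ZMod.injective_stdAddChar h4
  simpa using h5

theorem gauss_sq (p : ℕ) [Fact p.Prime] {R : Type} [AddCommGroup R] [Module (ZMod p) R]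
    [Fintype R] (h : R → ZMod p) (b : R →ₗ[ZMod p] R →ₗ[ZMod p] ZMod p)
    (hb : ∀ x y, h (x + y) = h x + h y + b x y) :
    (∑ x : R, (ZMod.stdAddChar (h x) : ℂ)) * (starRingEnd ℂ) (∑ x : R, (ZMod.stdAddChar (h x) : ℂ)) =
      ∑ y : R, (ZMod.stdAddChar (h y) : ℂ) * ∑ x : R, (ZMod.stdAddChar (b x y) : ℂ) := by
  classical
  rw [map_sum, Finset.mul_sum]
  have h1 : ∀ x : R, (∑ z : R, (ZMod.stdAddChar (h z) : ℂ)) *
      (starRingEnd ℂ) (ZMod.stdAddChar (h x) : ℂ) =
      ∑ y : R, (ZMod.stdAddChar (h y) : ℂ) * (ZMod.stdAddChar (b x y) : ℂ) := by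
    intro x
    rw [← Equiv.sum_comp (Equiv.addLeft x), Finset.sum_mul]
    apply Finset.sum_congr rfl
    intro y _
    rw [← AddChar.map_neg_eq_conj, ← AddChar.map_add_eq_mul, ← AddChar.map_add_eq_mul]
    congr 1
    simp only [Equiv.coe_addLeft]
    rw [hb]
    ring
  simp_rw [h1]
  rw [Finset.sum_comm]
  apply Finset.sum_congr rfl
  intro y _
  rw [Finset.mul_sum]

theorem gauss_bound (p : ℕ) [Fact p.Prime] {R : Type} [AddCommGroup R] [Module (ZMod p) R]
    [Fintype R] (h : R → ZMod p) (b : R →ₗ[ZMod p] R →ₗ[ZMod p] ZMod p)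
    (hb : ∀ x y, h (x + y) = h x + h y + b x y) :
    ‖∑ x : R, (ZMod.stdAddChar (h x) : ℂ)‖ ≤
      (p : ℝ) ^ ((finrank (ZMod p) R : ℝ) - (finrank (ZMod p) (LinearMap.range b) : ℝ) / 2) := by
  classical
  have hp : (0 : ℝ) < (p : ℝ) := by exact_mod_cast (Fact.out : p.Prime).pos
  haveI : Module.Finite (ZMod p) R := Module.Finite.of_finite
  set S : ℂ := ∑ x : R, (ZMod.stdAddChar (h x) : ℂ) with hS
  have hsym : ∀ x y, b x y = b y x := by
    intro x y
    have h1 := hb x y
    have h2 := hb y x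
    rw [add_comm y x] at h2
    rw [h1] at h2
    have h3 : h x + h y + b x y = h x + h y + b y x := by rw [h2]; ring
    exact add_left_cancel h3
  have hflip : ∀ y, b.flip y = b y := by
    intro y
    ext x
    simp [hsym x y]
  have hsq : ‖S‖ ^ 2 = ‖S * (starRingEnd ℂ) S‖ := by
    rw [norm_mul, RCLike.norm_conj, sq]
  have hle : ‖S * (starRingEnd ℂ) S‖ ≤
      (Fintype.card R : ℝ) * (Fintype.card (LinearMap.ker b) : ℝ) := by
    rw [gauss_sq p h b hb]
    refine (norm_sum_le _ _).trans ?_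
    have h1 : ∀ y ∈ (Finset.univ : Finset R),
        ‖(ZMod.stdAddChar (h y) : ℂ) * ∑ x : R, (ZMod.stdAddChar (b x y) : ℂ)‖ ≤
        if y ∈ LinearMap.ker b then (Fintype.card R : ℝ) else 0 := by
      intro y _
      rw [norm_mul, AddChar.norm_apply, one_mul]
      split_ifs with hy
      · refine (norm_sum_le _ _).trans ?_
        simp [AddChar.norm_apply]
      · rw [gauss_inner p b y, norm_zero]
        rw [hflip y]
        exact fun hc => hy (LinearMap.mem_ker.mpr hc)
    refine (Finset.sum_le_sum h1).trans ?_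
    rw [← Finset.sum_filter, Finset.sum_const, nsmul_eq_mul, mul_comm]
    apply le_of_eq
    congr 2
    rw [Fintype.card_subtype]
  have hcR : (Fintype.card R : ℝ) = (p : ℝ) ^ (finrank (ZMod p) R : ℝ) := by
    rw [Module.card_eq_pow_finrank (K := ZMod p) (V := R), ZMod.card]
    push_cast
    rw [Real.rpow_natCast]
  have hcK : (Fintype.card (LinearMap.ker b) : ℝ) =
      (p : ℝ) ^ (finrank (ZMod p) (LinearMap.ker b) : ℝ) := by
    rw [Module.card_eq_pow_finrank (K := ZMod p) (V := LinearMap.ker b), ZMod.card]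
    push_cast
    rw [Real.rpow_natCast]
  have hrk : (finrank (ZMod p) (LinearMap.range b) : ℝ) + (finrank (ZMod p) (LinearMap.ker b) : ℝ) =
      (finrank (ZMod p) R : ℝ) := by
    exact_mod_cast LinearMap.finrank_range_add_finrank_ker b
  rw [← hsq, hcR, hcK, ← Real.rpow_add hp] at hle
  have hfin : ‖S‖ ^ 2 ≤ ((p : ℝ) ^ ((finrank (ZMod p) R : ℝ) -
      (finrank (ZMod p) (LinearMap.range b) : ℝ) / 2)) ^ 2 := by
    rw [← Real.rpow_natCast ((p : ℝ) ^ _) 2, ← Real.rpow_mul hp.le]
    refine hle.trans (le_of_eq ?_)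
    congr 1
    push_cast
    linarith
  exact le_of_sq_le_sq hfin (Real.rpow_nonneg hp.le _)

end QSys
end

section

/-!
Theorem B1, Lemma 1 (Bezoutian argument): `τ + s` equations which are affine in `t ∈ F^τ` and affine in
`u ∈ F^s` have at most `binom (τ + s) τ` common zeros with invertible Jacobian.

PROOF. For zeros `z = (t, u)`, `z' = (t', u')` the matrix `J (x_t, l_{u'})` maps `z' - z` to the difference of the
values of the equations at `z'` and `z`, which is `0`. So `det J (x_t, l_{u'}) = 0` for `z ≠ z'`, and it is not `0` for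
`z = z'`. So the functions `u' ↦ det J (x_t, l_{u'})`, one for each zero `z`, are linearly independent; they
are polynomials of degree `≤ τ` in `s` variables.
-/

set_option autoImplicit false

open Module

namespace QSys

variable {F X W : Type} [Field F] [AddCommGroup X] [Module F X] [AddCommGroup W] [Module F W]

/-- Jacobian matrix at `(x, l)` in the directions `v`, `w`, evaluated at the vectors `y`. -/
noncomputable def jac (b : X →ₗ[F] X →ₗ[F] W) {τ s : ℕ} (v : Fin τ → X) (w : Fin s → Dual F W)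
    (y : Fin τ ⊕ Fin s → X) (x : X) (l : Dual F W) : Matrix (Fin τ ⊕ Fin s) (Fin τ ⊕ Fin s) F :=
  Matrix.of fun j i => Sum.elim (fun i => l (b (v i) (y j))) (fun i => w i (b x (y j))) i

@[simp] theorem jac_inl (b : X →ₗ[F] X →ₗ[F] W) {τ s : ℕ} (v : Fin τ → X) (w : Fin s → Dual F W)
    (y : Fin τ ⊕ Fin s → X) (x : X) (l : Dual F W) (j : Fin τ ⊕ Fin s) (i : Fin τ) :
    jac b v w y x l j (Sum.inl i) = l (b (v i) (y j)) := rfl

@[simp] theorem jac_inr (b : X →ₗ[F] X →ₗ[F] W) {τ s : ℕ} (v : Fin τ → X) (w : Fin s → Dual F W)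
    (y : Fin τ ⊕ Fin s → X) (x : X) (l : Dual F W) (j : Fin τ ⊕ Fin s) (i : Fin s) :
    jac b v w y x l j (Sum.inr i) = w i (b x (y j)) := rfl

/-- the vector `(1, u)` -/
def ext1 {s : ℕ} (u : Fin s → F) : Fin (s + 1) → F := Fin.cons 1 u

/-- monomials of degree `τ` in `(1, u)` -/
def monS {τ s : ℕ} (σ : Sym (Fin (s + 1)) τ) (u : Fin s → F) : F :=
  (σ.1.map (ext1 u)).prod

theorem det_mem_span (b : X →ₗ[F] X →ₗ[F] W) {τ s : ℕ} (v : Fin τ → X) (w : Fin s → Dual F W)
    (y : Fin τ ⊕ Fin s → X) (x : X) (l0 : Dual F W) :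
    (fun u : Fin s → F => (jac b v w y x (l0 + ∑ i, u i • w i)).det) ∈
      Submodule.span F (Set.range (monS (F := F) (τ := τ) (s := s))) := by
  classical
  set c : Fin τ → (Fin τ ⊕ Fin s) → Fin (s + 1) → F := fun i j k =>
    Fin.cases (l0 (b (v i) (y j))) (fun k => w k (b (v i) (y j))) k with hc
  have h1 : ∀ (u : Fin s → F) (i : Fin τ) (j : Fin τ ⊕ Fin s),
      jac b v w y x (l0 + ∑ i, u i • w i) j (Sum.inl i) = ∑ k, ext1 u k * c i j k := by
    intro u i j
    rw [jac_inl, Fin.sum_univ_succ]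
    simp [hc, ext1, LinearMap.add_apply, LinearMap.sum_apply]
  have h2 : (fun u : Fin s → F => (jac b v w y x (l0 + ∑ i, u i • w i)).det) =
      ∑ σ : Equiv.Perm (Fin τ ⊕ Fin s), ∑ κ : Fin τ → Fin (s + 1),
        (((Equiv.Perm.sign σ : ℤ) : F) * ((∏ i, c i (σ (Sum.inl i)) (κ i)) *
          (∏ i : Fin s, w i (b x (y (σ (Sum.inr i))))))) •
          monS (⟨Finset.univ.val.map κ, by simp⟩ : Sym (Fin (s + 1)) τ) := by
    funext u
    rw [Matrix.det_apply', Finset.sum_apply]
    refine Finset.sum_congr rfl fun σ _ => ?_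
    rw [Finset.sum_apply, Fintype.prod_sum_type]
    simp only [h1, jac_inr]
    rw [Finset.prod_univ_sum]
    simp only [Fintype.piFinset_univ, Finset.sum_mul, Finset.mul_sum]
    refine Finset.sum_congr rfl fun κ _ => ?_
    rw [Pi.smul_apply, smul_eq_mul, monS]
    simp only [Multiset.map_map, Function.comp_def]
    have h3 : (Multiset.map (fun i => ext1 u (κ i)) Finset.univ.val).prod = ∏ i, ext1 u (κ i) := rfl
    rw [h3, Finset.prod_mul_distrib]
    ring
  rw [h2]
  refine Submodule.sum_mem _ fun σ _ => Submodule.sum_mem _ fun κ _ => Submodule.smul_mem _ _ ?_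
  exact Submodule.subset_span ⟨_, rfl⟩

theorem bez [Finite F] (b : X →ₗ[F] X →ₗ[F] W) {τ s : ℕ} (x0 : X) (l0 : Dual F W)
    (v : Fin τ → X) (w : Fin s → Dual F W) (y : Fin τ ⊕ Fin s → X) :
    Nat.card {z : (Fin τ → F) × (Fin s → F) //
      (∀ j, (l0 + ∑ i, z.2 i • w i) (b (x0 + ∑ i, z.1 i • v i) (y j)) = 0) ∧
      (jac b v w y (x0 + ∑ i, z.1 i • v i) (l0 + ∑ i, z.2 i • w i)).det ≠ 0} ≤ (τ + s).choose τ := by
  classical
  set Z := {z : (Fin τ → F) × (Fin s → F) //
      (∀ j, (l0 + ∑ i, z.2 i • w i) (b (x0 + ∑ i, z.1 i • v i) (y j)) = 0) ∧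
      (jac b v w y (x0 + ∑ i, z.1 i • v i) (l0 + ∑ i, z.2 i • w i)).det ≠ 0} with hZ
  let _ : Fintype Z := Fintype.ofFinite Z
  set S := Submodule.span F (Set.range (monS (F := F) (τ := τ) (s := s))) with hS
  let f : Z → ((Fin s → F) → F) := fun z u =>
    (jac b v w y (x0 + ∑ i, z.1.1 i • v i) (l0 + ∑ i, u i • w i)).det
  have hf : ∀ z, f z ∈ S := fun z => det_mem_span b v w y _ l0
  have hne : ∀ z, f z z.1.2 ≠ 0 := fun z => z.2.2
  have hze : ∀ z z' : Z, z ≠ z' → f z z'.1.2 = 0 := by
    intro z z' hzz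
    rw [← Matrix.exists_mulVec_eq_zero_iff]
    refine ⟨Sum.elim (z'.1.1 - z.1.1) (z'.1.2 - z.1.2), ?_, ?_⟩
    · intro h
      apply hzz
      apply Subtype.ext
      apply Prod.ext
      · funext i
        have := congrFun h (Sum.inl i)
        simp only [Sum.elim_inl, Pi.sub_apply, Pi.zero_apply] at this
        exact (sub_eq_zero.1 this).symm
      · funext i
        have := congrFun h (Sum.inr i)
        simp only [Sum.elim_inr, Pi.sub_apply, Pi.zero_apply] at this
        exact (sub_eq_zero.1 this).symm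
    · funext j
      have e1 := z.2.1 j
      have e2 := z'.2.1 j
      rw [Matrix.mulVec, dotProduct, Fintype.sum_sum_type]
      simp only [jac_inl, jac_inr, Sum.elim_inl, Sum.elim_inr, Pi.sub_apply, Pi.zero_apply]
      have e3 : ∑ i, (l0 + ∑ i, z'.1.2 i • w i) (b (v i) (y j)) * (z'.1.1 i - z.1.1 i) =
          (l0 + ∑ i, z'.1.2 i • w i) (b (x0 + ∑ i, z'.1.1 i • v i) (y j)) -
          (l0 + ∑ i, z'.1.2 i • w i) (b (x0 + ∑ i, z.1.1 i • v i) (y j)) := by
        rw [← map_sub, ← LinearMap.sub_apply, ← map_sub, add_sub_add_left_eq_sub,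
          ← Finset.sum_sub_distrib]
        simp only [← sub_smul, map_sum, map_smul, LinearMap.sum_apply, LinearMap.smul_apply,
          smul_eq_mul]
        exact Finset.sum_congr rfl fun i _ => mul_comm _ _
      have e4 : ∑ i, w i (b (x0 + ∑ i, z.1.1 i • v i) (y j)) * (z'.1.2 i - z.1.2 i) =
          (l0 + ∑ i, z'.1.2 i • w i) (b (x0 + ∑ i, z.1.1 i • v i) (y j)) -
          (l0 + ∑ i, z.1.2 i • w i) (b (x0 + ∑ i, z.1.1 i • v i) (y j)) := by
        rw [← LinearMap.sub_apply, add_sub_add_left_eq_sub, ← Finset.sum_sub_distrib,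
          LinearMap.sum_apply]
        refine Finset.sum_congr rfl fun i _ => ?_
        rw [LinearMap.sub_apply, LinearMap.smul_apply, LinearMap.smul_apply, smul_eq_mul, smul_eq_mul]
        ring
      rw [e3, e4, e1, e2]
      ring
  have hli : LinearIndependent F (fun z => (⟨f z, hf z⟩ : S)) := by
    rw [Fintype.linearIndependent_iff]
    intro g hg z
    have h1 : ∑ z', g z' * f z' z.1.2 = 0 := by
      have h2 := congrArg (fun h : S => (h : (Fin s → F) → F) z.1.2) hg
      simpa [Finset.sum_apply] using h2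
    rw [Finset.sum_eq_single z] at h1
    · exact (mul_eq_zero.1 h1).resolve_right (hne z)
    · intro z' _ hz'
      rw [hze z' z hz', mul_zero]
    · intro h
      exact absurd (Finset.mem_univ _) h
  have h3 : Nat.card Z ≤ finrank F S := by
    rw [Nat.card_eq_fintype_card]
    exact hli.fintype_card_le_finrank
  refine h3.trans ?_
  have h4 := finrank_range_le_card (R := F) (monS (F := F) (τ := τ) (s := s))
  rw [Sym.card_sym_eq_choose, Fintype.card_fin] at h4
  have h5 : s + 1 + τ - 1 = τ + s := by omega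
  rw [h5] at h4
  exact h4

end QSys
end

section

/-!
Theorem B1, Lemma 2: number of tuples with linearly independent images.
-/

set_option autoImplicit false

open Module

namespace QSys

variable {F X Y : Type} [Field F] [AddCommGroup X] [Module F X] [AddCommGroup Y] [Module F Y]

theorem card_ker_mul [Finite F] [FiniteDimensional F X] (L : X →ₗ[F] Y) :
    Nat.card (LinearMap.ker L) * Nat.card F ^ finrank F (LinearMap.range L) = Nat.card X := by
  have h1 : Nat.card (LinearMap.range L) = Nat.card F ^ finrank F (LinearMap.range L) :=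
    Module.natCard_eq_pow_finrank
  have h2 : Nat.card (LinearMap.ker L) = Nat.card F ^ finrank F (LinearMap.ker L) :=
    Module.natCard_eq_pow_finrank
  have h3 : Nat.card X = Nat.card F ^ finrank F X := Module.natCard_eq_pow_finrank
  rw [h2, h3, ← pow_add]
  congr 1
  have := LinearMap.finrank_range_add_finrank_ker L
  omega

theorem card_comb [Finite F] [FiniteDimensional F X] (π : X →ₗ[F] Y) {ι : Type} [Fintype ι]
    (c : ι → F) (hc : c ≠ 0) :
    Nat.card {v : ι → X // ∑ i, c i • π (v i) = 0} * Nat.card F ^ finrank F (LinearMap.range π) =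
      Nat.card X ^ Fintype.card ι := by
  classical
  obtain ⟨i0, hi0⟩ : ∃ i, c i ≠ 0 := by
    by_contra h
    push Not at h
    exact hc (funext h)
  let L : (ι → X) →ₗ[F] Y := ∑ i, c i • (π ∘ₗ LinearMap.proj i)
  have hL : ∀ v, L v = ∑ i, c i • π (v i) := by
    intro v
    simp [L, LinearMap.sum_apply]
  have hr : LinearMap.range L = LinearMap.range π := by
    apply le_antisymm
    · rintro _ ⟨v, rfl⟩
      rw [hL]
      exact Submodule.sum_mem _ fun i _ => Submodule.smul_mem _ _ ⟨v i, rfl⟩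
    · rintro _ ⟨x, rfl⟩
      refine ⟨Pi.single i0 ((c i0)⁻¹ • x), ?_⟩
      rw [hL, Finset.sum_eq_single i0]
      · rw [Pi.single_eq_same, map_smul, smul_smul, mul_inv_cancel₀ hi0, one_smul]
      · intro i _ hi
        rw [Pi.single_eq_of_ne hi, map_zero, smul_zero]
      · intro h
        exact absurd (Finset.mem_univ _) h
  have h1 := card_ker_mul L
  rw [hr] at h1
  have h2 : Nat.card (ι → X) = Nat.card X ^ Fintype.card ι := by
    rw [Nat.card_fun, Nat.card_eq_fintype_card (α := ι)]
  rw [← h2, ← h1]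
  congr 1
  refine Nat.card_congr (Equiv.subtypeEquivRight fun v => ?_)
  rw [LinearMap.mem_ker, hL]

theorem card_dep [Finite F] [FiniteDimensional F X] (π : X →ₗ[F] Y) {ι : Type} [Fintype ι]
    (hm : Fintype.card ι ≤ finrank F (LinearMap.range π)) :
    (Nat.card F - 1) * Nat.card {v : ι → X // ¬ LinearIndependent F (fun i => π (v i))} ≤
      Nat.card X ^ Fintype.card ι := by
  classical
  have hfX : Finite X := Module.finite_of_finite F
  let _ := Fintype.ofFinite F
  let _ := Fintype.ofFinite X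
  set n := Fintype.card ι with hn
  set q := Nat.card F with hq
  have hq2 : 2 ≤ q := Finite.one_lt_card
  set bad : Finset (ι → X) := Finset.univ.filter fun v => ¬ LinearIndependent F (fun i => π (v i)) with hbad
  set nz : Finset (ι → F) := Finset.univ.filter fun c => c ≠ 0 with hnz
  have h1 : ∀ v ∈ bad, q - 1 ≤ (nz.filter fun c => ∑ i, c i • π (v i) = 0).card := by
    intro v hv
    have hv' := (Finset.mem_filter.1 hv).2
    rw [Fintype.linearIndependent_iff] at hv'
    push Not at hv'
    obtain ⟨c, hc, i0, hi0⟩ := hv'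
    have hinj : Function.Injective (fun a : Fˣ => (a : F) • c) := by
      intro a a' haa
      have := congrFun haa i0
      simp only [Pi.smul_apply, smul_eq_mul] at this
      exact Units.ext (mul_right_cancel₀ hi0 this)
    have h2 : (Finset.univ.image (fun a : Fˣ => (a : F) • c)).card = q - 1 := by
      rw [Finset.card_image_of_injective _ hinj, Finset.card_univ, Fintype.card_units, hq,
        Nat.card_eq_fintype_card]
    rw [← h2]
    refine Finset.card_le_card fun d hd => ?_
    obtain ⟨a, _, rfl⟩ := Finset.mem_image.1 hd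
    rw [Finset.mem_filter, hnz, Finset.mem_filter]
    refine ⟨⟨Finset.mem_univ _, ?_⟩, ?_⟩
    · intro h
      have := congrFun h i0
      simp only [Pi.smul_apply, smul_eq_mul, Pi.zero_apply, mul_eq_zero] at this
      rcases this with h' | h'
      · exact a.ne_zero h'
      · exact hi0 h'
    · simp only [Pi.smul_apply, smul_eq_mul, mul_smul]
      rw [← Finset.smul_sum, hc, smul_zero]
  have h3 : ∀ c ∈ nz, (bad.filter fun v => ∑ i, c i • π (v i) = 0).card * q ^ n ≤
      Fintype.card X ^ n := by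
    intro c hc
    have hc0 := (Finset.mem_filter.1 hc).2
    have h4 := card_comb π c hc0
    have h5 : (bad.filter fun v => ∑ i, c i • π (v i) = 0).card ≤
        Nat.card {v : ι → X // ∑ i, c i • π (v i) = 0} := by
      rw [Nat.card_eq_fintype_card, Fintype.card_subtype]
      refine Finset.card_le_card fun v hv => ?_
      exact Finset.mem_filter.2 ⟨Finset.mem_univ _, (Finset.mem_filter.1 hv).2⟩
    rw [Nat.card_eq_fintype_card (α := X)] at h4
    rw [← h4]
    exact Nat.mul_le_mul h5 (Nat.pow_le_pow_right (by omega) hm)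
  have h6 : (q - 1) * bad.card ≤ ∑ c ∈ nz, (bad.filter fun v => ∑ i, c i • π (v i) = 0).card := by
    have h7 := Finset.sum_card_bipartiteAbove_eq_sum_card_bipartiteBelow
      (s := bad) (t := nz) (fun (v : ι → X) (c : ι → F) => ∑ i, c i • π (v i) = 0)
    calc (q - 1) * bad.card = ∑ v ∈ bad, (q - 1) := by rw [Finset.sum_const, smul_eq_mul, mul_comm]
      _ ≤ ∑ v ∈ bad, (nz.filter fun c => ∑ i, c i • π (v i) = 0).card := Finset.sum_le_sum h1
      _ = _ := h7
  have h8 : nz.card ≤ q ^ n := by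
    calc nz.card ≤ (Finset.univ : Finset (ι → F)).card := Finset.card_filter_le _ _
      _ = q ^ n := by rw [Finset.card_univ, Fintype.card_fun, hq, Nat.card_eq_fintype_card]
  have h9 : (q - 1) * bad.card * q ^ n ≤ q ^ n * Fintype.card X ^ n := by
    calc (q - 1) * bad.card * q ^ n ≤
        (∑ c ∈ nz, (bad.filter fun v => ∑ i, c i • π (v i) = 0).card) * q ^ n :=
          Nat.mul_le_mul_right _ h6
      _ = ∑ c ∈ nz, (bad.filter fun v => ∑ i, c i • π (v i) = 0).card * q ^ n := by
          rw [Finset.sum_mul]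
      _ ≤ ∑ c ∈ nz, Fintype.card X ^ n := Finset.sum_le_sum h3
      _ = nz.card * Fintype.card X ^ n := by rw [Finset.sum_const, smul_eq_mul]
      _ ≤ _ := Nat.mul_le_mul_right _ h8
  have h10 : 0 < q ^ n := pow_pos (by omega) _
  have h11 : (q - 1) * bad.card ≤ Fintype.card X ^ n := by
    rw [mul_comm (q ^ n)] at h9
    exact Nat.le_of_mul_le_mul_right h9 h10
  rw [Nat.card_eq_fintype_card (α := X)]
  have h12 : Nat.card {v : ι → X // ¬ LinearIndependent F (fun i => π (v i))} = bad.card := by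
    rw [Nat.card_eq_fintype_card, Fintype.card_subtype]
  rw [h12]
  exact h11

theorem card_indep [Finite F] [FiniteDimensional F X] (π : X →ₗ[F] Y) {ι : Type} [Fintype ι]
    (hm : Fintype.card ι ≤ finrank F (LinearMap.range π)) (hq : 3 ≤ Nat.card F) :
    (1 - 1 / ((Nat.card F : ℝ) - 1)) * (Nat.card X : ℝ) ^ Fintype.card ι ≤
      (Nat.card {v : ι → X // LinearIndependent F (fun i => π (v i))} : ℝ) := by
  classical
  have hfX : Finite X := Module.finite_of_finite F
  have h1 := card_dep π hm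
  have h2 : Nat.card {v : ι → X // LinearIndependent F (fun i => π (v i))} +
      Nat.card {v : ι → X // ¬ LinearIndependent F (fun i => π (v i))} =
      Nat.card X ^ Fintype.card ι := by
    rw [← Nat.card_sum, Nat.card_congr (Equiv.sumCompl _), Nat.card_fun,
      Nat.card_eq_fintype_card (α := ι)]
  have h3 : ((Nat.card F : ℝ) - 1) *
      (Nat.card {v : ι → X // ¬ LinearIndependent F (fun i => π (v i))} : ℝ) ≤
      (Nat.card X : ℝ) ^ Fintype.card ι := by
    have h4 : (((Nat.card F - 1 : ℕ) : ℝ)) = (Nat.card F : ℝ) - 1 := by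
      rw [Nat.cast_sub (by omega)]
      simp
    rw [← h4]
    exact_mod_cast h1
  have h5 : (Nat.card {v : ι → X // LinearIndependent F (fun i => π (v i))} : ℝ) +
      (Nat.card {v : ι → X // ¬ LinearIndependent F (fun i => π (v i))} : ℝ) =
      (Nat.card X : ℝ) ^ Fintype.card ι := by exact_mod_cast h2
  have hq' : (3 : ℝ) ≤ (Nat.card F : ℝ) := by exact_mod_cast hq
  have h6 : (Nat.card {v : ι → X // ¬ LinearIndependent F (fun i => π (v i))} : ℝ) ≤
      (Nat.card X : ℝ) ^ Fintype.card ι / ((Nat.card F : ℝ) - 1) := by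
    rw [le_div_iff₀ (by linarith), mul_comm]
    exact h3
  have h7 : (1 - 1 / ((Nat.card F : ℝ) - 1)) * (Nat.card X : ℝ) ^ Fintype.card ι =
      (Nat.card X : ℝ) ^ Fintype.card ι -
      (Nat.card X : ℝ) ^ Fintype.card ι / ((Nat.card F : ℝ) - 1) := by ring
  rw [h7]
  linarith

end QSys
end

section

/-!
Theorem B1, Lemma 7 (parity): quadratic exponential sums of odd rank change sign under a non-square factor.

PROOF. `p` odd. The quadratic form `x ↦ β x x` (`LinearMap.BilinMap.toQuadraticMap β`) is equivalent to a weighted sum of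
squares (`QuadraticForm.equivalent_weightedSumSquares`, needs `Invertible (2 : ZMod p)`): there are `w : Fin N → ZMod p`,
`N = finrank X`, and a linear equivalence `e : X ≃ₗ (Fin N → ZMod p)` with `β x x = ∑ i, w i * (e x i)^2`. By polarisation
`β x y = ∑ i, w i * e x i * e y i` (`β` symmetric, 2 invertible), so the kernel of `β` corresponds to the `z` with `w i * z i = 0` for all
`i` and `finrank (range β) = #{i | w i ≠ 0}`. Put `G a = ∑ t : ZMod p, stdAddChar (a * t^2)`. Then
`∑ x, stdAddChar (c * β x x) = ∏ i, G (c * w i)` (`Equiv.sum_comp`, `AddChar.map_sum_eq_prod`, `Finset.prod_univ_sum` /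
`Finset.sum_prod_piFinset` or `Fintype.piFinset`). For `a ≠ 0` and `c` not a square: `G a + G (c * a) = ∑ t, (stdAddChar (a * t^2) +
stdAddChar (a * (c * t^2))) = 2 * ∑ y, stdAddChar (a * y) = 0`, because every `y` has the same number (two) of representations
`y = t^2` or `y = c * t^2` in total (`y = 0`: `t = 0` in both; a nonzero square: `±t` in the first; a non-square: `±t` in the second).
So `G (c * a) = - G a` for `a ≠ 0` and `G (c * 0) = G 0`. The product changes by `(-1)^#{i | w i ≠ 0} = -1`.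
-/

set_option autoImplicit false

open Module

namespace QSys

/-- one variable: a nonsquare factor changes the sign -/
theorem par_G (p : ℕ) [Fact p.Prime] (hp : p ≠ 2) (c a : ZMod p) (hc : ¬ IsSquare c) (ha : a ≠ 0) :
    ∑ t : ZMod p, (ZMod.stdAddChar (c * (a * t ^ 2)) : ℂ) = - ∑ t : ZMod p, (ZMod.stdAddChar (a * t ^ 2) : ℂ) := by
  classical
  have hF : ringChar (ZMod p) ≠ 2 := by rw [ZMod.ringChar_zmod_n]; exact hp
  have hc0 : c ≠ 0 := by
    rintro rfl
    exact hc IsSquare.zero
  have h1 : ∀ f : ZMod p → ℂ, ∑ t : ZMod p, f (t ^ 2) =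
      ∑ y : ZMod p, ((quadraticChar (ZMod p) y : ℤ) + 1 : ℂ) * f y := by
    intro f
    rw [← Finset.sum_fiberwise (s := Finset.univ) (g := fun t : ZMod p => t ^ 2)]
    refine Finset.sum_congr rfl fun y _ => ?_
    rw [Finset.sum_congr rfl (g := fun _ => f y) (fun t ht => by rw [(Finset.mem_filter.1 ht).2]),
      Finset.sum_const, nsmul_eq_mul]
    congr 1
    have h2 := quadraticChar_card_sqrts hF y
    have h3 : ({x : ZMod p | x ^ 2 = y}.toFinset) = Finset.univ.filter (fun t : ZMod p => t ^ 2 = y) := by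
      ext t
      simp
    rw [h3] at h2
    exact_mod_cast h2
  have h4 : ∑ t : ZMod p, (ZMod.stdAddChar (c * (a * t ^ 2)) : ℂ) =
      ∑ y : ZMod p, ((quadraticChar (ZMod p) y : ℤ) + 1 : ℂ) * (ZMod.stdAddChar (c * (a * y)) : ℂ) :=
    h1 (fun y => (ZMod.stdAddChar (c * (a * y)) : ℂ))
  have h5 : ∑ t : ZMod p, (ZMod.stdAddChar (a * t ^ 2) : ℂ) =
      ∑ y : ZMod p, ((quadraticChar (ZMod p) y : ℤ) + 1 : ℂ) * (ZMod.stdAddChar (a * y) : ℂ) :=
    h1 (fun y => (ZMod.stdAddChar (a * y) : ℂ))
  have h6 : ∑ y : ZMod p, ((quadraticChar (ZMod p) y : ℤ) + 1 : ℂ) * (ZMod.stdAddChar (c * (a * y)) : ℂ) =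
      ∑ y : ZMod p, ((quadraticChar (ZMod p) (c⁻¹ * y) : ℤ) + 1 : ℂ) * (ZMod.stdAddChar (a * y) : ℂ) := by
    rw [← Equiv.sum_comp (Equiv.mulLeft₀ c hc0)
      (fun y => ((quadraticChar (ZMod p) (c⁻¹ * y) : ℤ) + 1 : ℂ) * (ZMod.stdAddChar (a * y) : ℂ))]
    refine Finset.sum_congr rfl fun y _ => ?_
    show _ = ((quadraticChar (ZMod p) (c⁻¹ * (c * y)) : ℤ) + 1 : ℂ) *
      (ZMod.stdAddChar (a * (c * y)) : ℂ)
    rw [← mul_assoc c⁻¹ c y, inv_mul_cancel₀ hc0, one_mul]
    congr 2
    ring
  have hq : quadraticChar (ZMod p) c⁻¹ = -1 := by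
    rw [quadraticChar_neg_one_iff_not_isSquare]
    intro h
    apply hc
    obtain ⟨d, hd⟩ := h
    refine ⟨d⁻¹, ?_⟩
    rw [← mul_inv, ← hd, inv_inv]
  have h7 : ∑ y : ZMod p, (ZMod.stdAddChar (a * y) : ℂ) = 0 := by
    have h8 : ∑ y : ZMod p, (ZMod.stdAddChar (a * y) : ℂ) = ∑ y : ZMod p, (ZMod.stdAddChar y : ℂ) :=
      Equiv.sum_comp (Equiv.mulLeft₀ a ha) (fun y => (ZMod.stdAddChar y : ℂ))
    rw [h8]
    apply AddChar.sum_eq_zero_of_ne_one
    intro h
    have h9 : (ZMod.stdAddChar (1 : ZMod p) : ℂ) = ZMod.stdAddChar (0 : ZMod p) := by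
      rw [h]; simp
    exact one_ne_zero (ZMod.injective_stdAddChar h9)
  have h10 : ∑ y : ZMod p, ((quadraticChar (ZMod p) (c⁻¹ * y) : ℤ) + 1 : ℂ) * (ZMod.stdAddChar (a * y) : ℂ) +
      ∑ y : ZMod p, ((quadraticChar (ZMod p) y : ℤ) + 1 : ℂ) * (ZMod.stdAddChar (a * y) : ℂ) =
      2 * ∑ y : ZMod p, (ZMod.stdAddChar (a * y) : ℂ) := by
    rw [← Finset.sum_add_distrib, Finset.mul_sum]
    refine Finset.sum_congr rfl fun y _ => ?_
    rw [map_mul, hq]
    push_cast
    ring
  rw [h7, mul_zero] at h10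
  rw [h4, h5, h6]
  linear_combination h10

theorem par_rank (p : ℕ) [Fact p.Prime] {N : ℕ} {X : Type} [AddCommGroup X] [Module (ZMod p) X]
    [FiniteDimensional (ZMod p) X]
    (β : X →ₗ[ZMod p] X →ₗ[ZMod p] ZMod p) (w : Fin N → ZMod p) (e : X ≃ₗ[ZMod p] (Fin N → ZMod p))
    (h : ∀ x y, β x y = ∑ i, w i * (e x i * e y i)) :
    finrank (ZMod p) (LinearMap.range β) = (Finset.univ.filter fun i => w i ≠ 0).card := by
  classical
  -- the map `x ↦ (e x i)_{w i ≠ 0}` is onto with kernel `ker β`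
  let π : X →ₗ[ZMod p] ({i : Fin N // w i ≠ 0} → ZMod p) :=
    (LinearMap.pi fun i => LinearMap.proj i.1) ∘ₗ e.toLinearMap
  have hπ : ∀ x i, π x i = e x i.1 := fun x i => rfl
  have hker : LinearMap.ker β = LinearMap.ker π := by
    ext x
    rw [LinearMap.mem_ker, LinearMap.mem_ker]
    constructor
    · intro hx
      funext i
      have h1 := LinearMap.congr_fun hx (e.symm (Pi.single i.1 1))
      rw [h, LinearMap.zero_apply, LinearEquiv.apply_symm_apply, Finset.sum_eq_single i.1] at h1
      · rw [Pi.single_eq_same, mul_one, mul_eq_zero] at h1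
        exact h1.resolve_left i.2
      · intro j _ hj
        rw [Pi.single_eq_of_ne hj, mul_zero, mul_zero]
      · intro hh
        exact absurd (Finset.mem_univ _) hh
    · intro hx
      ext y
      rw [h, LinearMap.zero_apply]
      refine Finset.sum_eq_zero fun i _ => ?_
      by_cases hw : w i = 0
      · rw [hw, zero_mul]
      · have h2 := congrFun hx ⟨i, hw⟩
        rw [hπ] at h2
        have h3 : e x i = 0 := h2
        rw [h3, zero_mul, mul_zero]
  have hsurj : LinearMap.range π = ⊤ := by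
    rw [LinearMap.range_eq_top]
    intro z
    refine ⟨e.symm (fun i => if hw : w i ≠ 0 then z ⟨i, hw⟩ else 0), ?_⟩
    funext i
    rw [hπ, LinearEquiv.apply_symm_apply, dif_pos i.2]
  have h1 := LinearMap.finrank_range_add_finrank_ker β
  have h2 := LinearMap.finrank_range_add_finrank_ker π
  rw [hsurj, finrank_top, Module.finrank_fintype_fun_eq_card, Fintype.card_subtype, ← hker] at h2
  omega

theorem gauss_odd (p : ℕ) [Fact p.Prime] (hp : p ≠ 2) {X : Type} [AddCommGroup X] [Module (ZMod p) X]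
    [FiniteDimensional (ZMod p) X] [Fintype X]
    (β : X →ₗ[ZMod p] X →ₗ[ZMod p] ZMod p) (hβ : ∀ x y, β x y = β y x)
    (hodd : Odd (finrank (ZMod p) (LinearMap.range β))) (c : ZMod p) (hc : ¬ IsSquare c) :
    ∑ x : X, (ZMod.stdAddChar (c * β x x) : ℂ) = - ∑ x : X, (ZMod.stdAddChar (β x x) : ℂ) := by
  classical
  have h2 : (2 : ZMod p) ≠ 0 := by
    have h2 : ¬ p ∣ 2 := by
      intro h
      have := (Nat.prime_dvd_prime_iff_eq (Fact.out : p.Prime) Nat.prime_two).1 h
      exact hp this
    intro h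
    exact h2 ((ZMod.natCast_eq_zero_iff 2 p).1 (by exact_mod_cast h))
  let _ : Invertible (2 : ZMod p) := invertibleOfNonzero h2
  obtain ⟨w, ⟨E⟩⟩ := QuadraticForm.equivalent_weightedSumSquares (LinearMap.BilinMap.toQuadraticMap β)
  set e := E.toLinearEquiv with he
  have hE : ∀ x, β x x = ∑ i, w i * (e x i * e x i) := by
    intro x
    have h3 := E.map_app x
    rw [LinearMap.BilinMap.toQuadraticMap_apply, QuadraticMap.weightedSumSquares_apply] at h3
    rw [← h3]
    refine Finset.sum_congr rfl fun i _ => ?_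
    rw [smul_eq_mul]
    rfl
  have hpol : ∀ x y, β x y = ∑ i, w i * (e x i * e y i) := by
    intro x y
    have h3 := hE (x + y)
    simp only [map_add, LinearMap.add_apply, Pi.add_apply] at h3
    rw [hE x, hE y, hβ y x] at h3
    have h4 : ∑ i, w i * ((e x i + e y i) * (e x i + e y i)) =
        ∑ i, w i * (e x i * e x i) + ∑ i, w i * (e y i * e y i) + 2 * ∑ i, w i * (e x i * e y i) := by
      rw [Finset.mul_sum, ← Finset.sum_add_distrib, ← Finset.sum_add_distrib]
      refine Finset.sum_congr rfl fun i _ => ?_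
      ring
    rw [h4] at h3
    have h5 : 2 * (β x y - ∑ i, w i * (e x i * e y i)) = 0 := by linear_combination h3
    exact sub_eq_zero.1 ((mul_eq_zero.1 h5).resolve_left h2)
  have hrank := par_rank p β w e hpol
  rw [hrank] at hodd
  have hprod : ∀ d : ZMod p, ∑ x : X, (ZMod.stdAddChar (d * β x x) : ℂ) =
      ∏ i, ∑ t : ZMod p, (ZMod.stdAddChar (d * (w i * t ^ 2)) : ℂ) := by
    intro d
    rw [Finset.prod_univ_sum, Fintype.piFinset_univ, ← Equiv.sum_comp e.toEquiv]
    refine Finset.sum_congr rfl fun x _ => ?_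
    have hmap : ∀ (s : Finset (Fin (finrank (ZMod p) X))) (f : Fin (finrank (ZMod p) X) → ZMod p),
        (ZMod.stdAddChar (∑ i ∈ s, f i) : ℂ) = ∏ i ∈ s, (ZMod.stdAddChar (f i) : ℂ) := by
      intro s f
      induction s using Finset.induction_on with
      | empty => simp
      | insert a s ha ih => rw [Finset.sum_insert ha, Finset.prod_insert ha, AddChar.map_add_eq_mul, ih]
    rw [hE, Finset.mul_sum, hmap]
    refine Finset.prod_congr rfl fun i _ => ?_
    congr 1
    show d * (w i * (e x i * e x i)) = d * (w i * (e x i) ^ 2)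
    ring
  have h1 := hprod c
  have h1' := hprod 1
  simp only [one_mul] at h1'
  rw [h1, h1']
  have h6 : ∀ i, ∑ t : ZMod p, (ZMod.stdAddChar (c * (w i * t ^ 2)) : ℂ) =
      (if w i ≠ 0 then (-1 : ℂ) else 1) * ∑ t : ZMod p, (ZMod.stdAddChar (w i * t ^ 2) : ℂ) := by
    intro i
    by_cases hw : w i = 0
    · simp [hw]
    · rw [if_pos hw, par_G p hp c (w i) hc hw]
      ring
  rw [Finset.prod_congr rfl fun i _ => h6 i, Finset.prod_mul_distrib, Finset.prod_ite]
  simp only [Finset.prod_const, one_pow, mul_one]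
  rw [hodd.neg_one_pow]
  ring

end QSys
end

section

/-!
Theorem B1, Lemma 3: most vectors attain the generic rank.
-/

set_option autoImplicit false

open Module

namespace QSys

variable {F X W : Type} [Field F] [AddCommGroup X] [Module F X] [AddCommGroup W] [Module F W]

theorem card_det_line [Finite F] {s : ℕ} (M : Matrix (Fin s) (Fin s) F) :
    Nat.card {t : F // (M + t • (1 : Matrix (Fin s) (Fin s) F)).det = 0} ≤ s := by
  classical
  let _ := Fintype.ofFinite F
  have h1 : ∀ t : F, (M + t • (1 : Matrix (Fin s) (Fin s) F)).det = (-M).charpoly.eval t := by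
    intro t
    rw [Matrix.eval_charpoly]
    congr 1
    ext i j
    simp [Matrix.scalar_apply, Matrix.one_apply, Matrix.diagonal_apply]
    ring
  have h2 : (-M).charpoly ≠ 0 := (Matrix.charpoly_monic _).ne_zero
  have h3 : (-M).charpoly.roots.card ≤ s := by
    have := Polynomial.card_roots' (-M).charpoly
    rw [Matrix.charpoly_natDegree_eq_dim, Fintype.card_fin] at this
    exact this
  rw [Nat.card_eq_fintype_card, Fintype.card_subtype]
  calc (Finset.univ.filter fun t : F => (M + t • (1 : Matrix (Fin s) (Fin s) F)).det = 0).card ≤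
      (-M).charpoly.roots.toFinset.card := by
        refine Finset.card_le_card fun t ht => ?_
        rw [Multiset.mem_toFinset, Polynomial.mem_roots h2, Polynomial.IsRoot, ← h1]
        exact (Finset.mem_filter.1 ht).2
    _ ≤ (-M).charpoly.roots.card := Multiset.toFinset_card_le _
    _ ≤ s := h3

/-- good coordinates at a point -/
theorem exists_dual_coord [FiniteDimensional F W] (b : X →ₗ[F] X →ₗ[F] W) (x0 : X) :
    ∃ (l : Fin (ra b x0) → Dual F W) (y : Fin (ra b x0) → X),
      ∀ i j, l i (b x0 (y j)) = if i = j then 1 else 0 := by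
  classical
  let B : Module.Basis (Fin (ra b x0)) F (LinearMap.range (b x0)) := Module.finBasis F _
  have h1 : ∀ i, ∃ g : W →ₗ[F] F, g ∘ₗ (LinearMap.range (b x0)).subtype = B.coord i := fun i =>
    LinearMap.exists_extend (B.coord i)
  choose l hl using h1
  have h2 : ∀ j, ∃ y, b x0 y = B j := fun j => (B j).2
  choose y hy using h2
  refine ⟨l, y, fun i j => ?_⟩
  have h3 := LinearMap.congr_fun (hl i) (B j)
  rw [LinearMap.comp_apply, Submodule.subtype_apply, ← hy j] at h3
  rw [h3, Module.Basis.coord_apply, Module.Basis.repr_self, Finsupp.single_apply]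
  simp [eq_comm]

theorem le_ra_of_det [FiniteDimensional F W] (b : X →ₗ[F] X →ₗ[F] W) {s : ℕ} (l : Fin s → Dual F W)
    (y : Fin s → X) (x : X) (h : (Matrix.of fun i j => l i (b x (y j))).det ≠ 0) : s ≤ ra b x := by
  classical
  have h1 : LinearIndependent F (fun j => (⟨b x (y j), ⟨y j, rfl⟩⟩ : LinearMap.range (b x))) := by
    rw [Fintype.linearIndependent_iff]
    intro c hc
    have h2 : ∑ j, c j • b x (y j) = 0 := by
      have := congrArg (fun z : LinearMap.range (b x) => (z : W)) hc
      simpa using this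
    have h3 : (Matrix.of fun i j => l i (b x (y j))).mulVec c = 0 := by
      funext i
      have := congrArg (l i) h2
      rw [map_sum, map_zero] at this
      rw [Matrix.mulVec, dotProduct]
      simp only [Matrix.of_apply, Pi.zero_apply]
      rw [← this]
      refine Finset.sum_congr rfl fun j _ => ?_
      rw [map_smul, smul_eq_mul, mul_comm]
    have h4 : c = 0 := Matrix.eq_zero_of_mulVec_eq_zero h h3
    intro i
    exact congrFun h4 i
  have := h1.fintype_card_le_finrank
  rw [Fintype.card_fin] at this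
  exact this

theorem card_gen [Finite F] [FiniteDimensional F X] [FiniteDimensional F W]
    (b : X →ₗ[F] X →ₗ[F] W) :
    (1 - (gr b : ℝ) / Nat.card F) * (Nat.card X : ℝ) ≤ (Nat.card {x : X // ra b x = gr b} : ℝ) := by
  classical
  have hfX : Finite X := Module.finite_of_finite F
  let _ := Fintype.ofFinite F
  let _ := Fintype.ofFinite X
  obtain ⟨x0, hx0⟩ := exists_ra_eq b
  obtain ⟨l, y, hly⟩ := exists_dual_coord b x0
  let M : X → Matrix (Fin (ra b x0)) (Fin (ra b x0)) F := fun x => Matrix.of fun i j => l i (b x (y j))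
  have hM : ∀ x (t : F), M (x + t • x0) = M x + t • (1 : Matrix (Fin (ra b x0)) (Fin (ra b x0)) F) := by
    intro x t
    ext i j
    simp only [M, Matrix.of_apply, map_add, map_smul, LinearMap.add_apply, LinearMap.smul_apply,
      smul_eq_mul, Matrix.add_apply, Matrix.smul_apply, Matrix.one_apply, hly]
  have hq0 : 0 < Fintype.card F := Fintype.card_pos
  set bad : Finset X := Finset.univ.filter fun x => (M x).det = 0 with hbad
  have h1 : Fintype.card F * bad.card ≤ ra b x0 * Fintype.card X := by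
    have h2 : ∑ t : F, (Finset.univ.filter fun x : X => (M (x + t • x0)).det = 0).card =
        Fintype.card F * bad.card := by
      have h3 : ∀ t : F, (Finset.univ.filter fun x : X => (M (x + t • x0)).det = 0).card =
          bad.card := by
        intro t
        refine Finset.card_bij (fun x _ => x + t • x0) ?_ ?_ ?_
        · intro x hx
          exact Finset.mem_filter.2 ⟨Finset.mem_univ _, (Finset.mem_filter.1 hx).2⟩
        · intro x _ x' _ h
          exact add_right_cancel h
        · intro x hx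
          refine ⟨x - t • x0, Finset.mem_filter.2 ⟨Finset.mem_univ _, ?_⟩, sub_add_cancel _ _⟩
          rw [sub_add_cancel]
          exact (Finset.mem_filter.1 hx).2
      rw [Finset.sum_congr rfl fun t _ => h3 t, Finset.sum_const, smul_eq_mul, Finset.card_univ]
    have h4 : ∑ t : F, (Finset.univ.filter fun x : X => (M (x + t • x0)).det = 0).card =
        ∑ x : X, (Finset.univ.filter fun t : F => (M (x + t • x0)).det = 0).card :=
      Finset.sum_card_bipartiteAbove_eq_sum_card_bipartiteBelow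
        (s := (Finset.univ : Finset F)) (t := (Finset.univ : Finset X))
        (fun (t : F) (x : X) => (M (x + t • x0)).det = 0)
    rw [← h2, h4]
    calc ∑ x : X, (Finset.univ.filter fun t : F => (M (x + t • x0)).det = 0).card ≤
        ∑ x : X, ra b x0 := by
          refine Finset.sum_le_sum fun x _ => ?_
          have h5 := card_det_line (M x)
          rw [Nat.card_eq_fintype_card, Fintype.card_subtype] at h5
          simpa only [hM] using h5
      _ = ra b x0 * Fintype.card X := by rw [Finset.sum_const, smul_eq_mul, Finset.card_univ, mul_comm]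
  have h6 : Fintype.card X ≤ Nat.card {x : X // ra b x = gr b} + bad.card := by
    rw [Nat.card_eq_fintype_card, Fintype.card_subtype, ← Finset.card_univ (α := X)]
    refine (Finset.card_le_card ?_).trans (Finset.card_union_le _ _)
    intro x _
    rw [Finset.mem_union]
    by_cases hx : (M x).det = 0
    · right
      exact Finset.mem_filter.2 ⟨Finset.mem_univ _, hx⟩
    · left
      refine Finset.mem_filter.2 ⟨Finset.mem_univ _, ?_⟩
      have := le_ra_of_det b l y x hx
      exact le_antisymm (ra_le_gr b x) (by rw [← hx0]; exact this)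
  have h7 : (Fintype.card X : ℝ) ≤ (Nat.card {x : X // ra b x = gr b} : ℝ) + (bad.card : ℝ) := by
    exact_mod_cast h6
  have h8 : (Fintype.card F : ℝ) * (bad.card : ℝ) ≤ (ra b x0 : ℝ) * (Fintype.card X : ℝ) := by
    exact_mod_cast h1
  have hq0' : (0 : ℝ) < (Fintype.card F : ℝ) := by exact_mod_cast hq0
  rw [Nat.card_eq_fintype_card (α := X), Nat.card_eq_fintype_card (α := F)]
  have h9 : (bad.card : ℝ) ≤ (gr b : ℝ) / (Fintype.card F : ℝ) * (Fintype.card X : ℝ) := by
    rw [div_mul_eq_mul_div, le_div_iff₀ hq0', ← hx0]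
    linarith
  have h10 : (1 - (gr b : ℝ) / (Fintype.card F : ℝ)) * (Fintype.card X : ℝ) =
      (Fintype.card X : ℝ) - (gr b : ℝ) / (Fintype.card F : ℝ) * (Fintype.card X : ℝ) := by ring
  rw [h10]
  linarith

end QSys
end

section

/-!
Theorem B1, Lemma 4: for most choices of directions the Jacobian is invertible.
-/

set_option autoImplicit false

open Module

namespace QSys

variable {F X W : Type} [Field F] [AddCommGroup X] [Module F X] [AddCommGroup W] [Module F W]

theorem finrank_range_pi [FiniteDimensional F X] {ι : Type} [Fintype ι] (Φ : ι → Dual F X)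
    (h : LinearIndependent F Φ) :
    finrank F (LinearMap.range (LinearMap.pi Φ)) = Fintype.card ι := by
  classical
  have h1 : LinearMap.range (LinearMap.pi Φ) = ⊤ := by
    by_contra hne
    obtain ⟨f, hf0, hf⟩ := Submodule.exists_le_ker_of_lt_top _ (lt_top_iff_ne_top.2 hne)
    apply hf0
    have h2 : ∑ k, f (Pi.single k 1) • Φ k = 0 := by
      ext y
      have h3 : f (LinearMap.pi Φ y) = 0 := LinearMap.mem_ker.1 (hf ⟨y, rfl⟩)
      rw [LinearMap.pi_apply_eq_sum_univ f] at h3
      simp only [LinearMap.pi_apply, smul_eq_mul] at h3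
      simp only [LinearMap.sum_apply, LinearMap.smul_apply, smul_eq_mul, LinearMap.zero_apply]
      rw [← h3]
      refine Finset.sum_congr rfl fun k _ => ?_
      rw [mul_comm]
      congr 2
      funext j
      simp [Pi.single_apply, eq_comm]
    have h4 := Fintype.linearIndependent_iff.1 h _ h2
    apply LinearMap.pi_ext'
    intro k
    ext
    simpa using h4 k
  rw [h1, finrank_top, Module.finrank_fintype_fun_eq_card]

theorem jac_det_ne [FiniteDimensional F X] (b : X →ₗ[F] X →ₗ[F] W) {τ s : ℕ} (v : Fin τ → X)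
    (w : Fin s → Dual F W) (y : Fin τ ⊕ Fin s → X) (x : X) (l : Dual F W)
    (h : LinearIndependent F (fun j => LinearMap.pi (Sum.elim (fun i => TT b l (v i))
      (fun i => (w i) ∘ₗ (b x))) (y j))) : (jac b v w y x l).det ≠ 0 := by
  classical
  have h1 : (fun j => LinearMap.pi (Sum.elim (fun i => TT b l (v i))
      (fun i => (w i) ∘ₗ (b x))) (y j)) = (jac b v w y x l).row := by
    funext j k
    rcases k with k | k
    · rfl
    · rfl
  rw [h1, Matrix.linearIndependent_rows_iff_isUnit, Matrix.isUnit_iff_isUnit_det] at h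
  exact h.ne_zero

theorem indep_sum [FiniteDimensional F X] (b : X →ₗ[F] X →ₗ[F] W) (hb : ∀ x y, b x y = b y x)
    {τ s : ℕ} (v : Fin τ → X) (w : Fin s → Dual F W) (x : X) (l : Dual F W)
    (hv : LinearIndependent F (fun i => TT b l (v i)))
    (hw : LinearIndependent F (fun i => ((b x) ∘ₗ (rad b l).subtype).dualMap (w i))) :
    LinearIndependent F (Sum.elim (fun i => TT b l (v i)) (fun i => (w i) ∘ₗ (b x)) :
      Fin τ ⊕ Fin s → Dual F X) := by
  classical
  rw [Fintype.linearIndependent_iff]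
  intro g hg
  rw [Fintype.sum_sum_type] at hg
  simp only [Sum.elim_inl, Sum.elim_inr] at hg
  have h1 : ∑ i, g (Sum.inr i) • ((b x) ∘ₗ (rad b l).subtype).dualMap (w i) = 0 := by
    ext y
    have h2 := LinearMap.congr_fun hg (y : X)
    simp only [LinearMap.add_apply, LinearMap.sum_apply, LinearMap.smul_apply, smul_eq_mul,
      LinearMap.comp_apply, TT_apply, LinearMap.zero_apply] at h2
    have h3 : ∀ i, l (b (v i) y) = 0 := by
      intro i
      rw [hb]
      exact (mem_rad b l y).1 y.2 (v i)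
    simp only [h3, mul_zero, Finset.sum_const_zero, zero_add] at h2
    simp only [LinearMap.sum_apply, LinearMap.smul_apply, smul_eq_mul, LinearMap.dualMap_apply,
      LinearMap.comp_apply, Submodule.subtype_apply, LinearMap.zero_apply]
    exact h2
  have h4 := Fintype.linearIndependent_iff.1 hw _ h1
  simp only [h4, zero_smul, Finset.sum_const_zero, add_zero] at hg
  have h5 := Fintype.linearIndependent_iff.1 hv _ hg
  rintro (i | i)
  · exact h5 i
  · exact h4 i

theorem good_card [Finite F] [FiniteDimensional F X] [FiniteDimensional F W]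
    (b : X →ₗ[F] X →ₗ[F] W) (hb : ∀ x y, b x y = b y x) {τ s : ℕ} (x : X) (l : Dual F W)
    (hl : rk (TT b) l = τ) (hx : x ∈ rad b l) (hs : ra (res b (rad b l)) ⟨x, hx⟩ = s)
    (hq : 3 ≤ Nat.card F) :
    (1 - 1 / ((Nat.card F : ℝ) - 1)) ^ 3 *
      ((Nat.card X : ℝ) ^ τ * (Nat.card (Dual F W) : ℝ) ^ s * (Nat.card X : ℝ) ^ (τ + s)) ≤
      (Nat.card {d : (Fin τ → X) × (Fin s → Dual F W) × (Fin τ ⊕ Fin s → X) //
        (jac b d.1 d.2.1 d.2.2 x l).det ≠ 0} : ℝ) := by
  classical
  have hfX : Finite X := Module.finite_of_finite F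
  have hfL : Finite (Dual F W) := Module.finite_of_finite F
  let _ := Fintype.ofFinite F
  let _ := Fintype.ofFinite X
  let _ := Fintype.ofFinite (Dual F W)
  set γ : ℝ := 1 - 1 / ((Nat.card F : ℝ) - 1) with hγ
  have hq' : (3 : ℝ) ≤ (Nat.card F : ℝ) := by exact_mod_cast hq
  have hγ0 : 0 ≤ γ := by
    rw [hγ, sub_nonneg, div_le_one (by linarith)]
    linarith
  have hr2 : finrank F (LinearMap.range ((b x) ∘ₗ (rad b l).subtype).dualMap) = s := by
    rw [LinearMap.finrank_range_dualMap_eq_finrank_range, ← hs]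
    rfl
  have hA := card_indep (TT b l) (ι := Fin τ) (by rw [Fintype.card_fin, ← hl]; rfl) hq
  have hB := card_indep ((b x) ∘ₗ (rad b l).subtype).dualMap (ι := Fin s)
    (by rw [Fintype.card_fin, hr2]) hq
  rw [Fintype.card_fin, ← hγ] at hA hB
  set A : Finset (Fin τ → X) :=
    Finset.univ.filter fun v => LinearIndependent F (fun i => TT b l (v i)) with hAd
  set B : Finset (Fin s → Dual F W) := Finset.univ.filter fun w =>
    LinearIndependent F (fun i => ((b x) ∘ₗ (rad b l).subtype).dualMap (w i)) with hBd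
  have hA' : γ * (Nat.card X : ℝ) ^ τ ≤ (A.card : ℝ) := by
    rw [Nat.card_eq_fintype_card (α := {v : Fin τ → X // _}), Fintype.card_subtype] at hA
    exact hA
  have hB' : γ * (Nat.card (Dual F W) : ℝ) ^ s ≤ (B.card : ℝ) := by
    rw [Nat.card_eq_fintype_card (α := {v : Fin s → Dual F W // _}), Fintype.card_subtype] at hB
    exact hB
  have hC : ∀ v ∈ A, ∀ w ∈ B, γ * (Nat.card X : ℝ) ^ (τ + s) ≤
      ((Finset.univ.filter fun y : Fin τ ⊕ Fin s → X => (jac b v w y x l).det ≠ 0).card : ℝ) := by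
    intro v hv w hw
    have hv' := (Finset.mem_filter.1 hv).2
    have hw' := (Finset.mem_filter.1 hw).2
    have h1 := indep_sum b hb v w x l hv' hw'
    have h2 := finrank_range_pi _ h1
    have h3 := card_indep (LinearMap.pi (Sum.elim (fun i => TT b l (v i))
      (fun i => (w i) ∘ₗ (b x)))) (ι := Fin τ ⊕ Fin s) h2.ge hq
    rw [Fintype.card_sum, Fintype.card_fin, Fintype.card_fin, ← hγ] at h3
    refine h3.trans ?_
    rw [Nat.card_eq_fintype_card (α := {v : Fin τ ⊕ Fin s → X // _}), Fintype.card_subtype]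
    exact_mod_cast Finset.card_le_card fun y hy => Finset.mem_filter.2
      ⟨Finset.mem_univ _, jac_det_ne b v w y x l (Finset.mem_filter.1 hy).2⟩
  have hsub : ∑ v ∈ A, ∑ w ∈ B,
      ((Finset.univ.filter fun y : Fin τ ⊕ Fin s → X => (jac b v w y x l).det ≠ 0).card : ℝ) ≤
      (Nat.card {d : (Fin τ → X) × (Fin s → Dual F W) × (Fin τ ⊕ Fin s → X) //
        (jac b d.1 d.2.1 d.2.2 x l).det ≠ 0} : ℝ) := by
    have h1 : (Nat.card {d : (Fin τ → X) × (Fin s → Dual F W) × (Fin τ ⊕ Fin s → X) //
        (jac b d.1 d.2.1 d.2.2 x l).det ≠ 0}) = ∑ v : Fin τ → X, ∑ w : Fin s → Dual F W,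
        (Finset.univ.filter fun y : Fin τ ⊕ Fin s → X => (jac b v w y x l).det ≠ 0).card := by
      rw [Nat.card_eq_fintype_card, Fintype.card_subtype, Finset.card_filter,
        Fintype.sum_prod_type]
      refine Finset.sum_congr rfl fun v _ => ?_
      rw [Fintype.sum_prod_type]
      refine Finset.sum_congr rfl fun w _ => ?_
      rw [Finset.card_filter]
    rw [h1]
    push_cast
    refine (Finset.sum_le_sum fun v _ => ?_).trans
      (Finset.sum_le_sum_of_subset_of_nonneg (Finset.subset_univ A) fun v _ _ =>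
        Finset.sum_nonneg fun w _ => Nat.cast_nonneg _)
    exact Finset.sum_le_sum_of_subset_of_nonneg (Finset.subset_univ B) fun w _ _ => Nat.cast_nonneg _
  refine le_trans ?_ hsub
  calc γ ^ 3 * ((Nat.card X : ℝ) ^ τ * (Nat.card (Dual F W) : ℝ) ^ s * (Nat.card X : ℝ) ^ (τ + s)) =
      (γ * (Nat.card X : ℝ) ^ τ) * ((γ * (Nat.card (Dual F W) : ℝ) ^ s) *
        (γ * (Nat.card X : ℝ) ^ (τ + s))) := by ring
    _ ≤ (A.card : ℝ) * ((B.card : ℝ) * (γ * (Nat.card X : ℝ) ^ (τ + s))) := by
        have h0 : 0 ≤ γ * (Nat.card X : ℝ) ^ (τ + s) := mul_nonneg hγ0 (by positivity)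
        refine mul_le_mul hA' (mul_le_mul_of_nonneg_right hB' h0) ?_ (Nat.cast_nonneg _)
        exact mul_nonneg (mul_nonneg hγ0 (by positivity)) h0
    _ = ∑ v ∈ A, ∑ w ∈ B, γ * (Nat.card X : ℝ) ^ (τ + s) := by
        rw [Finset.sum_const, Finset.sum_const, nsmul_eq_mul, nsmul_eq_mul]
    _ ≤ _ := Finset.sum_le_sum fun v hv => Finset.sum_le_sum fun w hw => hC v hv w hw

end QSys
end

section

/-!
Theorem B1, numerical lemmas with Fibonacci numbers.

PROOF of `sum_choose_even`: `∑_{m ≤ N} binom (N+m) (2m) = fib (2N+1)`: `Nat.fib_succ_eq_sum_choose` with `n = 2N`: the pairs `(i, j)`,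
`i + j = 2N`, `choose i j` (zero for `j > i`); `j = N - m`, `i = N + m`, `choose (N+m) (N-m) = choose (N+m) (2m)`. Only `≤` is needed.
`sum_choose_odd`: the same with `n = 2N+1`, `j = N - m`, `i = N + 1 + m`, `choose (N+1+m) (N-m) = choose (N+m+1) (2m+1)`.

PROOF of `sum_even`: the term of `(m, s)`: put `N = m + s`; `(2*m+s).choose (2*m) = (N+m).choose (2*m)` and
`q^(r-s) / q^m = q^r / q^N` (`s ≤ r`). Group by `N ∈ [N0, M + r]`; for given `N` the `m` are in `[1, N]`, and
`∑_{m=1}^N binom (N+m) (2m) ≤ fib (2N+1) - 1` (the term `m = 0` is `1`).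
PROOF of `sum_odd`: the same; `m ≥ 0`, `(2*m+1+s).choose (2*m+1) = (N+m+1).choose (2*m+1)`.

PROOF of `sum_fib1`, `sum_fib2`: `fib (2N+3) = 3 fib (2N+1) - fib (2N-1) ≤ 3 * fib (2N+1)` (also `fib (n+2) ≤ 3 * fib n` for `n ≥ 1`: `fib (n+2) =
fib n + fib (n+1) ≤ fib n + 2 fib n`), so the terms are at most `(3/q)^(N-N0)` times the first one; geometric series.
-/

set_option autoImplicit false

namespace QSys

theorem sum_choose_even (N : ℕ) :
    ∑ m ∈ Finset.range (N + 1), (N + m).choose (2 * m) ≤ Nat.fib (2 * N + 1) := by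
  rw [Nat.fib_succ_eq_sum_choose]
  have h : ∀ m ∈ Finset.range (N + 1), (N + m).choose (2 * m) = (N + m).choose (N - m) := by
    intro m hm
    rw [Finset.mem_range] at hm
    exact Nat.choose_symm_of_eq_add (by omega)
  rw [Finset.sum_congr rfl h,
    ← Finset.sum_image (f := fun p : ℕ × ℕ => p.1.choose p.2) (g := fun m => (N + m, N - m))
      (fun a _ b _ hab => by
        simp only [Prod.mk.injEq] at hab
        omega)]
  refine Finset.sum_le_sum_of_subset fun p hp => ?_
  rw [Finset.mem_image] at hp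
  obtain ⟨m, hm, rfl⟩ := hp
  rw [Finset.mem_range] at hm
  rw [Finset.HasAntidiagonal.mem_antidiagonal]
  simp only
  omega

theorem sum_choose_odd (N : ℕ) :
    ∑ m ∈ Finset.range (N + 1), (N + m + 1).choose (2 * m + 1) ≤ Nat.fib (2 * N + 2) := by
  rw [Nat.fib_succ_eq_sum_choose]
  have h : ∀ m ∈ Finset.range (N + 1),
      (N + m + 1).choose (2 * m + 1) = (N + m + 1).choose (N - m) := by
    intro m hm
    rw [Finset.mem_range] at hm
    exact Nat.choose_symm_of_eq_add (by omega)
  rw [Finset.sum_congr rfl h,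
    ← Finset.sum_image (f := fun p : ℕ × ℕ => p.1.choose p.2) (g := fun m => (N + m + 1, N - m))
      (fun a _ b _ hab => by
        simp only [Prod.mk.injEq] at hab
        omega)]
  refine Finset.sum_le_sum_of_subset fun p hp => ?_
  rw [Finset.mem_image] at hp
  obtain ⟨m, hm, rfl⟩ := hp
  rw [Finset.mem_range] at hm
  rw [Finset.HasAntidiagonal.mem_antidiagonal]
  simp only
  omega

private theorem NumFib_geom (q : ℝ) (hq : 3 < q) (r N0 K : ℕ) (a : ℕ → ℝ) (ha : ∀ n, 0 ≤ a n)
    (h3 : ∀ n, a (n + 1) ≤ 3 * a n) :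
    ∑ N ∈ Finset.Icc N0 K, q ^ r / q ^ N * a N ≤ q ^ r / q ^ N0 * a N0 / (1 - 3 / q) := by
  have hq0 : 0 < q := by linarith
  have hρ : 3 / q < 1 := by rw [div_lt_one hq0]; exact hq
  have h1ρ : 0 < 1 - 3 / q := by linarith
  have ht0 : ∀ n, 0 ≤ q ^ r / q ^ n * a n := fun n => mul_nonneg (by positivity) (ha n)
  have hstep : ∀ n, q ^ r / q ^ (n + 1) * a (n + 1) ≤ 3 / q * (q ^ r / q ^ n * a n) := by
    intro n
    calc q ^ r / q ^ (n + 1) * a (n + 1) ≤ q ^ r / q ^ (n + 1) * (3 * a n) :=
          mul_le_mul_of_nonneg_left (h3 n) (by positivity)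
      _ = 3 / q * (q ^ r / q ^ n * a n) := by
          rw [pow_succ]
          field_simp
  have hind : ∀ n, ∑ i ∈ Finset.range n, q ^ r / q ^ (N0 + i) * a (N0 + i) +
      q ^ r / q ^ (N0 + n) * a (N0 + n) / (1 - 3 / q) ≤ q ^ r / q ^ N0 * a N0 / (1 - 3 / q) := by
    intro n
    induction n with
    | zero => simp
    | succ n ih =>
      rw [Finset.sum_range_succ]
      have h4 : q ^ r / q ^ (N0 + n) * a (N0 + n) +
          q ^ r / q ^ (N0 + (n + 1)) * a (N0 + (n + 1)) / (1 - 3 / q) ≤
          q ^ r / q ^ (N0 + n) * a (N0 + n) / (1 - 3 / q) := by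
        rw [le_div_iff₀ h1ρ, add_mul, div_mul_cancel₀ _ h1ρ.ne']
        have h8 := hstep (N0 + n)
        have h9 : q ^ r / q ^ (N0 + n) * a (N0 + n) * (1 - 3 / q) =
          q ^ r / q ^ (N0 + n) * a (N0 + n) - 3 / q * (q ^ r / q ^ (N0 + n) * a (N0 + n)) := by ring
        rw [h9]
        have h10 : N0 + (n + 1) = N0 + n + 1 := rfl
        rw [h10]
        linarith
      linarith
  rcases Nat.lt_or_ge K N0 with h | h
  · rw [Finset.Icc_eq_empty (by omega), Finset.sum_empty]
    exact div_nonneg (ht0 N0) h1ρ.le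
  · have h5 := hind (K + 1 - N0)
    have h6 : ∑ N ∈ Finset.Icc N0 K, q ^ r / q ^ N * a N =
        ∑ i ∈ Finset.range (K + 1 - N0), q ^ r / q ^ (N0 + i) * a (N0 + i) := by
      rw [← Finset.sum_Ico_eq_sum_range (fun N => q ^ r / q ^ N * a N) N0 (K + 1)]
      rfl
    rw [h6]
    have h7 := div_nonneg (ht0 (N0 + (K + 1 - N0))) h1ρ.le
    linarith

private theorem NumFib_three (n : ℕ) : Nat.fib (n + 1 + 2) ≤ 3 * Nat.fib (n + 1) := by
  have h1 : Nat.fib (n + 1 + 2) = Nat.fib (n + 1) + Nat.fib (n + 2) := Nat.fib_add_two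
  have h2 : Nat.fib (n + 2) = Nat.fib n + Nat.fib (n + 1) := Nat.fib_add_two
  have h3 : Nat.fib n ≤ Nat.fib (n + 1) := Nat.fib_le_fib_succ
  omega

theorem sum_fib1 (q : ℝ) (hq : 3 < q) (r N0 K : ℕ) :
    ∑ N ∈ Finset.Icc N0 K, q ^ r / q ^ N * (Nat.fib (2 * N + 1) : ℝ) ≤
      q ^ r / q ^ N0 * (Nat.fib (2 * N0 + 1) : ℝ) / (1 - 3 / q) := by
  refine NumFib_geom q hq r N0 K (fun N => (Nat.fib (2 * N + 1) : ℝ)) (fun n => by positivity)
    fun n => ?_
  have h := NumFib_three (2 * n)
  have e : 2 * (n + 1) + 1 = 2 * n + 1 + 2 := by ring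
  rw [e]
  exact_mod_cast h

theorem sum_fib2 (q : ℝ) (hq : 3 < q) (r N0 K : ℕ) :
    ∑ N ∈ Finset.Icc N0 K, q ^ r / q ^ N * (Nat.fib (2 * N + 2) : ℝ) ≤
      q ^ r / q ^ N0 * (Nat.fib (2 * N0 + 2) : ℝ) / (1 - 3 / q) := by
  refine NumFib_geom q hq r N0 K (fun N => (Nat.fib (2 * N + 2) : ℝ)) (fun n => by positivity)
    fun n => ?_
  have h := NumFib_three (2 * n + 1)
  have e : 2 * (n + 1) + 2 = 2 * n + 1 + 1 + 2 := by ring
  rw [e]
  exact_mod_cast h

end QSys
end
end
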